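import Pool.Agent.Helper54.LN.Lag

/-!
# Project LN (MP_599705_an): the cells of the two dimensional check
-/

set_option autoImplicit false

namespace Pool.Agent.Helper54.LN

open Complex Metric Set MeasureTheory
open Pool.Agent.Helper91.LC

/-! ### sines -/

/-- `s / 10 ^ 8` is an upper bound of `sin (a / W)` -/
def sinUB (W a s : ℕ) : Bool :=
  Nat.ble (10 ^ 8 * (362880 * a * W ^ 8 + 3024 * a ^ 5 * W ^ 4 + a ^ 9))
    (s * 362880 * W ^ 9 + 10 ^ 8 * (60480 * a ^ 3 * W ^ 6 + 72 * a ^ 7 * W ^ 2))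

theorem sinUB_of {W a s : ℕ} (hW : 0 < W) (h : sinUB W a s = true) :
    Real.sin (a / W) ≤ (s : ℝ) / 10 ^ 8 := by
  have h1 := Nat.le_of_ble_eq_true h
  have hW' : (0 : ℝ) < W := by exact_mod_cast hW
  have h2 := (Helper83.LC.sincos_bd ((a : ℝ) / W) (by positivity)).2.1
  refine le_trans h2 ?_
  have h3 : (10 : ℝ) ^ 8 * (362880 * a * W ^ 8 + 3024 * a ^ 5 * W ^ 4 + a ^ 9) ≤
      s * 362880 * W ^ 9 + 10 ^ 8 * (60480 * a ^ 3 * W ^ 6 + 72 * a ^ 7 * W ^ 2) := by
    exact_mod_cast h1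
  rw [← sub_nonneg]
  have h4 : (s : ℝ) / 10 ^ 8 - ((a : ℝ) / W - ((a : ℝ) / W) ^ 3 / 6 + ((a : ℝ) / W) ^ 5 / 120 -
      ((a : ℝ) / W) ^ 7 / 5040 + ((a : ℝ) / W) ^ 9 / 362880) =
      ((s * 362880 * W ^ 9 + 10 ^ 8 * (60480 * a ^ 3 * W ^ 6 + 72 * a ^ 7 * W ^ 2)) -
        10 ^ 8 * (362880 * a * W ^ 8 + 3024 * a ^ 5 * W ^ 4 + a ^ 9)) /
        (10 ^ 8 * 362880 * (W : ℝ) ^ 9) := by
    field_simp
    ring
  rw [h4]
  apply div_nonneg
  · linarith
  · positivity

/-- `s / 10 ^ 8` is a lower bound of `sin (a / W)` -/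
def sinLB2 (W a s : ℕ) : Bool :=
  Nat.ble (s * 39916800 * W ^ 11 +
      10 ^ 8 * (6652800 * a ^ 3 * W ^ 8 + 7920 * a ^ 7 * W ^ 4 + a ^ 11))
    (10 ^ 8 * (39916800 * a * W ^ 10 + 332640 * a ^ 5 * W ^ 6 + 110 * a ^ 9 * W ^ 2))

theorem sinLB2_of {W a s : ℕ} (hW : 0 < W) (h : sinLB2 W a s = true) :
    (s : ℝ) / 10 ^ 8 ≤ Real.sin (a / W) := by
  have h1 := Nat.le_of_ble_eq_true h
  have hW' : (0 : ℝ) < W := by exact_mod_cast hW
  have h2 := (Helper83.LC.sincos_bd ((a : ℝ) / W) (by positivity)).1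
  refine le_trans ?_ h2
  have h3 : (s : ℝ) * 39916800 * W ^ 11 +
      10 ^ 8 * (6652800 * a ^ 3 * W ^ 8 + 7920 * a ^ 7 * W ^ 4 + a ^ 11) ≤
      10 ^ 8 * (39916800 * a * W ^ 10 + 332640 * a ^ 5 * W ^ 6 + 110 * a ^ 9 * W ^ 2) := by
    exact_mod_cast h1
  rw [← sub_nonneg]
  have h4 : (a : ℝ) / W - ((a : ℝ) / W) ^ 3 / 6 + ((a : ℝ) / W) ^ 5 / 120 -
      ((a : ℝ) / W) ^ 7 / 5040 + ((a : ℝ) / W) ^ 9 / 362880 - ((a : ℝ) / W) ^ 11 / 39916800 -
      s / 10 ^ 8 =
      ((10 ^ 8 * (39916800 * a * W ^ 10 + 332640 * a ^ 5 * W ^ 6 + 110 * a ^ 9 * W ^ 2)) -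
        (s * 39916800 * W ^ 11 +
      10 ^ 8 * (6652800 * a ^ 3 * W ^ 8 + 7920 * a ^ 7 * W ^ 4 + a ^ 11))) /
        (10 ^ 8 * 39916800 * (W : ℝ) ^ 11) := by
    field_simp
    ring
  rw [h4]
  apply div_nonneg
  · linarith
  · positivity

def sLo (SL : ℕ → ℕ) (a b : ℕ) : ℕ := min (SL a) (SL b)

def sHi (SH : ℕ → ℕ) (ip a b : ℕ) : ℕ :=
  cond (Nat.ble b ip) (SH b) (cond (Nat.blt ip a) (SH a) (10 ^ 8))

/-- the tables of sines are correct at `i / q`, `i < n` -/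
structure Sines (SL SH : ℕ → ℕ) (q ip n : ℕ) : Prop where
  q0 : 0 < q
  lo : ∀ i < n, (SL i : ℝ) / 10 ^ 8 ≤ Real.sin ((i : ℝ) / q)
  hi : ∀ i < n, Real.sin ((i : ℝ) / q) ≤ (SH i : ℝ) / 10 ^ 8
  ip1 : (ip : ℝ) ≤ Real.pi / 2 * q
  ip2 : Real.pi / 2 * q ≤ ip + 1
  n3 : (n : ℝ) ≤ 3 * q

theorem Sines.sLo_le {SL SH : ℕ → ℕ} {q ip n : ℕ} (hS : Sines SL SH q ip n) {a b : ℕ}
    (ha : a < n) (hb : b < n) {x : ℝ} (h1 : (a : ℝ) ≤ x * q) (h2 : x * q ≤ b) :
    (sLo SL a b : ℝ) / 10 ^ 8 ≤ Real.sin x := by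
  have hq : (0 : ℝ) < q := by exact_mod_cast hS.q0
  have hn3 := hS.n3
  have hpi := Real.pi_gt_three
  have h1' : (a : ℝ) / q ≤ x := by rwa [div_le_iff₀ hq]
  have h2' : x ≤ (b : ℝ) / q := by rwa [le_div_iff₀ hq]
  have hbr : (b : ℝ) < n := by exact_mod_cast hb
  have har : (a : ℝ) < n := by exact_mod_cast ha
  have hb3 : (b : ℝ) / q ≤ 3 := by rw [div_le_iff₀ hq]; linarith
  have ha3 : (a : ℝ) / q ≤ 3 := by rw [div_le_iff₀ hq]; linarith
  have hc := strictConcaveOn_sin_Icc.concaveOn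
  have h3 := hc.min_le_of_mem_Icc (x := (a : ℝ) / q) (y := (b : ℝ) / q) (z := x)
    ⟨by positivity, by linarith⟩ ⟨by positivity, by linarith⟩ ⟨h1', h2'⟩
  refine le_trans ?_ h3
  unfold sLo
  rw [le_min_iff]
  constructor
  · refine le_trans ?_ (hS.lo a ha)
    apply div_le_div_of_nonneg_right _ (by norm_num)
    exact_mod_cast min_le_left _ _
  · refine le_trans ?_ (hS.lo b hb)
    apply div_le_div_of_nonneg_right _ (by norm_num)
    exact_mod_cast min_le_right _ _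

theorem Sines.le_sHi {SL SH : ℕ → ℕ} {q ip n : ℕ} (hS : Sines SL SH q ip n) {a b : ℕ}
    (ha : a < n) (hb : b < n) {x : ℝ} (h1 : (a : ℝ) ≤ x * q) (h2 : x * q ≤ b) :
    Real.sin x ≤ (sHi SH ip a b : ℝ) / 10 ^ 8 := by
  have hq : (0 : ℝ) < q := by exact_mod_cast hS.q0
  have hn3 := hS.n3
  have hpi := Real.pi_gt_three
  have h1' : (a : ℝ) / q ≤ x := by rwa [div_le_iff₀ hq]
  have h2' : x ≤ (b : ℝ) / q := by rwa [le_div_iff₀ hq]
  have hbr : (b : ℝ) < n := by exact_mod_cast hb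
  have hb3 : (b : ℝ) / q ≤ 3 := by rw [div_le_iff₀ hq]; linarith
  have ha0 : (0 : ℝ) ≤ (a : ℝ) / q := by positivity
  have hip1 := hS.ip1
  have hip2 := hS.ip2
  unfold sHi
  rcases hc : Nat.ble b ip with _ | _
  · rw [cond_false]
    rcases hd : Nat.blt ip a with _ | _
    · rw [cond_false]
      refine le_trans (Real.sin_le_one x) ?_
      norm_num
    · rw [cond_true]
      have hd' : ip < a := by simpa [Nat.blt_eq] using hd
      refine le_trans ?_ (hS.hi a ha)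
      have har : (ip : ℝ) + 1 ≤ a := by exact_mod_cast hd'
      have h3 : Real.pi / 2 ≤ (a : ℝ) / q := by
        rw [le_div_iff₀ hq]
        linarith
      have h4 : Real.sin x = Real.sin (Real.pi - x) := (Real.sin_pi_sub x).symm
      have h5 : Real.sin ((a : ℝ) / q) = Real.sin (Real.pi - (a : ℝ) / q) :=
        (Real.sin_pi_sub _).symm
      rw [h4, h5]
      apply Real.sin_le_sin_of_le_of_le_pi_div_two <;> linarith
  · rw [cond_true]
    have hc' := Nat.le_of_ble_eq_true hc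
    refine le_trans ?_ (hS.hi b hb)
    have hbr : (b : ℝ) ≤ ip := by exact_mod_cast hc'
    have h3 : (b : ℝ) / q ≤ Real.pi / 2 := by
      rw [div_le_iff₀ hq]
      linarith
    apply Real.sin_le_sin_of_le_of_le_pi_div_two <;> linarith

/-! ### multipliers -/

/-- index below `lam * s * num / den` -/
def jLo (b lam s num den : ℕ) : ℕ := lam * s * num / (10 ^ 8 * den * b)

/-- value of the lower bound -/
def rV (Lt : ℕ → ℕ) (b lam lo hi num den : ℕ) : ℕ :=
  min (Lt (jLo b lam lo num den)) (Lt (jLo b lam hi num den + 1))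

def rOk (b JM lam lo hi num den : ℕ) : Bool :=
  Nat.blt (jLo b lam lo num den) JM && Nat.blt (jLo b lam hi num den + 1) JM

theorem rV_le {Lt : ℕ → ℕ} {b JM : ℕ} {H K s : ℝ} (hL : ∀ j < JM, (Lt j : ℝ) ≤ H + (j * b : ℕ) * K)
    (hb : 0 < b) {lam lo hi num den : ℕ} (hden : 0 < den) (hlo : (lo : ℝ) / 10 ^ 8 ≤ s)
    (hhi : s ≤ (hi : ℝ) / 10 ^ 8) (hok : rOk b JM lam lo hi num den = true) :
    (rV Lt b lam lo hi num den : ℝ) ≤ H + (lam * s * num / den) * K := by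
  unfold rOk at hok
  rw [Bool.and_eq_true] at hok
  have h1 : jLo b lam lo num den < JM := by simpa [Nat.blt_eq] using hok.1
  have h2 : jLo b lam hi num den + 1 < JM := by simpa [Nat.blt_eq] using hok.2
  have hden' : (0 : ℝ) < den := by exact_mod_cast hden
  have hb' : (0 : ℝ) < b := by exact_mod_cast hb
  have hD : 0 < 10 ^ 8 * den * b := by positivity
  refine L_le hL h1 h2 ?_ ?_
  · have h3 : jLo b lam lo num den * (10 ^ 8 * den * b) ≤ lam * lo * num := by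
      unfold jLo
      exact Nat.div_mul_le_self _ _
    have h4 : (jLo b lam lo num den : ℝ) * (10 ^ 8 * den * b) ≤ lam * lo * num := by
      exact_mod_cast h3
    push_cast
    rw [le_div_iff₀ hden']
    have h5 : (lam : ℝ) * (lo / 10 ^ 8) * num ≤ lam * s * num := by
      apply mul_le_mul_of_nonneg_right _ (Nat.cast_nonneg _)
      exact mul_le_mul_of_nonneg_left hlo (Nat.cast_nonneg _)
    have h6 : (lam : ℝ) * (lo / 10 ^ 8) * num = lam * lo * num / 10 ^ 8 := by ring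
    rw [h6, div_le_iff₀ (by norm_num)] at h5
    nlinarith
  · have h3 : lam * hi * num < (jLo b lam hi num den + 1) * (10 ^ 8 * den * b) := by
      unfold jLo
      have := Nat.lt_succ_iff.2 (le_refl (lam * hi * num / (10 ^ 8 * den * b)))
      exact (Nat.div_lt_iff_lt_mul hD).1 this
    have h4 : (lam : ℝ) * hi * num < ((jLo b lam hi num den + 1 : ℕ) : ℝ) * (10 ^ 8 * den * b) := by
      exact_mod_cast h3
    rw [div_le_iff₀ hden']
    push_cast at h4 ⊢
    have h5 : (lam : ℝ) * s * num ≤ lam * (hi / 10 ^ 8) * num := by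
      apply mul_le_mul_of_nonneg_right _ (Nat.cast_nonneg _)
      exact mul_le_mul_of_nonneg_left hhi (Nat.cast_nonneg _)
    have h6 : (lam : ℝ) * (hi / 10 ^ 8) * num = lam * hi * num / 10 ^ 8 := by ring
    rw [h6, le_div_iff₀ (by norm_num)] at h5
    nlinarith

/-! ### one cell -/

/-- the inequality of the cell, from the values; `th / 16` is the weight of the three point view -/
def cellI (T : Tab) (tgt lam th rg rh ry yh pw g2 : ℕ) : Bool :=
  Nat.blt (16 * tgt + th * (6 * T.J 0 T.N) +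
      cond (Nat.beq th 0) ((16 * lam * yh * (T.M2 - 10 ^ 4)) / 10 ^ 12 + 1) 0)
    (16 * (rg + rh) + th * ry + th * pw + (16 - th) * g2)

/-- the test of the cell `g ∈ [i / q, (i + 1) / q]`, `pi - y ∈ [j / q, (j + 1) / q]` -/
def cellT (T : Tab) (Lt SL SH G2 : ℕ → ℕ) (b JM q ip jx tgt i j lam th : ℕ) : Bool :=
  rOk b JM lam (sLo SL i (i + 1)) (sHi SH ip i (i + 1)) 1 1 &&
  (rOk b JM lam (sLo SL (i - j - 1) (i - j + 1)) (sHi SH ip (i - j - 1) (i - j + 1)) 1 1 &&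
  ((Nat.beq th 0 || rOk b JM lam (sLo SL j (j + 1)) (sHi SH ip j (j + 1)) 16 th) &&
  (Nat.ble th 16 && ((Nat.beq th 16 || Nat.blt j jx) &&
  cellI T tgt lam th
    (rV Lt b lam (sLo SL i (i + 1)) (sHi SH ip i (i + 1)) 1 1)
    (rV Lt b lam (sLo SL (i - j - 1) (i - j + 1)) (sHi SH ip (i - j - 1) (i - j + 1)) 1 1)
    (rV Lt b lam (sLo SL j (j + 1)) (sHi SH ip j (j + 1)) 16 th)
    (sHi SH ip j (j + 1))
    (T.Pn (T.U * i / q) + T.Pn (T.U * (3141592 * q - 10 ^ 6 * (i + 1 - j)) / (10 ^ 6 * q)) +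
      T.Pn (T.U * (3141592 * q - 10 ^ 6 * (j + 1)) / (10 ^ 6 * q)))
    (G2 j)))))

theorem three_cell {T : Tab} {Lt : ℕ → ℕ} {b JM gmax : ℕ} {tot g h y Hg Hh Hy Kg Kh Ky : ℝ}
    (hX : Three T Lt b JM gmax tot g h y Hg Hh Hy Kg Kh Ky) (hU : 0 < T.U) (hb : 0 < b)
    (hM2 : 10 ^ 4 ≤ T.M2)
    {SL SH G2 : ℕ → ℕ} {q ip n r piU jx tgt i j lam th : ℕ} (hS : Sines SL SH q ip n)
    (hUr : T.U = r * q) (hpi : (piU : ℝ) ≤ Real.pi * T.U)
    (hlp : 2 * T.N + jx * r ≤ piU) (hgm : Real.pi * T.U + jx * r < gmax + 1)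
    (hG2 : ∀ l < jx * r, G2 (l / r) ≤ T.G (piU - 1 - l) + T.G (piU + l))
    (hi1 : (i : ℝ) ≤ g * q) (hi2 : g * q < i + 1) (hj1 : (j : ℝ) ≤ (Real.pi - y) * q)
    (hj2 : (Real.pi - y) * q < j + 1) (hin : i + 1 < n) (hji : 2 * j ≤ i + 1) (hi3 : 3 ≤ i)
    (hck : cellT T Lt SL SH G2 b JM q ip jx tgt i j lam th = true) : (tgt : ℝ) < tot := by
  have hU' : (0 : ℝ) < T.U := by exact_mod_cast hU
  have hq : 0 < q := hS.q0
  have hq' : (0 : ℝ) < q := by exact_mod_cast hq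
  have hp6 := Real.pi_gt_d6
  have hp6' := Real.pi_lt_d6
  have hsum := hX.sum
  have hpq : (3.141592 : ℝ) * q ≤ Real.pi * q := mul_le_mul_of_nonneg_right hp6.le hq'.le
  have hr0 : 0 < r := by
    rcases Nat.eq_zero_or_pos r with h0 | h0
    · rw [h0, zero_mul] at hUr
      omega
    · exact h0
  have hr0' : (0 : ℝ) < r := by exact_mod_cast hr0
  have hUr' : (T.U : ℝ) = r * q := by exact_mod_cast hUr
  unfold cellT at hck
  rw [Bool.and_eq_true, Bool.and_eq_true, Bool.and_eq_true, Bool.or_eq_true,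
    Bool.and_eq_true, Bool.and_eq_true, Bool.or_eq_true] at hck
  obtain ⟨okg, okh, oky, hth, hthj, hI⟩ := hck
  have hth16 := Nat.le_of_ble_eq_true hth
  have hth16r : (th : ℝ) ≤ 16 := by exact_mod_cast hth16
  have hthr0 : (0 : ℝ) ≤ th := Nat.cast_nonneg _
  -- the three sines
  have c1 : (i : ℝ) ≤ g * q := hi1
  have c2 : g * q ≤ ((i + 1 : ℕ) : ℝ) := by push_cast; linarith
  have sg1 := hS.sLo_le (by omega) (by omega) c1 c2
  have sg2 := hS.le_sHi (by omega) (by omega) c1 c2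
  have e1 : (j : ℝ) ≤ (Real.pi - y) * q := hj1
  have e2 : (Real.pi - y) * q ≤ ((j + 1 : ℕ) : ℝ) := by push_cast; linarith
  have sy1 := hS.sLo_le (by omega) (by omega) e1 e2
  have sy2 := hS.le_sHi (by omega) (by omega) e1 e2
  rw [Real.sin_pi_sub] at sy1 sy2
  have hh : Real.pi - h = g - (Real.pi - y) := by linarith
  have d1 : ((i - j - 1 : ℕ) : ℝ) ≤ (Real.pi - h) * q := by
    rw [hh, Nat.sub_sub, Nat.cast_sub (by omega)]
    push_cast
    linarith
  have d2 : (Real.pi - h) * q ≤ ((i - j + 1 : ℕ) : ℝ) := by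
    rw [hh]
    push_cast
    rw [Nat.cast_sub (by omega)]
    linarith
  have sh1 := hS.sLo_le (by omega) (by omega) d1 d2
  have sh2 := hS.le_sHi (by omega) (by omega) d1 d2
  rw [Real.sin_pi_sub] at sh1 sh2
  have vg := rV_le hX.Lg hb one_pos sg1 sg2 okg
  have vh := rV_le hX.Lh hb one_pos sh1 sh2 okh
  set rg := rV Lt b lam (sLo SL i (i + 1)) (sHi SH ip i (i + 1)) 1 1 with hrg
  set rh := rV Lt b lam (sLo SL (i - j - 1) (i - j + 1))
    (sHi SH ip (i - j - 1) (i - j + 1)) 1 1 with hrh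
  set ry := rV Lt b lam (sLo SL j (j + 1)) (sHi SH ip j (j + 1)) 16 th with hry
  set yh := sHi SH ip j (j + 1) with hyh
  set n₁ := T.U * i / q with hn1
  set n₂ := T.U * (3141592 * q - 10 ^ 6 * (i + 1 - j)) / (10 ^ 6 * q) with hn2
  set n₃ := T.U * (3141592 * q - 10 ^ 6 * (j + 1)) / (10 ^ 6 * q) with hn3
  simp only [Nat.cast_one, mul_one, div_one] at vg vh
  have hI' : 16 * tgt + th * (6 * T.J 0 T.N) +
      cond (Nat.beq th 0) ((16 * lam * yh * (T.M2 - 10 ^ 4)) / 10 ^ 12 + 1) 0 <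
      16 * (rg + rh) + th * ry + th * (T.Pn n₁ + T.Pn n₂ + T.Pn n₃) + (16 - th) * G2 j := by
    unfold cellI at hI
    simpa [Nat.blt_eq] using hI
  -- the views
  have hin3 : (i : ℝ) + 1 < n := by exact_mod_cast hin
  have hn3q := hS.n3
  have hA : (th : ℝ) * (Hg + Hh + Hy + T.Pn n₁ + T.Pn n₂ + T.Pn n₃) ≤
      th * (6 * T.J 0 T.N + tot) := by
    apply mul_le_mul_of_nonneg_left _ hthr0
    apply hX.A
    · have h1 : n₁ * q ≤ T.U * i := Nat.div_mul_le_self _ _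
      have h1r : (n₁ : ℝ) * q ≤ T.U * i := by exact_mod_cast h1
      have h2 : (T.U : ℝ) * i ≤ T.U * (g * q) := mul_le_mul_of_nonneg_left hi1 hU'.le
      have h3 : (n₁ : ℝ) * q ≤ (g * T.U) * q := by linarith
      exact le_of_mul_le_mul_right h3 hq'
    · have h1 : n₂ * (10 ^ 6 * q) ≤ T.U * (3141592 * q - 10 ^ 6 * (i + 1 - j)) :=
        Nat.div_mul_le_self _ _
      have hle : 10 ^ 6 * (i + 1 - j) ≤ 3141592 * q := by
        have h5 : ((i + 1 - j : ℕ) : ℝ) ≤ 3 * q := by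
          rw [Nat.cast_sub (by omega)]
          push_cast
          have : (0 : ℝ) ≤ j := Nat.cast_nonneg _
          linarith
        have h6 : i + 1 - j ≤ 3 * q := by exact_mod_cast h5
        omega
      have h1r : (n₂ : ℝ) * (10 ^ 6 * q) ≤ T.U * (3141592 * q - 10 ^ 6 * ((i : ℝ) + 1 - j)) := by
        have h7 : ((T.U * (3141592 * q - 10 ^ 6 * (i + 1 - j)) : ℕ) : ℝ) =
            T.U * (3141592 * q - 10 ^ 6 * ((i : ℝ) + 1 - j)) := by
          rw [Nat.cast_mul, Nat.cast_sub hle, Nat.cast_mul, Nat.cast_mul, Nat.cast_sub (by omega)]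
          push_cast
          ring
        rw [← h7]
        exact_mod_cast h1
      have h2 : (3141592 * q - 10 ^ 6 * ((i : ℝ) + 1 - j)) ≤ h * (10 ^ 6 * q) := by
        have h8 : h = Real.pi - (g - (Real.pi - y)) := by linarith
        rw [h8]
        linarith
      have h3 : (n₂ : ℝ) * (10 ^ 6 * q) ≤ (h * T.U) * (10 ^ 6 * q) := by
        have := mul_le_mul_of_nonneg_left h2 hU'.le
        linarith
      exact le_of_mul_le_mul_right h3 (by positivity)
    · have h1 : n₃ * (10 ^ 6 * q) ≤ T.U * (3141592 * q - 10 ^ 6 * (j + 1)) :=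
        Nat.div_mul_le_self _ _
      have hle : 10 ^ 6 * (j + 1) ≤ 3141592 * q := by
        have h5 : ((j + 1 : ℕ) : ℝ) ≤ 3 * q := by
          have h6 : j + 1 ≤ i + 1 := by omega
          have h7 : ((j + 1 : ℕ) : ℝ) ≤ ((i + 1 : ℕ) : ℝ) := by exact_mod_cast h6
          push_cast at h7 ⊢
          linarith
        have h6 : j + 1 ≤ 3 * q := by exact_mod_cast h5
        omega
      have h1r : (n₃ : ℝ) * (10 ^ 6 * q) ≤ T.U * (3141592 * q - 10 ^ 6 * ((j : ℝ) + 1)) := by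
        have h7 : ((T.U * (3141592 * q - 10 ^ 6 * (j + 1)) : ℕ) : ℝ) =
            T.U * (3141592 * q - 10 ^ 6 * ((j : ℝ) + 1)) := by
          rw [Nat.cast_mul, Nat.cast_sub hle]
          push_cast
          ring
        rw [← h7]
        exact_mod_cast h1
      have h2 : (3141592 * q - 10 ^ 6 * ((j : ℝ) + 1)) ≤ y * (10 ^ 6 * q) := by
        linarith
      have h3 : (n₃ : ℝ) * (10 ^ 6 * q) ≤ (y * T.U) * (10 ^ 6 * q) := by
        have := mul_le_mul_of_nonneg_left h2 hU'.le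
        linarith
      exact le_of_mul_le_mul_right h3 (by positivity)
  have hB : (16 - th : ℝ) * (Hg + Hh + G2 j) ≤ (16 - th) * tot := by
    rcases Nat.lt_or_ge th 16 with ht | ht
    · have hjx : j < jx := by
        rcases hthj with h0 | h0
        · have := Nat.eq_of_beq_eq_true h0
          omega
        · simpa [Nat.blt_eq] using h0
      apply mul_le_mul_of_nonneg_left _ (by linarith)
      set yp : ℝ := Real.pi - y with hyp
      have hyp0 : 0 ≤ yp := by rw [hyp]; linarith [hX.ypi]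
      set l : ℕ := ⌊yp * T.U⌋₊ with hl
      have hl1 : (l : ℝ) ≤ yp * T.U := Nat.floor_le (by positivity)
      have hl2 : yp * T.U < l + 1 := Nat.lt_floor_add_one _
      have hlr : l / r = j := by
        have h1 : yp * T.U / r = yp * q := by
          rw [hUr']
          field_simp
        have h2 : ⌊yp * T.U / (r : ℝ)⌋₊ = l / r := Nat.floor_div_natCast _ _
        rw [← h2, h1]
        rw [Nat.floor_eq_iff (by positivity)]
        exact ⟨hj1, hj2⟩
      have hll : l < jx * r := by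
        have h1 : l / r < jx := by rw [hlr]; exact hjx
        exact (Nat.div_lt_iff_lt_mul hr0).1 h1
      have hg2 := hG2 l hll
      rw [hlr] at hg2
      have hg2r : (G2 j : ℝ) ≤ T.G (piU - 1 - l) + T.G (piU + l) := by exact_mod_cast hg2
      have hB1 := hX.B (piU - 1 - l) (piU + l) (by omega) (by omega) ?_ ?_ ?_
      · linarith
      · have h3 : ((piU - 1 - l : ℕ) : ℝ) = piU - 1 - l := by
          rw [Nat.sub_sub, Nat.cast_sub (by omega)]
          push_cast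
          ring
        rw [h3]
        have h4 : y = Real.pi - yp := by rw [hyp]; ring
        rw [h4]
        linarith
      · push_cast
        have h4 : 2 * Real.pi - y = Real.pi + yp := by rw [hyp]; ring
        rw [h4]
        linarith
      · have h4 : 2 * Real.pi - y = Real.pi + yp := by rw [hyp]; ring
        rw [h4]
        have h5 : yp * T.U < jx * r := by
          have h6 : yp * q < j + 1 := hj2
          have h7 : (j : ℝ) + 1 ≤ jx := by exact_mod_cast hjx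
          rw [hUr']
          have h8 : yp * q < jx := by linarith
          have h9 := mul_lt_mul_of_pos_right h8 hr0'
          linarith
        linarith
    · have h1 : th = 16 := by omega
      rw [h1]
      norm_num
  have h16 : (((16 - th : ℕ)) : ℝ) = 16 - th := by
    rw [Nat.cast_sub hth16]
    norm_num
  have hI'' : (16 : ℝ) * tgt + th * (6 * T.J 0 T.N) +
      ((cond (Nat.beq th 0) ((16 * lam * yh * (T.M2 - 10 ^ 4)) / 10 ^ 12 + 1) 0 : ℕ) : ℝ) <
      16 * (rg + rh) + th * ry + th * (T.Pn n₁ + T.Pn n₂ + T.Pn n₃) + (16 - th) * G2 j := by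
    rw [← h16]
    exact_mod_cast hI'
  have hsin := hX.sin
  have hlam : (0 : ℝ) ≤ lam := Nat.cast_nonneg _
  have hls := mul_nonpos_of_nonneg_of_nonpos hlam hsin
  rcases Nat.eq_zero_or_pos th with h0 | h0
  · -- the two point view
    rw [h0] at hI'' hB
    have hc0 : cond (Nat.beq 0 0) ((16 * lam * yh * (T.M2 - 10 ^ 4)) / 10 ^ 12 + 1) 0 =
        (16 * lam * yh * (T.M2 - 10 ^ 4)) / 10 ^ 12 + 1 := rfl
    rw [hc0] at hI''
    have h1 : 16 * lam * yh * (T.M2 - 10 ^ 4) <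
        ((16 * lam * yh * (T.M2 - 10 ^ 4)) / 10 ^ 12 + 1) * 10 ^ 12 :=
      (Nat.div_lt_iff_lt_mul (by norm_num)).1 (Nat.lt_succ_self _)
    have h2 : (16 : ℝ) * lam * yh * (T.M2 - 10 ^ 4) ≤
        (((16 * lam * yh * (T.M2 - 10 ^ 4)) / 10 ^ 12 + 1 : ℕ) : ℝ) * 10 ^ 12 := by
      have h3 : ((T.M2 - 10 ^ 4 : ℕ) : ℝ) = (T.M2 : ℝ) - 10 ^ 4 := by
        rw [Nat.cast_sub hM2]
        norm_num
      rw [← h3]
      exact_mod_cast h1.le
    have hKy := hX.Kyl
    have hsy0 : 0 ≤ Real.sin y := by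
      refine Real.sin_nonneg_of_nonneg_of_le_pi ?_ hX.ypi
      linarith [hX.g0, hX.gh, hX.hy]
    have h4 : -(lam * ((yh : ℝ) / 10 ^ 8) * ((T.M2 - 10 ^ 4) / 10 ^ 4)) ≤
        lam * Real.sin y * Ky := by
      have h5 : lam * Real.sin y * (1 - (T.M2 / 10 ^ 4 : ℝ)) ≤ lam * Real.sin y * Ky :=
        mul_le_mul_of_nonneg_left hKy (by positivity)
      refine le_trans ?_ h5
      have h6 : (0 : ℝ) ≤ T.M2 / 10 ^ 4 - 1 := by
        have : (10 ^ 4 : ℝ) ≤ T.M2 := by exact_mod_cast hM2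
        rw [sub_nonneg, le_div_iff₀ (by norm_num)]
        linarith
      have h7 : lam * Real.sin y * (T.M2 / 10 ^ 4 - 1) ≤
          lam * ((yh : ℝ) / 10 ^ 8) * (T.M2 / 10 ^ 4 - 1) := by
        apply mul_le_mul_of_nonneg_right _ h6
        exact mul_le_mul_of_nonneg_left sy2 hlam
      have h8 : (lam : ℝ) * ((yh : ℝ) / 10 ^ 8) * ((T.M2 - 10 ^ 4) / 10 ^ 4) =
          lam * ((yh : ℝ) / 10 ^ 8) * (T.M2 / 10 ^ 4 - 1) := by ring
      rw [h8]
      linarith
    have h9 : (16 : ℝ) * (lam * ((yh : ℝ) / 10 ^ 8) * ((T.M2 - 10 ^ 4) / 10 ^ 4)) ≤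
        (((16 * lam * yh * (T.M2 - 10 ^ 4)) / 10 ^ 12 + 1 : ℕ) : ℝ) := by
      have h10 : (16 : ℝ) * (lam * ((yh : ℝ) / 10 ^ 8) * ((T.M2 - 10 ^ 4) / 10 ^ 4)) =
          16 * lam * yh * (T.M2 - 10 ^ 4) / 10 ^ 12 := by ring
      rw [h10, div_le_iff₀ (by norm_num)]
      exact h2
    simp only [Nat.cast_zero, zero_mul, add_zero, sub_zero] at hI'' hB
    linarith
  · have hb0 : Nat.beq th 0 = false := by
      rw [← Bool.not_eq_true]
      intro h4
      have := Nat.eq_of_beq_eq_true h4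
      omega
    rw [hb0] at hI''
    simp only [cond_false, Nat.cast_zero, add_zero] at hI''
    have oky' : rOk b JM lam (sLo SL j (j + 1)) (sHi SH ip j (j + 1)) 16 th = true := by
      rcases oky with h1 | h1
      · rw [hb0] at h1
        exact absurd h1 (by simp)
      · exact h1
    have vy := rV_le hX.Ly hb h0 sy1 sy2 oky'
    rw [← hry] at vy
    have hth0 : (0 : ℝ) < th := by exact_mod_cast h0
    have vy' : (th : ℝ) * ry ≤ th * Hy + 16 * (lam * Real.sin y * Ky) := by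
      have h1 := mul_le_mul_of_nonneg_left vy hthr0
      have h2 : (th : ℝ) * (Hy + lam * Real.sin y * ((16 : ℕ) : ℝ) / th * Ky) =
          th * Hy + 16 * (lam * Real.sin y * Ky) := by
        push_cast
        field_simp
      linarith
    linarith

end Pool.Agent.Helper54.LN
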