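import Pool.Agent.Helper91.LC.R.Lower

/-!
# Project LN (MP_599705_an): configurations and bumps
-/

set_option autoImplicit false

namespace Pool.Agent.Helper54.LN

open Complex Metric Set MeasureTheory
open Pool.Agent.Helper91.LC

/-- `V` dominates the obstacles of the points of `E` on the circle of radius `0.84`. -/
structure Cfg (V : ℝ → ℝ) (E : Set ℂ) (m : ℝ) : Prop where
  cont : Continuous V
  low : ∀ p ∈ E, ∀ θ : ℝ, psiS (‖(0.84 : ℂ) * exp (θ * I) - p‖ ^ 2) ≤ V θ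
  norm : ∀ p ∈ E, 1 ≤ ‖p‖
  cov : ∀ c : ℂ, ∃ p ∈ E, ‖c - p‖ ≤ m

/-- the point with polar coordinates `d, φ` is in `E` -/
def Pt (E : Set ℂ) (d φ : ℝ) : Prop := 1 ≤ d ∧ (d : ℂ) * exp (φ * I) ∈ E

/-- law of cosines -/
theorem dist_sq (r d θ φ : ℝ) :
    ‖(r : ℂ) * exp (θ * I) - d * exp (φ * I)‖ ^ 2 =
      r ^ 2 + d ^ 2 - 2 * r * d * Real.cos (θ - φ) := by
  rw [Complex.sq_norm, Complex.normSq_apply]
  simp only [Complex.sub_re, Complex.sub_im, Complex.re_ofReal_mul, Complex.im_ofReal_mul,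
    Complex.exp_ofReal_mul_I_re, Complex.exp_ofReal_mul_I_im]
  rw [Real.cos_sub]
  have h1 := Real.sin_sq_add_cos_sq θ
  have h2 := Real.sin_sq_add_cos_sq φ
  linear_combination (r ^ 2) * h1 + (d ^ 2) * h2

theorem dist_sq84 (d θ φ : ℝ) :
    ‖(0.84 : ℂ) * exp (θ * I) - d * exp (φ * I)‖ ^ 2 =
      0.7056 + d ^ 2 - 1.68 * d * Real.cos (θ - φ) := by
  have h := dist_sq 0.84 d θ φ
  have h1 : ((0.84 : ℝ) : ℂ) = (0.84 : ℂ) := by norm_num
  rw [h1] at h
  rw [h]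
  ring

theorem sq_pos84 {d x : ℝ} (hd : 1 ≤ d) : 0 < 0.7056 + d ^ 2 - 1.68 * d * Real.cos x := by
  have h1 := Real.cos_le_one x
  have h2 : 0 ≤ 1.68 * d * (1 - Real.cos x) := by
    apply mul_nonneg
    · linarith
    · linarith
  nlinarith

theorem Cfg.nonneg {V : ℝ → ℝ} {E : Set ℂ} {m : ℝ} (h : Cfg V E m) (θ : ℝ) : 0 ≤ V θ := by
  obtain ⟨p, hp, -⟩ := h.cov 0
  refine le_trans (Pool.Agent.Helper91.LC.R54Lower.psiS_nonneg _ ?_) (h.low p hp θ)
  have h1 := h.norm p hp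
  have h2 : ‖(0.84 : ℂ) * exp (θ * I)‖ = 0.84 := by
    rw [norm_mul, Complex.norm_exp_ofReal_mul_I, mul_one]
    norm_num
  have h3 : ‖p‖ - ‖(0.84 : ℂ) * exp (θ * I)‖ ≤ ‖(0.84 : ℂ) * exp (θ * I) - p‖ := by
    rw [norm_sub_rev]
    exact norm_sub_norm_le _ _
  rw [h2] at h3
  have h4 : 0 < ‖(0.84 : ℂ) * exp (θ * I) - p‖ := by linarith
  positivity

theorem Cfg.intervalIntegrable {V : ℝ → ℝ} {E : Set ℂ} {m : ℝ} (h : Cfg V E m) (a b : ℝ) :
    IntervalIntegrable V volume a b := h.cont.intervalIntegrable a b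

theorem Cfg.int_nonneg {V : ℝ → ℝ} {E : Set ℂ} {m : ℝ} (h : Cfg V E m) {a b : ℝ} (hab : a ≤ b) :
    0 ≤ ∫ θ in a..b, V θ :=
  intervalIntegral.integral_nonneg hab fun θ _ => h.nonneg θ

theorem Cfg.int_mono {V : ℝ → ℝ} {E : Set ℂ} {m : ℝ} (h : Cfg V E m) {a b c d : ℝ} (hab : a ≤ b)
    (hbc : b ≤ c) (hcd : c ≤ d) : ∫ θ in b..c, V θ ≤ ∫ θ in a..d, V θ := by
  have h1 := intervalIntegral.integral_add_adjacent_intervals (h.intervalIntegrable a b)
    (h.intervalIntegrable b c)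
  have h2 := intervalIntegral.integral_add_adjacent_intervals (h.intervalIntegrable a c)
    (h.intervalIntegrable c d)
  have h3 := h.int_nonneg hab
  have h4 := h.int_nonneg hcd
  linarith

/-- the mirror image -/
theorem Cfg.mirror {V : ℝ → ℝ} {E : Set ℂ} {m : ℝ} (h : Cfg V E m) :
    Cfg (fun θ => V (-θ)) ((starRingEnd ℂ) ⁻¹' E) m where
  cont := h.cont.comp continuous_neg
  low := by
    intro p hp θ
    have h1 := h.low _ hp (-θ)
    have h2 : (0.84 : ℂ) * exp (((-θ : ℝ) : ℂ) * I) - (starRingEnd ℂ) p =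
        (starRingEnd ℂ) ((0.84 : ℂ) * exp (θ * I) - p) := by
      rw [map_sub, map_mul, ← Complex.exp_conj, map_mul, Complex.conj_I, Complex.conj_ofReal]
      have h3 : (starRingEnd ℂ) (0.84 : ℂ) = 0.84 := by
        have h4 : ((0.84 : ℝ) : ℂ) = (0.84 : ℂ) := by norm_num
        rw [← h4, Complex.conj_ofReal]
      rw [h3]
      congr 3
      push_cast
      ring
    rw [h2, RCLike.norm_conj] at h1
    exact h1
  norm := by
    intro p hp
    have h1 := h.norm _ hp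
    rwa [RCLike.norm_conj] at h1
  cov := by
    intro c
    obtain ⟨p, hp, h1⟩ := h.cov ((starRingEnd ℂ) c)
    refine ⟨(starRingEnd ℂ) p, ?_, ?_⟩
    · rw [mem_preimage, Complex.conj_conj]
      exact hp
    · rw [← RCLike.norm_conj, map_sub, Complex.conj_conj]
      exact h1

theorem Pt.mirror {E : Set ℂ} {d φ : ℝ} (h : Pt E d φ) :
    Pt ((starRingEnd ℂ) ⁻¹' E) d (-φ) := by
  refine ⟨h.1, ?_⟩
  rw [mem_preimage, map_mul, ← Complex.exp_conj, map_mul, Complex.conj_I, Complex.conj_ofReal,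
    Complex.conj_ofReal]
  have h1 : ((-φ : ℝ) : ℂ) * -I = φ * I := by
    push_cast
    ring
  rw [h1]
  exact h.2

theorem Pt.of_mirror {E : Set ℂ} {d φ : ℝ} (h : Pt ((starRingEnd ℂ) ⁻¹' E) d φ) :
    Pt E d (-φ) := by
  refine ⟨h.1, ?_⟩
  have h1 := h.2
  rw [mem_preimage, map_mul, ← Complex.exp_conj, map_mul, Complex.conj_I, Complex.conj_ofReal,
    Complex.conj_ofReal] at h1
  have h2 : ((-φ : ℝ) : ℂ) * I = φ * -I := by
    push_cast
    ring
  rw [h2]
  exact h1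

theorem Pt.add_two_pi {E : Set ℂ} {d φ : ℝ} (h : Pt E d φ) : Pt E d (φ + 2 * Real.pi) := by
  refine ⟨h.1, ?_⟩
  have h1 : exp (((φ + 2 * Real.pi : ℝ) : ℂ) * I) = exp (φ * I) := by
    push_cast
    rw [add_mul, Complex.exp_add, Complex.exp_two_pi_mul_I, mul_one]
  rw [h1]
  exact h.2

/-- affine minorants -/
def Tan (A B : ℝ) : Prop := 0 ≤ B ∧ ∀ s : ℝ, 0 < s → A - B * s ≤ psiS s

/-- lower bound of `V` near a point -/
theorem low_tan {V : ℝ → ℝ} {E : Set ℂ} {m : ℝ} (h : Cfg V E m) {d φ D A B : ℝ} (hp : Pt E d φ)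
    (hD : d ≤ D) (hT : Tan A B) (θ : ℝ) :
    A - B * (0.7056 + D ^ 2) + 1.68 * B * D * Real.cos (θ - φ) ≤ V θ := by
  have h1 := h.low _ hp.2 θ
  rw [dist_sq84] at h1
  have h2 := hT.2 _ (sq_pos84 (x := θ - φ) hp.1)
  have h3 := Real.cos_le_one (θ - φ)
  have h4 : 0 ≤ (D - d) * (D + d - 1.68 * Real.cos (θ - φ)) := by
    apply mul_nonneg (by linarith)
    have := hp.1
    linarith
  have h5 : 0 ≤ B * ((D - d) * (D + d - 1.68 * Real.cos (θ - φ))) := mul_nonneg hT.1 h4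
  linarith

/-- one cell to the right of a point -/
theorem cell_right {V : ℝ → ℝ} {E : Set ℂ} {m : ℝ} (h : Cfg V E m) {d φ D A B a u c : ℝ}
    (hp : Pt E d φ) (hD : d ≤ D) (hT : Tan A B) (hu : 0 ≤ u) (hu1 : u ≤ 1) (hc0 : 0 ≤ c)
    (hc : c ≤ Real.cos (a + u / 2)) :
    u * (A - B * (0.7056 + D ^ 2) + 1.68 * B * D * ((1 - u ^ 2 / 24) * c)) ≤
      ∫ θ in (φ + a)..(φ + (a + u)), V θ := by
  have h1 : ∫ θ in (φ + a)..(φ + (a + u)),
      (A - B * (0.7056 + D ^ 2) + 1.68 * B * D * Real.cos (θ - φ)) ≤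
      ∫ θ in (φ + a)..(φ + (a + u)), V θ := by
    refine intervalIntegral.integral_mono_on (by linarith) ?_ (h.intervalIntegrable _ _) ?_
    · refine Continuous.intervalIntegrable ?_ _ _
      fun_prop
    · intro θ _
      exact low_tan h hp hD hT θ
  refine le_trans ?_ h1
  have h2 : ∫ θ in (φ + a)..(φ + (a + u)), Real.cos (θ - φ) =
      Real.sin (a + u) - Real.sin a := by
    rw [intervalIntegral.integral_comp_sub_right (fun x => Real.cos x) φ, integral_cos]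
    congr 2 <;> ring
  rw [intervalIntegral.integral_add (by simp)
    (by refine Continuous.intervalIntegrable ?_ _ _; fun_prop),
    intervalIntegral.integral_const, intervalIntegral.integral_const_mul, h2, smul_eq_mul]
  have h3 : Real.sin (a + u) - Real.sin a = 2 * Real.sin (u / 2) * Real.cos (a + u / 2) := by
    rw [Real.sin_sub_sin]
    congr 2
    · congr 1; ring
    · ring
  have h4 : u / 2 - (u / 2) ^ 3 / 6 ≤ Real.sin (u / 2) := Real.sin_ge_sub_cube (by linarith)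
  have h5 : 0 ≤ u / 2 - (u / 2) ^ 3 / 6 := by
    have h6 : u / 2 - (u / 2) ^ 3 / 6 = u / 2 * (1 - u ^ 2 / 24) := by ring
    rw [h6]
    apply mul_nonneg (by linarith)
    nlinarith
  have h6 : u * ((1 - u ^ 2 / 24) * c) ≤ Real.sin (a + u) - Real.sin a := by
    rw [h3]
    calc u * ((1 - u ^ 2 / 24) * c) = 2 * (u / 2 - (u / 2) ^ 3 / 6) * c := by ring
      _ ≤ 2 * Real.sin (u / 2) * Real.cos (a + u / 2) := by
        apply mul_le_mul _ hc hc0
        · linarith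
        · linarith
  have hD0 : 0 ≤ D := by
    have := hp.1
    linarith
  have h7 : 0 ≤ 1.68 * B * D := by
    have := hT.1
    positivity
  have h8 := mul_le_mul_of_nonneg_left h6 h7
  have h9 : φ + (a + u) - (φ + a) = u := by ring
  rw [h9]
  nlinarith

end Pool.Agent.Helper54.LN
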