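import Pool.Agent.Helper54.LN.Gap
import Pool.Agent.Helper83.LC.Trig

/-!
# Project LN (MP_599705_an): Boolean checks of the tables
-/

set_option autoImplicit false

namespace Pool.Agent.Helper54.LN

open Complex Metric Set MeasureTheory
open Pool.Agent.Helper91.LC

/-- conjunction over `i < n` -/
def allB (f : ℕ → Bool) : ℕ → Bool
  | 0 => true
  | n + 1 => f n && allB f n

theorem allB_iff {f : ℕ → Bool} {n : ℕ} : allB f n = true ↔ ∀ i < n, f i = true := by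
  induction n with
  | zero => simp [allB]
  | succ n ih =>
    rw [allB, Bool.and_eq_true, ih]
    constructor
    · rintro ⟨h1, h2⟩ i hi
      rcases Nat.lt_succ_iff_lt_or_eq.1 hi with h | h
      · exact h2 i h
      · rw [h]; exact h1
    · intro h
      exact ⟨h n (Nat.lt_succ_self n), fun i hi => h i (Nat.lt_succ_of_lt hi)⟩

/-- entry `i` of a packed table with `w` bits per entry -/
def get (w T i : ℕ) : ℕ := (T >>> (w * i)) % 2 ^ w

/-! ### tangents -/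

/-- the Taylor sum of `exp (l / 10 ^ 10)`, times `10 ^ 140 * 14!` -/
def expSum (l : ℕ) : ℕ :=
  ∑ k ∈ Finset.range 15, l ^ k * 10 ^ (10 * (14 - k)) * (Nat.factorial 14 / Nat.factorial k)

theorem expSum_le (l : ℕ) :
    (expSum l : ℝ) ≤ 10 ^ 140 * (Nat.factorial 14 : ℝ) * Real.exp (l / 10 ^ 10) := by
  have h1 := Real.sum_le_exp_of_nonneg (x := (l : ℝ) / 10 ^ 10) (by positivity) 15
  have h2 : (expSum l : ℝ) = 10 ^ 140 * (Nat.factorial 14 : ℝ) *
      ∑ k ∈ Finset.range 15, ((l : ℝ) / 10 ^ 10) ^ k / (Nat.factorial k : ℝ) := by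
    unfold expSum
    push_cast
    rw [Finset.mul_sum]
    apply Finset.sum_congr rfl
    intro k hk
    have hk' : k ≤ 14 := by
      have := Finset.mem_range.1 hk
      omega
    rw [Nat.cast_div (Nat.factorial_dvd_factorial hk') (by positivity)]
    have h3 : (10 : ℝ) ^ 140 = 10 ^ (10 * (14 - k)) * (10 ^ 10) ^ k := by
      rw [← pow_mul, ← pow_add]
      congr 1
      omega
    rw [h3, div_pow]
    have h4 : (0 : ℝ) < (Nat.factorial k : ℝ) := by positivity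
    field_simp
  rw [h2]
  exact mul_le_mul_of_nonneg_left h1 (by positivity)

/-- test of the tangent at `x = i / 20` -/
def tanB (i l A B : ℕ) : Bool :=
  Nat.ble ((20 + i) * (10 ^ 140 * Nat.factorial 14)) (20 * expSum l) &&
  (Nat.ble (A * 100 * (40 * (20 + i)) + l * (40 * (20 + i)))
    (i * 10 ^ 10 * (2 * (20 + i)) + i * 10 ^ 10 * 20) &&
  Nat.ble (i * 1105170918076 ^ i * 10 ^ 6) (B * (2 * (20 + i)) * (10 ^ 12) ^ i))

theorem exp_tenth : Real.exp (1 / 10) ≤ 1105170918076 / 10 ^ 12 := by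
  have h := (Helper83.LC.exp_bd (1 / 10) (by norm_num) (by norm_num)).2
  refine le_trans h ?_
  norm_num

theorem tan_of {i l A B : ℕ} (h : tanB i l A B = true) :
    Tan ((A : ℝ) / 10 ^ 8) ((B : ℝ) / 10 ^ 6) := by
  unfold tanB at h
  rw [Bool.and_eq_true, Bool.and_eq_true] at h
  obtain ⟨h1, h2, h3⟩ := h
  have h1 := Nat.le_of_ble_eq_true h1
  have h2 := Nat.le_of_ble_eq_true h2
  have h3 := Nat.le_of_ble_eq_true h3
  refine ⟨by positivity, ?_⟩
  intro s hs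
  set x : ℝ := i / 20 with hx
  have hx0 : 0 ≤ x := by positivity
  refine le_trans ?_ (Pool.Agent.Helper91.LC.R54Lower.aff_le_psiS hx0 hs)
  unfold aff
  -- the logarithm
  have hlog : Real.log (1 + x) ≤ l / 10 ^ 10 := by
    rw [Real.log_le_iff_le_exp (by positivity)]
    have h4 := expSum_le l
    have h5 : (20 + (i : ℝ)) * (10 ^ 140 * (Nat.factorial 14 : ℝ)) ≤
        20 * (expSum l : ℝ) := by exact_mod_cast h1
    have h6 : (0 : ℝ) < 10 ^ 140 * (Nat.factorial 14 : ℝ) := by positivity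
    have h7 : (20 + (i : ℝ)) * (10 ^ 140 * (Nat.factorial 14 : ℝ)) ≤
        20 * (10 ^ 140 * (Nat.factorial 14 : ℝ) * Real.exp (l / 10 ^ 10)) :=
      le_trans h5 (mul_le_mul_of_nonneg_left h4 (by norm_num))
    have h8 : (20 + (i : ℝ)) ≤ 20 * Real.exp (l / 10 ^ 10) := by
      by_contra hcon
      push Not at hcon
      have := mul_lt_mul_of_pos_right hcon h6
      linarith
    rw [hx]
    linarith
  have hexp : Real.exp (2 * x) ≤ (1105170918076 / 10 ^ 12) ^ i := by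
    have h4 : 2 * x = i * (1 / 10) := by rw [hx]; ring
    rw [h4, Real.exp_nat_mul]
    exact pow_le_pow_left₀ (Real.exp_pos _).le exp_tenth _
  have h20 : (0 : ℝ) < 20 + i := by positivity
  have hq : x / (2 * (1 + x)) = i / (2 * (20 + i)) := by
    rw [hx]
    field_simp
  have hq0 : 0 ≤ x / (2 * (1 + x)) := by positivity
  have hA : (A : ℝ) / 10 ^ 8 ≤ x - l / 10 ^ 10 + x / (2 * (1 + x)) := by
    rw [hq, hx]
    have h5 : (A : ℝ) * 100 * (40 * (20 + i)) + l * (40 * (20 + i)) ≤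
        i * 10 ^ 10 * (2 * (20 + i)) + i * 10 ^ 10 * 20 := by exact_mod_cast h2
    rw [← sub_nonneg]
    have h6 : (i : ℝ) / 20 - l / 10 ^ 10 + i / (2 * (20 + i)) - A / 10 ^ 8 =
        ((i * 10 ^ 10 * (2 * (20 + i)) + i * 10 ^ 10 * 20) -
          (A * 100 * (40 * (20 + i)) + l * (40 * (20 + i)))) / (40 * (20 + i) * 10 ^ 10) := by
      field_simp
      ring
    rw [h6]
    apply div_nonneg
    · linarith
    · positivity
  have hB : x / (2 * (1 + x)) * Real.exp (2 * x) ≤ (B : ℝ) / 10 ^ 6 := by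
    refine le_trans (mul_le_mul_of_nonneg_left hexp hq0) ?_
    rw [hq]
    have h5 : (i : ℝ) * 1105170918076 ^ i * 10 ^ 6 ≤
        B * (2 * (20 + i)) * (10 ^ 12) ^ i := by exact_mod_cast h3
    rw [div_pow, div_mul_div_comm, div_le_div_iff₀ (by positivity) (by positivity)]
    linarith
  have hBs := mul_le_mul_of_nonneg_right hB hs.le
  have h9 : x / (2 * (1 + x)) * (1 - Real.exp (2 * x) * s) =
      x / (2 * (1 + x)) - x / (2 * (1 + x)) * Real.exp (2 * x) * s := by ring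
  rw [h9]
  linarith

theorem tan_zero : Tan (((0 : ℕ) : ℝ) / 10 ^ 8) (((0 : ℕ) : ℝ) / 10 ^ 6) := by
  refine ⟨by simp, ?_⟩
  intro s hs
  simpa using Pool.Agent.Helper91.LC.R54Lower.psiS_nonneg s hs

/-! ### cosines -/

/-- `c / 10 ^ 8` is a lower bound of `cos (a / W)` -/
def cosLB (W a c : ℕ) : Bool :=
  Nat.ble (c * 3628800 * W ^ 10 +
      10 ^ 8 * (1814400 * a ^ 2 * W ^ 8 + 5040 * a ^ 6 * W ^ 4 + a ^ 10))
    (10 ^ 8 * (3628800 * W ^ 10 + 151200 * a ^ 4 * W ^ 6 + 90 * a ^ 8 * W ^ 2))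

theorem cosLB_of {W a c : ℕ} (hW : 0 < W) (h : cosLB W a c = true) :
    (c : ℝ) / 10 ^ 8 ≤ Real.cos (a / W) := by
  have h1 := Nat.le_of_ble_eq_true h
  have hW' : (0 : ℝ) < W := by exact_mod_cast hW
  have h2 := (Helper83.LC.sincos_bd ((a : ℝ) / W) (by positivity)).2.2.1
  refine le_trans ?_ h2
  have h3 : (c : ℝ) * 3628800 * W ^ 10 +
      10 ^ 8 * (1814400 * a ^ 2 * W ^ 8 + 5040 * a ^ 6 * W ^ 4 + a ^ 10) ≤
      10 ^ 8 * (3628800 * W ^ 10 + 151200 * a ^ 4 * W ^ 6 + 90 * a ^ 8 * W ^ 2) := by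
    exact_mod_cast h1
  rw [← sub_nonneg]
  have h4 : (1 : ℝ) - ((a : ℝ) / W) ^ 2 / 2 + ((a : ℝ) / W) ^ 4 / 24 - ((a : ℝ) / W) ^ 6 / 720 +
      ((a : ℝ) / W) ^ 8 / 40320 - ((a : ℝ) / W) ^ 10 / 3628800 - c / 10 ^ 8 =
      ((10 ^ 8 * (3628800 * W ^ 10 + 151200 * a ^ 4 * W ^ 6 + 90 * a ^ 8 * W ^ 2)) -
        (c * 3628800 * W ^ 10 +
      10 ^ 8 * (1814400 * a ^ 2 * W ^ 8 + 5040 * a ^ 6 * W ^ 4 + a ^ 10))) /
        (10 ^ 8 * 3628800 * (W : ℝ) ^ 10) := by
    field_simp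
    ring
  rw [h4]
  apply div_nonneg
  · linarith
  · positivity

/-- `C` is an upper bound of `10 ^ 8 * (1 + cos (o / W))` -/
def cosUB (W o C : ℕ) : Bool :=
  Nat.ble (10 ^ 8 * (958003200 * W ^ 12 + 19958400 * o ^ 4 * W ^ 8 + 11880 * o ^ 8 * W ^ 4 +
      o ^ 12))
    (C * 479001600 * W ^ 12 + 10 ^ 8 * (239500800 * o ^ 2 * W ^ 10 + 665280 * o ^ 6 * W ^ 6 +
      132 * o ^ 10 * W ^ 2))

theorem cosUB_of {W o C : ℕ} (hW : 0 < W) (h : cosUB W o C = true) :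
    10 ^ 8 * (1 + Real.cos (o / W)) ≤ C := by
  have h1 := Nat.le_of_ble_eq_true h
  have hW' : (0 : ℝ) < W := by exact_mod_cast hW
  have h2 := (Helper83.LC.sincos_bd ((o : ℝ) / W) (by positivity)).2.2.2
  have h3 : (10 : ℝ) ^ 8 * (958003200 * W ^ 12 + 19958400 * o ^ 4 * W ^ 8 +
      11880 * o ^ 8 * W ^ 4 + o ^ 12) ≤
      C * 479001600 * W ^ 12 + 10 ^ 8 * (239500800 * o ^ 2 * W ^ 10 +
      665280 * o ^ 6 * W ^ 6 + 132 * o ^ 10 * W ^ 2) := by
    exact_mod_cast h1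
  have h4 : (C : ℝ) - 10 ^ 8 * (1 + (1 - ((o : ℝ) / W) ^ 2 / 2 + ((o : ℝ) / W) ^ 4 / 24 -
      ((o : ℝ) / W) ^ 6 / 720 + ((o : ℝ) / W) ^ 8 / 40320 - ((o : ℝ) / W) ^ 10 / 3628800 +
      ((o : ℝ) / W) ^ 12 / 479001600)) =
      ((C * 479001600 * W ^ 12 + 10 ^ 8 * (239500800 * o ^ 2 * W ^ 10 +
        665280 * o ^ 6 * W ^ 6 + 132 * o ^ 10 * W ^ 2)) -
        10 ^ 8 * (958003200 * W ^ 12 + 19958400 * o ^ 4 * W ^ 8 + 11880 * o ^ 8 * W ^ 4 +
        o ^ 12)) / (479001600 * (W : ℝ) ^ 12) := by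
    field_simp
    ring
  have h5 : 0 ≤ (C : ℝ) - 10 ^ 8 * (1 + (1 - ((o : ℝ) / W) ^ 2 / 2 + ((o : ℝ) / W) ^ 4 / 24 -
      ((o : ℝ) / W) ^ 6 / 720 + ((o : ℝ) / W) ^ 8 / 40320 - ((o : ℝ) / W) ^ 10 / 3628800 +
      ((o : ℝ) / W) ^ 12 / 479001600)) := by
    rw [h4]
    apply div_nonneg
    · linarith
    · positivity
  linarith

/-! ### cells -/

/-- the test of one cell -/
def cellB (U Ku A B D4 c j0 j1 : ℕ) : Bool :=
  Nat.ble (j1 * U * 10 ^ 20 + 100 * B * (70560000 + D4 ^ 2) * 10 ^ 12)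
    (j0 * U * 10 ^ 20 + A * 10 ^ 20 + 168 * B * D4 * Ku * c)

theorem cell_of {V : ℝ → ℝ} {E : Set ℂ} {m : ℝ} (h : Cfg V E m) {d φ : ℝ}
    {U Ku A B D4 c j0 j1 n : ℕ} (hU : 0 < U) (hKu : Ku * (24 * U ^ 2) + 10 ^ 8 ≤ 10 ^ 8 * (24 * U ^ 2))
    (hp : Pt E d φ) (hD : d ≤ D4 / 10 ^ 4) (hT : Tan ((A : ℝ) / 10 ^ 8) ((B : ℝ) / 10 ^ 6))
    (hc : (c : ℝ) / 10 ^ 8 ≤ Real.cos (((2 * n + 1 : ℕ) : ℝ) / ((2 * U : ℕ) : ℝ)))
    (hcell : cellB U Ku A B D4 c j0 j1 = true) :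
    (j1 : ℝ) - j0 ≤ 10 ^ 8 * ∫ θ in (φ + n / U)..(φ + (n + 1 : ℕ) / U), V θ := by
  have hU' : (0 : ℝ) < U := by exact_mod_cast hU
  have hU1 : (1 : ℝ) ≤ U := by exact_mod_cast hU
  have hcos : (c : ℝ) / 10 ^ 8 ≤ Real.cos ((n : ℝ) / U + 1 / U / 2) := by
    have h1 : (n : ℝ) / U + 1 / U / 2 = ((2 * n + 1 : ℕ) : ℝ) / ((2 * U : ℕ) : ℝ) := by
      push_cast
      field_simp
    rw [h1]
    exact hc
  have h1 := cell_right h hp hD hT (a := n / U) (u := 1 / U) (by positivity)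
    (by rw [div_le_one hU']; exact hU1) (by positivity) hcos
  have h2 : φ + ((n : ℝ) / U + 1 / U) = φ + ((n + 1 : ℕ) : ℝ) / U := by
    push_cast
    ring
  rw [h2] at h1
  have h3 := Nat.le_of_ble_eq_true hcell
  have h4 : (j1 : ℝ) * U * 10 ^ 20 + 100 * B * (70560000 + D4 ^ 2) * 10 ^ 12 ≤
      j0 * U * 10 ^ 20 + A * 10 ^ 20 + 168 * B * D4 * Ku * c := by
    exact_mod_cast h3
  have h5 : (Ku : ℝ) * (24 * U ^ 2) + 10 ^ 8 ≤ 10 ^ 8 * (24 * U ^ 2) := by
    exact_mod_cast hKu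
  have h6 : (Ku : ℝ) / 10 ^ 8 ≤ 1 - (1 / (U : ℝ)) ^ 2 / 24 := by
    rw [← sub_nonneg]
    have h7 : (1 : ℝ) - (1 / (U : ℝ)) ^ 2 / 24 - Ku / 10 ^ 8 =
        ((10 ^ 8 * (24 * U ^ 2)) - (Ku * (24 * U ^ 2) + 10 ^ 8)) / (10 ^ 8 * (24 * (U : ℝ) ^ 2)) := by
      field_simp
      ring
    rw [h7]
    apply div_nonneg
    · linarith
    · positivity
  have h7 : (0 : ℝ) ≤ 1.68 * B * D4 * c := by positivity
  have h8 := mul_le_mul_of_nonneg_left h6 h7
  have h9 : (j1 : ℝ) - j0 ≤ 10 ^ 8 * (1 / (U : ℝ) * ((A : ℝ) / 10 ^ 8 - (B : ℝ) / 10 ^ 6 *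
      (0.7056 + ((D4 : ℝ) / 10 ^ 4) ^ 2) + 1.68 * ((B : ℝ) / 10 ^ 6) * ((D4 : ℝ) / 10 ^ 4) *
      ((1 - (1 / (U : ℝ)) ^ 2 / 24) * ((c : ℝ) / 10 ^ 8)))) := by
    have h10 : 10 ^ 8 * (1 / (U : ℝ) * ((A : ℝ) / 10 ^ 8 - (B : ℝ) / 10 ^ 6 *
      (0.7056 + ((D4 : ℝ) / 10 ^ 4) ^ 2) + 1.68 * ((B : ℝ) / 10 ^ 6) * ((D4 : ℝ) / 10 ^ 4) *
      ((1 - (1 / (U : ℝ)) ^ 2 / 24) * ((c : ℝ) / 10 ^ 8)))) =
      (A - 100 * B * (0.7056 + (D4 : ℝ) ^ 2 / 10 ^ 8) +
        1.68 * B * D4 * c * (1 - (1 / (U : ℝ)) ^ 2 / 24) / 10 ^ 10) / U := by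
      ring
    rw [h10, le_div_iff₀ hU']
    nlinarith
  linarith

/-! ### the table -/

/-- `U M2 N K` and packed tables -/
def mkTab (U M2 N K TD TJ TG : ℕ) : Tab where
  U := U
  M2 := M2
  N := N
  K := K
  D := fun k => get 16 TD k
  J := fun k n => cond (Nat.blt k K) (get 32 (get (32 * (N + 1)) TJ k) (cond (Nat.ble N n) N n)) 0
  G := fun g => get 32 TG g

/-- the test of the tangents -/
def tansB (TA TB TL : ℕ) : Bool :=
  allB (fun i => tanB i (get 64 TL i) (get 32 TA i) (get 32 TB i)) 38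

/-- the test of the cosines -/
def cossB (U N TC : ℕ) : Bool :=
  allB (fun n => cosLB (2 * U) (2 * n + 1) (get 32 TC n)) N

/-- the test of row `k` of the table -/
def rowB (T : Tab) (Ku TA TB TC TI k : ℕ) : Bool :=
  (Nat.beq (T.J k 0) 0 && Nat.ble 10000 (T.D k)) &&
  allB (fun n =>
    Nat.blt (get 8 (get (8 * T.N) TI k) n) 38 &&
    (cellB T.U Ku (get 32 TA (get 8 (get (8 * T.N) TI k) n))
      (get 32 TB (get 8 (get (8 * T.N) TI k) n)) (T.D k) (get 32 TC n) (T.J k n) (T.J k (n + 1)) &&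
    Nat.ble (T.J k T.N + T.J 0 n) (T.J 0 T.N + T.J k n))) T.N

/-- the test of rows `k < K` and the constants -/
def tabB (T : Tab) (Ku TA TB TC TI : ℕ) : Bool :=
  (Nat.blt 0 T.U && (Nat.ble (Ku * (24 * T.U ^ 2) + 10 ^ 8) (10 ^ 8 * (24 * T.U ^ 2)) &&
    allB (fun n => Nat.ble (T.J 0 n) (T.J 0 T.N)) T.N)) &&
  allB (fun k => rowB T Ku TA TB TC TI k) T.K

theorem good_of {m : ℝ} {U M2 N K TD TJ TG Ku TA TB TC TL TI : ℕ} (hm : m ^ 2 ≤ M2 / 10 ^ 4)
    (h1 : tansB TA TB TL = true) (h2 : cossB U N TC = true)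
    (h3 : tabB (mkTab U M2 N K TD TJ TG) Ku TA TB TC TI = true) :
    (mkTab U M2 N K TD TJ TG).Good m := by
  set T := mkTab U M2 N K TD TJ TG with hT
  have hJbig : ∀ k n, N ≤ n → T.J k n = T.J k N := by
    intro k n hn
    simp only [hT, mkTab]
    rw [Nat.ble_eq_true_of_le hn, Nat.ble_eq_true_of_le (le_refl N)]
    rfl
  have hJK : ∀ k n, K ≤ k → T.J k n = 0 := by
    intro k n hk
    simp only [hT, mkTab]
    have : Nat.blt k K = false := by
      rw [← Bool.not_eq_true]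
      intro h
      have : k < K := by simpa [Nat.blt_eq] using h
      omega
    rw [this]
    rfl
  have htan : ∀ i < 38, Tan ((get 32 TA i : ℝ) / 10 ^ 8) ((get 32 TB i : ℝ) / 10 ^ 6) := by
    intro i hi
    exact tan_of (allB_iff.1 h1 i hi)
  unfold tabB at h3
  rw [Bool.and_eq_true, Bool.and_eq_true, Bool.and_eq_true, allB_iff, allB_iff] at h3
  obtain ⟨⟨hU, hKu, hJ0⟩, hrow⟩ := h3
  have hU' : 0 < U := by
    have : Nat.blt 0 U = true := hU
    simpa [Nat.blt_eq] using this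
  have hcos : ∀ n < N, (get 32 TC n : ℝ) / 10 ^ 8 ≤
      Real.cos (((2 * n + 1 : ℕ) : ℝ) / ((2 * U : ℕ) : ℝ)) := by
    intro n hn
    exact cosLB_of (by omega) (allB_iff.1 h2 n hn)
  have hKu' := Nat.le_of_ble_eq_true hKu
  have hr : ∀ k < K, T.J k 0 = 0 ∧ 10000 ≤ T.D k ∧ ∀ n < N,
      (get 8 (get (8 * T.N) TI k) n) < 38 ∧
      cellB T.U Ku (get 32 TA (get 8 (get (8 * T.N) TI k) n))
      (get 32 TB (get 8 (get (8 * T.N) TI k) n)) (T.D k) (get 32 TC n) (T.J k n)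
        (T.J k (n + 1)) = true ∧ T.J k N + T.J 0 n ≤ T.J 0 N + T.J k n := by
    intro k hk
    have h4 := hrow k hk
    unfold rowB at h4
    rw [Bool.and_eq_true, Bool.and_eq_true, allB_iff] at h4
    obtain ⟨⟨h5, h6⟩, h7⟩ := h4
    refine ⟨Nat.eq_of_beq_eq_true h5, Nat.le_of_ble_eq_true h6, ?_⟩
    intro n hn
    have h8 := h7 n hn
    rw [Bool.and_eq_true, Bool.and_eq_true] at h8
    obtain ⟨h9, h10, h11⟩ := h8
    refine ⟨?_, h10, Nat.le_of_ble_eq_true h11⟩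
    simpa [Nat.blt_eq] using h9
  refine ⟨hU', hm, ?_, ?_, ?_⟩
  · intro k hk
    exact (hr k hk).2.1
  · intro V E h k n d φ hp hk
    have hUr : (0 : ℝ) < U := by exact_mod_cast hU'
    show (T.J k n : ℝ) ≤ 10 ^ 8 * ∫ θ in φ..(φ + n / U), V θ
    rcases lt_or_ge k K with hkK | hkK
    · obtain ⟨r1, r2, r3⟩ := hr k hkK
      have hd := hk hkK
      have hmain : ∀ n ≤ N, (T.J k n : ℝ) ≤ 10 ^ 8 * ∫ θ in φ..(φ + n / U), V θ := by
        intro n
        induction n with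
        | zero =>
          intro _
          rw [r1]
          simp
        | succ n ih =>
          intro hn
          have ih' := ih (by omega)
          obtain ⟨c1, c2, -⟩ := r3 n (by omega)
          have h5 := cell_of h (n := n) hU' hKu' hp hd (htan _ c1) (hcos n (by omega)) c2
          have h6 := intervalIntegral.integral_add_adjacent_intervals
            (h.intervalIntegrable φ (φ + n / U))
            (h.intervalIntegrable (φ + n / U) (φ + (n + 1 : ℕ) / U))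
          rw [← h6]
          linarith
      rcases le_total n N with hn | hn
      · exact hmain n hn
      · rw [hJbig k n hn]
        have h5 := intervalIntegral.integral_add_adjacent_intervals
            (h.intervalIntegrable φ (φ + N / U))
            (h.intervalIntegrable (φ + N / U) (φ + n / U))
        have h6 : 0 ≤ ∫ θ in (φ + N / U)..(φ + n / U), V θ := by
          apply h.int_nonneg
          have h7 : (N : ℝ) ≤ n := by exact_mod_cast hn
          have h8 : (N : ℝ) / U ≤ n / U := div_le_div_of_nonneg_right h7 hUr.le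
          linarith
        have h7 := hmain N le_rfl
        rw [← h5]
        linarith
    · rw [hJK k n hkK]
      have h6 : 0 ≤ ∫ θ in φ..(φ + n / U), V θ := by
        apply h.int_nonneg
        have : 0 ≤ (n : ℝ) / U := by positivity
        linarith
      push_cast
      positivity
  · intro k n
    show T.J k N + T.J 0 n ≤ T.J 0 N + T.J k n
    rcases le_or_gt N n with hn | hn
    · rw [hJbig k n hn, hJbig 0 n hn]
      omega
    · rcases lt_or_ge k K with hkK | hkK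
      · exact ((hr k hkK).2.2 n hn).2.2
      · rw [hJK k N hkK, hJK k n hkK]
        have := Nat.le_of_ble_eq_true (hJ0 n hn)
        simp only [hT, mkTab] at this ⊢
        omega

/-! ### the steps -/

def clsB (M2 D4 t4 C : ℕ) : Bool :=
  Nat.blt (M2 * 10 ^ 12 + 2 * D4 * t4 * C) ((D4 + t4) ^ 2 * 10 ^ 8)

/-- the test of the cell `n` in the step `g`: the entry `e` contains `k, s, t` -/
def nB (T : Tab) (TU g t4 n k s t : ℕ) : Bool :=
  (Nat.ble T.K k || clsB T.M2 (T.D k) t4 (get 32 TU (g - 2 * (n + 1)))) &&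
  (Nat.ble s n &&
  cond (Nat.beq t 255)
    (Nat.ble (2 * T.N) (g - 1 - n) &&
      Nat.ble (T.J 0 T.N + T.G g) (T.J 0 s + T.J k (n - s) + T.J k T.N + T.G (g - 1 - n)))
    (Nat.ble t (g - 1 - n) &&
      Nat.ble (2 * T.J 0 T.N + T.G g)
        (T.J 0 s + T.J k (n - s) + (T.J 0 t + T.J k (g - 1 - n - t)))))

def stepB (T : Tab) (TU g t4 nd row : ℕ) : Bool :=
  (Nat.ble 1 nd && (Nat.ble (2 * nd) g && (Nat.ble t4 10000 &&
    clsB T.M2 10000 t4 (get 32 TU (g - 2 * nd))))) &&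
  allB (fun i => nB T TU g t4 (nd + i) (get 8 row (3 * i)) (get 8 row (3 * i + 1))
    (get 8 row (3 * i + 2))) (g / 2 + 1 - nd)

theorem step_of {T : Tab} {TU g t4 nd row : ℕ} (h : stepB T TU g t4 nd row = true) :
    StepOK T (fun o => get 32 TU o) g t4 nd (fun n => get 8 row (3 * (n - nd)))
      (fun n => get 8 row (3 * (n - nd) + 1)) (fun n => get 8 row (3 * (n - nd) + 2))
      (fun n => Nat.beq (get 8 row (3 * (n - nd) + 2)) 255) := by
  unfold stepB at h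
  rw [Bool.and_eq_true, Bool.and_eq_true, Bool.and_eq_true, Bool.and_eq_true, allB_iff] at h
  obtain ⟨⟨h1, h2, h3, h4⟩, h5⟩ := h
  have h1 := Nat.le_of_ble_eq_true h1
  have h2 := Nat.le_of_ble_eq_true h2
  have h3 := Nat.le_of_ble_eq_true h3
  have hc : ∀ {M2 D4 t4 C : ℕ}, clsB M2 D4 t4 C = true → Cls M2 D4 t4 C := by
    intro M2 D4 t4 C h
    unfold clsB at h
    unfold Cls
    simpa [Nat.blt_eq] using h
  have key : ∀ n, nd ≤ n → 2 * n ≤ g → nB T TU g t4 n (get 8 row (3 * (n - nd)))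
      (get 8 row (3 * (n - nd) + 1)) (get 8 row (3 * (n - nd) + 2)) = true := by
    intro n hn1 hn2
    have h6 := h5 (n - nd) (by omega)
    have h7 : nd + (n - nd) = n := by omega
    rwa [h7] at h6
  refine ⟨h1, h2, h3, hc h4, ?_, ?_, ?_, ?_⟩
  · intro n hn1 hn2 hk
    have h6 := key n hn1 hn2
    unfold nB at h6
    rw [Bool.and_eq_true, Bool.or_eq_true] at h6
    rcases h6.1 with h7 | h7
    · have := Nat.le_of_ble_eq_true h7
      omega
    · exact hc h7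
  · intro n hn1 hn2
    have h6 := key n hn1 hn2
    unfold nB at h6
    rw [Bool.and_eq_true, Bool.and_eq_true] at h6
    exact Nat.le_of_ble_eq_true h6.2.1
  · intro n hn1 hn2 hcn
    have h6 := key n hn1 hn2
    unfold nB at h6
    rw [Bool.and_eq_true, Bool.and_eq_true] at h6
    have h7 := h6.2.2
    have hcn' : Nat.beq (get 8 row (3 * (n - nd) + 2)) 255 = true := hcn
    rw [hcn', cond_true, Bool.and_eq_true] at h7
    exact ⟨Nat.le_of_ble_eq_true h7.1, Nat.le_of_ble_eq_true h7.2⟩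
  · intro n hn1 hn2 hcn
    have h6 := key n hn1 hn2
    unfold nB at h6
    rw [Bool.and_eq_true, Bool.and_eq_true] at h6
    have h7 := h6.2.2
    have hcn' : Nat.beq (get 8 row (3 * (n - nd) + 2)) 255 = false := hcn
    rw [hcn', cond_false, Bool.and_eq_true] at h7
    exact ⟨Nat.le_of_ble_eq_true h7.1, Nat.le_of_ble_eq_true h7.2⟩

/-- all steps; `w` is the width of a row -/
def stepsB (T : Tab) (TU Tt Tn TR w gmax : ℕ) : Bool :=
  allB (fun i => Nat.beq (T.G (2 * T.N + i)) 0 ||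
    stepB T TU (2 * T.N + i) (get 16 Tt i) (get 8 Tn i) (get w TR i)) (gmax + 1 - 2 * T.N)

theorem claims_of {T : Tab} {m : ℝ} (hm : 0 ≤ m) (hT : T.Good m) {TU Tt Tn TR w gmax : ℕ}
    (h1 : allB (fun o => cosUB (2 * T.U) o (get 32 TU o)) (gmax + 1) = true)
    (h2 : allB (fun g => Nat.ble (T.G g) (T.G (g + 1))) gmax = true)
    (h3 : stepsB T TU Tt Tn TR w gmax = true) :
    ∀ g, 2 * T.N ≤ g → g ≤ gmax → Claim T m g := by
  refine claim_all hm hT (C := fun o => get 32 TU o) ?_ ?_ ?_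
  · intro o ho
    have h4 := cosUB_of (by have := hT.U_pos; omega) (allB_iff.1 h1 o (by omega))
    push_cast at h4
    exact h4
  · intro g hg
    exact Nat.le_of_ble_eq_true (allB_iff.1 h2 g hg)
  · intro g hg1 hg2
    have h4 := allB_iff.1 h3 (g - 2 * T.N) (by omega)
    have h5 : 2 * T.N + (g - 2 * T.N) = g := by omega
    rw [h5, Bool.or_eq_true] at h4
    rcases h4 with h6 | h6
    · left
      exact Nat.eq_of_beq_eq_true h6
    · right
      exact ⟨_, _, _, _, _, _, step_of h6⟩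

end Pool.Agent.Helper54.LN
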