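import Pool.Agent.Helper12.LC.Ahlfors
import Pool.Agent.Helper98.LC.Reduction

/-!
# Project LN (MP_599705_an): the obstacle form of Ahlfors' inequality and the reduction
-/

set_option autoImplicit false

namespace Pool.Agent.Helper54.LN

open Complex Metric Set Filter Topology
open Pool.Agent.Helper91.LC

/-- the inequality for functions analytic in a bigger disc, `K > 1` -/
theorem obst_key {G : ℂ → ℂ} {R : ℝ} (hR : 1 < R) (hG : DifferentiableOn ℂ G (ball 0 R))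
    (hbd : ∀ z ∈ closedBall (0 : ℂ) 1, ‖deriv G z‖ * (1 - ‖z‖ ^ 2) ≤ 2) {p : ℂ}
    (hdis : ∀ z ∈ ball (0 : ℂ) R, G z ≠ p) {K : ℝ} (hK : 1 < K) {z : ℂ}
    (hz : z ∈ ball (0 : ℂ) 1) :
    ‖deriv G z‖ * (1 - ‖z‖ ^ 2) ≤
      2 * min ‖G z - p‖ 1 * (K - Real.log (min ‖G z - p‖ 1)) := by
  have hsub : closedBall (0 : ℂ) 1 ⊆ ball 0 R := closedBall_subset_ball hR
  have hδpos : ∀ z ∈ closedBall (0 : ℂ) 1, 0 < min ‖G z - p‖ 1 := fun z hz =>
    lt_min (norm_pos_iff.2 (sub_ne_zero.2 (hdis z (hsub hz)))) one_pos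
  have hlog : ∀ z ∈ closedBall (0 : ℂ) 1, Real.log (min ‖G z - p‖ 1) ≤ 0 := fun z hz =>
    Real.log_nonpos (hδpos z hz).le (min_le_right _ _)
  set B : ℂ → ℝ := fun z => 2 * min ‖G z - p‖ 1 * (K - Real.log (min ‖G z - p‖ 1)) with hB
  have hBpos : ∀ z ∈ closedBall (0 : ℂ) 1, 0 < B z := by
    intro z hz
    simp only [hB]
    have h1 := hδpos z hz
    have h2 := hlog z hz
    have h3 : 0 < K - Real.log (min ‖G z - p‖ 1) := by linarith
    positivity
  have hGc : ContinuousOn G (closedBall 0 1) := hG.continuousOn.mono hsub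
  have hG'c : ContinuousOn (deriv G) (closedBall 0 1) :=
    (hG.deriv isOpen_ball).continuousOn.mono hsub
  have hδc : ContinuousOn (fun z => min ‖G z - p‖ 1) (closedBall 0 1) :=
    ((hGc.sub continuousOn_const).norm).inf continuousOn_const
  have hBc : ContinuousOn B (closedBall 0 1) := by
    simp only [hB]
    exact (continuousOn_const.mul hδc).mul (continuousOn_const.sub
      (hδc.log fun z hz => (hδpos z hz).ne'))
  have huc : ContinuousOn (fun z => ‖deriv G z‖ * (1 - ‖z‖ ^ 2) / B z) (closedBall 0 1) := by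
    refine ContinuousOn.div ?_ hBc fun z hz => (hBpos z hz).ne'
    exact hG'c.norm.mul (by fun_prop)
  obtain ⟨z1, hz1, hmax⟩ := (isCompact_closedBall (0 : ℂ) 1).exists_isMaxOn
    ⟨0, by simp⟩ huc
  set m : ℝ := ‖deriv G z1‖ * (1 - ‖z1‖ ^ 2) / B z1 with hm
  have hle : ∀ z ∈ closedBall (0 : ℂ) 1, ‖deriv G z‖ * (1 - ‖z‖ ^ 2) ≤ m * B z := by
    intro z hz
    have h1 : ‖deriv G z‖ * (1 - ‖z‖ ^ 2) / B z ≤ m := hmax hz
    rwa [div_le_iff₀ (hBpos z hz)] at h1
  rcases le_or_gt m 1 with h1 | h1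
  · have h2 := hle z (ball_subset_closedBall hz)
    have h3 := hBpos z (ball_subset_closedBall hz)
    calc ‖deriv G z‖ * (1 - ‖z‖ ^ 2) ≤ m * B z := h2
      _ ≤ 1 * B z := mul_le_mul_of_nonneg_right h1 h3.le
      _ = B z := one_mul _
  · exfalso
    have hz1' : ‖z1‖ < 1 := by
      have h2 : ‖z1‖ ≤ 1 := by simpa using hz1
      rcases lt_or_eq_of_le h2 with h3 | h3
      · exact h3
      · rw [hm, h3] at h1
        norm_num at h1
    -- the maximum is attained close to the puncture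
    have hlt1 : ‖G z1 - p‖ < 1 := by
      by_contra hcon
      push Not at hcon
      have h2 : B z1 = 2 * K := by
        simp only [hB]
        rw [min_eq_right hcon, Real.log_one, mul_one, sub_zero]
      have h3 : m ≤ 1 := by
        rw [hm, h2, div_le_one (by linarith)]
        linarith [hbd z1 hz1]
      linarith
    have hnb : ball (0 : ℂ) 1 ∈ 𝓝 z1 := isOpen_ball.mem_nhds (by simpa using hz1')
    have hGat : ∀ᶠ z in 𝓝 z1, DifferentiableAt ℂ G z := by
      filter_upwards [hnb] with z hz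
      exact hG.differentiableAt (isOpen_ball.mem_nhds (hsub (ball_subset_closedBall hz)))
    have hc : ContinuousAt (fun z => ‖G z - p‖) z1 :=
      (hGat.self_of_nhds.continuousAt.sub continuousAt_const).norm
    have hp0 : 0 < ‖G z1 - p‖ := norm_pos_iff.2 (sub_ne_zero.2 (hdis z1 (hsub hz1)))
    refine Pool.Agent.Helper12.LC.no_max (p := p) (K := K) (m := m) hz1' hGat ?_ h1 ?_ ?_ ?_
    · exact hdis z1 (hsub hz1)
    · have := Real.log_neg hp0 hlt1
      linarith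
    · filter_upwards [hnb, Filter.Tendsto.eventually_lt_const hlt1 hc] with z hz h3
      have hzc := ball_subset_closedBall hz
      have h4 := hle z hzc
      simp only [hB] at h4
      rw [min_eq_left h3.le] at h4
      exact h4
    · have h4 : B z1 = 2 * ‖G z1 - p‖ * (K - Real.log ‖G z1 - p‖) := by
        simp only [hB]
        rw [min_eq_left hlt1.le]
      rw [← h4, hm, div_mul_cancel₀ _ (hBpos z1 hz1).ne']

/-- Ahlfors' inequality in obstacle form: one omitted value. -/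
theorem obst {F : ℂ → ℂ} (hF : Good F) {p : ℂ} (hp : ∀ z ∈ ball (0 : ℂ) 1, 2 * F z ≠ p) {z : ℂ}
    (hz : z ∈ ball (0 : ℂ) 1) :
    ‖deriv F z‖ * (1 - ‖z‖ ^ 2) ≤
      min ‖2 * F z - p‖ 1 * (1 - Real.log (min ‖2 * F z - p‖ 1)) := by
  have hz' : ‖z‖ < 1 := by simpa using hz
  have hFd : DifferentiableOn ℂ F (ball 0 1) := hF.diff
  -- the inequality for `2 F (s z)`, `s < 1`
  have hs : ∀ s : ℝ, 0 < s → s < 1 → s * ‖deriv F (s * z)‖ * (1 - ‖z‖ ^ 2) ≤
      min ‖2 * F (s * z) - p‖ 1 * (1 - Real.log (min ‖2 * F (s * z) - p‖ 1)) := by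
    intro s hs0 hs1
    have hR : 1 < 1 / s := by rw [lt_div_iff₀ hs0]; linarith
    have hmaps : ∀ w ∈ ball (0 : ℂ) (1 / s), (s : ℂ) * w ∈ ball (0 : ℂ) 1 := by
      intro w hw
      rw [mem_ball_zero_iff] at hw ⊢
      rw [norm_mul, Complex.norm_real, Real.norm_of_nonneg hs0.le]
      rw [lt_div_iff₀ hs0] at hw
      linarith
    have hG : DifferentiableOn ℂ (fun w => 2 * F (s * w)) (ball 0 (1 / s)) :=
      (hFd.comp (by fun_prop) hmaps).const_mul 2
    have hd : ∀ w ∈ ball (0 : ℂ) (1 / s), deriv (fun w => 2 * F (s * w)) w =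
        2 * (s * deriv F (s * w)) := by
      intro w hw
      have h1 : DifferentiableAt ℂ F (s * w) :=
        hFd.differentiableAt (isOpen_ball.mem_nhds (hmaps w hw))
      have h2 := h1.hasDerivAt.comp w ((hasDerivAt_id w).const_mul (s : ℂ))
      rw [mul_one, mul_comm] at h2
      exact (h2.const_mul 2).deriv
    have hbd : ∀ w ∈ closedBall (0 : ℂ) 1,
        ‖deriv (fun w => 2 * F (s * w)) w‖ * (1 - ‖w‖ ^ 2) ≤ 2 := by
      intro w hw
      have hw1 : ‖w‖ ≤ 1 := by simpa using hw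
      have hwb : w ∈ ball (0 : ℂ) (1 / s) := by
        rw [mem_ball_zero_iff]; linarith
      rw [hd w hwb, norm_mul, norm_mul, Complex.norm_real, Real.norm_of_nonneg hs0.le,
        Complex.norm_ofNat]
      have h1 := hF.bd _ (hmaps w hwb)
      have h2 : ‖(s : ℂ) * w‖ = s * ‖w‖ := by
        rw [norm_mul, Complex.norm_real, Real.norm_of_nonneg hs0.le]
      rw [h2] at h1
      have h3 : 1 - ‖w‖ ^ 2 ≤ 1 - (s * ‖w‖) ^ 2 := by
        have : s * ‖w‖ ≤ ‖w‖ := by nlinarith [norm_nonneg w]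
        have h0 : 0 ≤ s * ‖w‖ := by positivity
        nlinarith
      have h4 : 0 ≤ 1 - ‖w‖ ^ 2 := by nlinarith [norm_nonneg w]
      calc 2 * (s * ‖deriv F (↑s * w)‖) * (1 - ‖w‖ ^ 2)
          = 2 * s * (‖deriv F (↑s * w)‖ * (1 - ‖w‖ ^ 2)) := by ring
        _ ≤ 2 * s * (‖deriv F (↑s * w)‖ * (1 - (s * ‖w‖) ^ 2)) := by gcongr
        _ ≤ 2 * s * 1 := by gcongr
        _ ≤ 2 := by linarith
    have hzb : z ∈ ball (0 : ℂ) (1 / s) := by rw [mem_ball_zero_iff]; linarith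
    have h3 : ∀ K : ℝ, 1 < K → 2 * (s * ‖deriv F (s * z)‖ * (1 - ‖z‖ ^ 2)) ≤
        2 * min ‖2 * F (s * z) - p‖ 1 * (K - Real.log (min ‖2 * F (s * z) - p‖ 1)) := by
      intro K hK
      have h4 := obst_key hR hG hbd (fun w hw => hp _ (hmaps w hw)) hK hz
      rw [hd z hzb, norm_mul, norm_mul, Complex.norm_real, Real.norm_of_nonneg hs0.le,
        Complex.norm_ofNat] at h4
      calc 2 * (s * ‖deriv F (s * z)‖ * (1 - ‖z‖ ^ 2)) =
          2 * (s * ‖deriv F (s * z)‖) * (1 - ‖z‖ ^ 2) := by ring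
        _ ≤ _ := h4
    refine le_of_forall_pos_le_add fun ε hε => ?_
    have h4 := h3 (1 + ε) (by linarith)
    have h5 : min ‖2 * F (s * z) - p‖ 1 ≤ 1 := min_le_right _ _
    have h6 : 0 ≤ min ‖2 * F (s * z) - p‖ 1 := le_min (norm_nonneg _) zero_le_one
    nlinarith
  -- the limit `s → 1`
  have hcont : ContinuousAt (fun s : ℝ => (s : ℂ) * z) 1 := by fun_prop
  have h1z : ((1 : ℝ) : ℂ) * z = z := by rw [Complex.ofReal_one, one_mul]
  have hFdz : DifferentiableAt ℂ F z := hFd.differentiableAt (isOpen_ball.mem_nhds hz)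
  have hF'd : DifferentiableAt ℂ (deriv F) z :=
    (hFd.deriv isOpen_ball).differentiableAt (isOpen_ball.mem_nhds hz)
  have c1 : Tendsto (fun s : ℝ => F (s * z)) (𝓝 1) (𝓝 (F z)) := by
    have h2 : ContinuousAt F (((1 : ℝ) : ℂ) * z) := by rw [h1z]; exact hFdz.continuousAt
    have h3 : ContinuousAt (fun s : ℝ => F ((s : ℂ) * z)) 1 :=
      ContinuousAt.comp (f := fun s : ℝ => (s : ℂ) * z) h2 hcont
    have h4 := h3.tendsto
    rw [h1z] at h4
    exact h4
  have c2 : Tendsto (fun s : ℝ => deriv F (s * z)) (𝓝 1) (𝓝 (deriv F z)) := by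
    have h2 : ContinuousAt (deriv F) (((1 : ℝ) : ℂ) * z) := by rw [h1z]; exact hF'd.continuousAt
    have h3 : ContinuousAt (fun s : ℝ => deriv F ((s : ℂ) * z)) 1 :=
      ContinuousAt.comp (f := fun s : ℝ => (s : ℂ) * z) h2 hcont
    have h4 := h3.tendsto
    rw [h1z] at h4
    exact h4
  have hδ : 0 < min ‖2 * F z - p‖ 1 :=
    lt_min (norm_pos_iff.2 (sub_ne_zero.2 (hp z hz))) one_pos
  have c3 : Tendsto (fun s : ℝ => min ‖2 * F (s * z) - p‖ 1) (𝓝 1)
      (𝓝 (min ‖2 * F z - p‖ 1)) :=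
    (((c1.const_mul 2).sub_const p).norm).min tendsto_const_nhds
  have c4 : Tendsto (fun s : ℝ => s * ‖deriv F (s * z)‖ * (1 - ‖z‖ ^ 2)) (𝓝 1)
      (𝓝 (1 * ‖deriv F z‖ * (1 - ‖z‖ ^ 2))) :=
    (tendsto_id.mul c2.norm).mul_const _
  have c5 : Tendsto (fun s : ℝ => min ‖2 * F (s * z) - p‖ 1 *
      (1 - Real.log (min ‖2 * F (s * z) - p‖ 1))) (𝓝 1)
      (𝓝 (min ‖2 * F z - p‖ 1 * (1 - Real.log (min ‖2 * F z - p‖ 1)))) :=
    c3.mul ((c3.log hδ.ne').const_sub 1)
  have h6 : ∀ᶠ s : ℝ in 𝓝[<] 1, s * ‖deriv F (s * z)‖ * (1 - ‖z‖ ^ 2) ≤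
      min ‖2 * F (s * z) - p‖ 1 * (1 - Real.log (min ‖2 * F (s * z) - p‖ 1)) := by
    filter_upwards [Ioo_mem_nhdsLT (show (0 : ℝ) < 1 by norm_num)] with s hs'
    exact hs s hs'.1 hs'.2
  have h7 := le_of_tendsto_of_tendsto (c4.mono_left nhdsWithin_le_nhds)
    (c5.mono_left nhdsWithin_le_nhds) h6
  rwa [one_mul] at h7

/-- omitted values have modulus at least 1 -/
theorem one_le_norm {F : ℂ → ℂ} (hF : Good F) {p : ℂ}
    (hp : ∀ z ∈ ball (0 : ℂ) 1, 2 * F z ≠ p) : 1 ≤ ‖p‖ := by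
  have h0 : (0 : ℂ) ∈ ball (0 : ℂ) 1 := by simp
  have h := obst hF hp h0
  rw [hF.one, hF.zero, norm_one, norm_zero, mul_zero, zero_sub, norm_neg] at h
  by_contra hcon
  push Not at hcon
  rw [min_eq_left hcon.le] at h
  have hp0 : 0 < ‖p‖ := by
    rw [norm_pos_iff]
    rintro rfl
    exact hp 0 h0 (by rw [hF.zero, mul_zero])
  have h1 : Real.log (1 / ‖p‖) < 1 / ‖p‖ - 1 := by
    refine Real.log_lt_sub_one_of_pos (by positivity) ?_
    rw [ne_eq, div_eq_one_iff_eq hp0.ne']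
    exact hcon.ne'
  rw [Real.log_div one_ne_zero hp0.ne', Real.log_one, zero_sub] at h1
  have h2 : ‖p‖ * (1 - Real.log ‖p‖) < ‖p‖ * (1 / ‖p‖) :=
    mul_lt_mul_of_pos_left (by linarith) hp0
  rw [mul_one_div_cancel hp0.ne'] at h2
  norm_num at h
  linarith

end Pool.Agent.Helper54.LN
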