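import Pool.Agent.Helper54.LN.Num042
import Pool.Agent.Helper54.LN.Cfg
import Pool.Agent.Helper54.LN.Obst

/-!
# Project LN (MP_599705_an): the potential on the circle is a configuration
-/

set_option autoImplicit false

namespace Pool.Agent.Helper54.LN

open Complex Metric Set MeasureTheory
open Pool.Agent.Helper91.LC

/-- the potential on the circle of radius `0.42` -/
noncomputable def pot (F f : ℂ → ℂ) (θ : ℝ) : ℝ := P F (f ((0.42 : ℂ) * exp (θ * I)))

theorem norm_042 (θ : ℝ) : ‖(0.42 : ℂ) * exp (θ * I)‖ = 0.42 := by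
  rw [norm_mul, Complex.norm_exp_ofReal_mul_I, mul_one]
  norm_num

theorem pot_cont {F f : ℂ → ℂ} (hG : Good F) (hI : Inv F f) : Continuous (pot F f) := by
  obtain ⟨h, hd, h0, h1, h2, hexp⟩ := Spec.exists_log hG hI
  have hball : ∀ θ : ℝ, (0.42 : ℂ) * exp (θ * I) ∈ ball (0 : ℂ) (√3 / 4) := fun θ =>
    ball_042 (norm_042 θ)
  have hc : Continuous fun θ : ℝ => (0.42 : ℂ) * exp (θ * I) := by fun_prop
  have hfc : Continuous fun θ : ℝ => f ((0.42 : ℂ) * exp (θ * I)) :=
    hI.diff.continuousOn.comp_continuous hc hball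
  have hhc : Continuous fun θ : ℝ => h ((0.42 : ℂ) * exp (θ * I)) :=
    hd.continuousOn.comp_continuous hc hball
  have hV : pot F f = fun θ : ℝ => (h ((0.42 : ℂ) * exp (θ * I))).re -
      Real.log (1 - ‖f ((0.42 : ℂ) * exp (θ * I))‖ ^ 2) := by
    funext θ
    unfold pot
    rw [Spec.P_eq hG hI (hball θ), ← hexp _ (hball θ), Complex.norm_exp, Real.log_exp]
  rw [hV]
  refine (Complex.continuous_re.comp hhc).sub (Continuous.log ?_ ?_)
  · exact continuous_const.sub (hfc.norm.pow 2)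
  · intro θ
    have h4 := f_mem hI (hball θ)
    rw [mem_ball_zero_iff] at h4
    have h5 := norm_nonneg (f ((0.42 : ℂ) * exp (θ * I)))
    have : 0 < 1 - ‖f ((0.42 : ℂ) * exp (θ * I))‖ ^ 2 := by nlinarith
    exact this.ne'

theorem pot_low {F f : ℂ → ℂ} (hG : Good F) (hI : Inv F f) {p : ℂ}
    (hp : ∀ z ∈ ball (0 : ℂ) 1, 2 * F z ≠ p) (θ : ℝ) :
    psiS (‖(0.84 : ℂ) * exp (θ * I) - p‖ ^ 2) ≤ pot F f θ := by
  have hball : (0.42 : ℂ) * exp (θ * I) ∈ ball (0 : ℂ) (√3 / 4) := ball_042 (norm_042 θ)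
  set v : ℂ := (0.42 : ℂ) * exp (θ * I) with hv
  have hz := f_mem hI hball
  have hFz := hI.eq v hball
  have ho := obst hG hp hz
  have hne := hp _ hz
  rw [hFz] at ho hne
  have h2v : (2 : ℂ) * v = 0.84 * exp (θ * I) := by rw [hv]; ring
  rw [h2v] at ho hne
  set s : ℝ := ‖(0.84 : ℂ) * exp (θ * I) - p‖ with hs
  have hs0 : 0 < s := norm_pos_iff.2 (sub_ne_zero.2 hne)
  have hdne : deriv F (f v) ≠ 0 := by
    intro h0
    have h := Spec.deriv_mul hG hI hball
    rw [h0, zero_mul] at h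
    exact zero_ne_one h
  have hz1 : ‖f v‖ < 1 := by rwa [mem_ball_zero_iff] at hz
  have hpos : 0 < ‖deriv F (f v)‖ * (1 - ‖f v‖ ^ 2) := by
    apply mul_pos (norm_pos_iff.2 hdne)
    have := norm_nonneg (f v)
    nlinarith
  have hlog := Real.log_le_log hpos ho
  show psiS (s ^ 2) ≤ - Real.log (‖deriv F (f v)‖ * (1 - ‖f v‖ ^ 2))
  rcases lt_or_ge s 1 with h1 | h1
  · rw [min_eq_left h1.le] at hlog
    have hls : Real.log s < 0 := Real.log_neg hs0 h1
    rw [Real.log_mul hs0.ne' (by linarith)] at hlog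
    have hs2 : s ^ 2 < 1 := by nlinarith
    rw [Pool.Agent.Helper91.LC.R54Lower.psiS_of_lt hs2, Real.log_pow]
    push_cast
    have e1 : - (2 * Real.log s) / 2 = - Real.log s := by ring
    have e2 : 1 + - Real.log s = 1 - Real.log s := by ring
    rw [e1, e2]
    linarith
  · rw [min_eq_right h1] at hlog
    simp only [Real.log_one, sub_zero, mul_one] at hlog
    have hs2 : 1 ≤ s ^ 2 := by nlinarith
    rw [Pool.Agent.Helper91.LC.R54Lower.psiS_of_ge hs2]
    linarith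

theorem pot_cfg {F f : ℂ → ℂ} {E : Set ℂ} {m : ℝ} (hG : Good F) (hI : Inv F f)
    (hcov : ∀ w, ∃ p ∈ E, ‖w - p‖ ≤ m) (hdis : ∀ z ∈ ball (0 : ℂ) 1, 2 * F z ∉ E) :
    Cfg (pot F f) E m where
  cont := pot_cont hG hI
  low := fun p hp θ => pot_low hG hI (fun z hz h => hdis z hz (h ▸ hp)) θ
  norm := fun p hp => one_le_norm hG (fun z hz h => hdis z hz (h ▸ hp))
  cov := hcov

theorem pot_per (F f : ℂ → ℂ) : Function.Periodic (pot F f) (2 * Real.pi) := by
  intro θ
  unfold pot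
  have h1 : exp (((θ + 2 * Real.pi : ℝ) : ℂ) * I) = exp (θ * I) := by
    push_cast
    rw [add_mul, Complex.exp_add, Complex.exp_two_pi_mul_I, mul_one]
  rw [h1]

theorem pot_int {F f : ℂ → ℂ} (hG : Good F) (hI : Inv F f) :
    ∫ θ in (0 : ℝ)..(2 * Real.pi), pot F f θ ≤ 2 * Real.pi * 0.2005 := by
  have h := mean_042_one hG hI
  rw [Real.circleAverage_def, smul_eq_mul] at h
  have h1 : ∀ θ : ℝ, P F (f (circleMap 0 0.42 θ)) = pot F f θ := by
    intro θ
    unfold pot
    congr 2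
    rw [circleMap, zero_add]
    norm_num
  simp only [h1] at h
  have hpi := Real.pi_pos
  rw [inv_mul_le_iff₀ (by positivity)] at h
  exact h

end Pool.Agent.Helper54.LN
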