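import Mathlib

/-! Project LN (MP_599705_an), piece LN-Root2: three points of a compact set with angular
gaps at most `π`. -/

set_option autoImplicit false

namespace Pool.Agent.Helper54.LN

open Complex Metric Set

private theorem root2_norm (d φ : ℝ) (hd : 1 ≤ d) : ‖(d : ℂ) * exp (φ * I)‖ = d := by
  rw [norm_mul, Complex.norm_exp_ofReal_mul_I, mul_one, Complex.norm_real, Real.norm_eq_abs,
    abs_of_nonneg (by linarith)]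

private theorem root2_compact {N : Set ℂ} (hN : IsCompact N) (a b : ℝ) :
    IsCompact {φ : ℝ | φ ∈ Icc a b ∧ ∃ d : ℝ, 1 ≤ d ∧ (d : ℂ) * exp (φ * I) ∈ N} := by
  obtain ⟨R, hR⟩ := hN.isBounded.exists_norm_le
  have hK : IsCompact ((Icc a b ×ˢ Icc 1 R) ∩
      (fun x : ℝ × ℝ => ((x.2 : ℂ) * exp (x.1 * I))) ⁻¹' N) := by
    have hc : Continuous fun x : ℝ × ℝ => ((x.2 : ℂ) * exp (x.1 * I)) := by fun_prop
    exact (isCompact_Icc.prod isCompact_Icc).inter_right (hN.isClosed.preimage hc)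
  have him := hK.image continuous_fst
  convert him using 1
  ext φ
  simp only [mem_ofPred_eq, mem_image, mem_inter_iff, mem_prod, mem_preimage, Prod.exists]
  constructor
  · rintro ⟨hφ, d, hd, hdN⟩
    refine ⟨φ, d, ⟨⟨hφ, hd, ?_⟩, hdN⟩, rfl⟩
    have := hR _ hdN
    rwa [root2_norm d φ hd] at this
  · rintro ⟨x, d, ⟨⟨hx, hd, -⟩, hdN⟩, rfl⟩
    exact ⟨hx, d, hd, hdN⟩

private theorem root2_point {N : Set ℂ} (hn : ∀ p ∈ N, 1 ≤ ‖p‖)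
    (hdir : ∀ v : ℂ, ∃ p ∈ N, 0 ≤ (p * (starRingEnd ℂ) v).re) (t : ℝ) :
    ∃ θ ∈ Icc t (t + Real.pi), ∃ d : ℝ, 1 ≤ d ∧ (d : ℂ) * exp (θ * I) ∈ N := by
  obtain ⟨p, hp, hre⟩ := hdir (exp ((t + Real.pi / 2 : ℝ) * I))
  obtain ⟨n, hn1, -⟩ := existsUnique_add_zsmul_mem_Ico Real.two_pi_pos (arg p) t
  simp only [zsmul_eq_mul] at hn1
  set θ : ℝ := arg p + n * (2 * Real.pi) with hθ
  have hexp : exp (θ * I) = exp (arg p * I) := by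
    rw [hθ]
    push_cast
    rw [add_mul, exp_add]
    have : exp (n * (2 * Real.pi) * I) = 1 := by
      rw [mul_assoc]
      exact Complex.exp_int_mul_two_pi_mul_I n
    rw [this, mul_one]
  have hpθ : (‖p‖ : ℂ) * exp (θ * I) = p := by
    rw [hexp]; exact norm_mul_exp_arg_mul_I p
  have hpos : 0 < ‖p‖ := by linarith [hn p hp]
  have hcos : 0 ≤ Real.cos (θ - (t + Real.pi / 2)) := by
    have h1 : (p * (starRingEnd ℂ) (exp ((t + Real.pi / 2 : ℝ) * I))).re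
        = ‖p‖ * Real.cos (θ - (t + Real.pi / 2)) := by
      rw [← hpθ, ← exp_conj, map_mul, conj_I, conj_ofReal, mul_assoc, ← exp_add,
        show (θ : ℂ) * I + ((t + Real.pi / 2 : ℝ) : ℂ) * -I
          = ((θ - (t + Real.pi / 2) : ℝ) : ℂ) * I by push_cast; ring, re_ofReal_mul,
        exp_ofReal_mul_I_re, hpθ]
    rw [h1] at hre
    exact nonneg_of_mul_nonneg_right hre hpos
  refine ⟨θ, ⟨hn1.1, ?_⟩, ‖p‖, hn p hp, by rw [hpθ]; exact hp⟩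
  by_contra hlt
  push Not at hlt
  have : Real.cos (θ - (t + Real.pi / 2)) < 0 :=
    Real.cos_neg_of_pi_div_two_lt_of_lt (by linarith) (by linarith [hn1.2])
  linarith

/-- three points of a compact set with angular gaps at most `π` -/
theorem root_angles {N : Set ℂ} (hN : IsCompact N) (hn : ∀ p ∈ N, 1 ≤ ‖p‖)
    (hdir : ∀ v : ℂ, ∃ p ∈ N, 0 ≤ (p * (starRingEnd ℂ) v).re) :
    ∃ d₁ d₂ d₃ φ₁ φ₂ φ₃ : ℝ, 1 ≤ d₁ ∧ 1 ≤ d₂ ∧ 1 ≤ d₃ ∧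
      φ₁ ≤ φ₂ ∧ φ₂ ≤ φ₁ + Real.pi ∧ φ₁ + Real.pi ≤ φ₃ ∧ φ₃ ≤ φ₂ + Real.pi ∧
      (d₁ : ℂ) * exp (φ₁ * I) ∈ N ∧ (d₂ : ℂ) * exp (φ₂ * I) ∈ N ∧
      (d₃ : ℂ) * exp (φ₃ * I) ∈ N := by
  obtain ⟨φ₁, -, d₁, hd₁, h₁⟩ := root2_point hn hdir 0
  have hpi := Real.pi_pos
  obtain ⟨φ₂, ⟨⟨h12, h21⟩, d₂, hd₂, h₂⟩, hmax⟩ :=
    (root2_compact hN φ₁ (φ₁ + Real.pi)).exists_isGreatest
      ⟨φ₁, ⟨⟨le_rfl, by linarith⟩, d₁, hd₁, h₁⟩⟩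
  have key : ∀ ε : ℝ, 0 < ε → ∃ θ ∈ Icc (φ₁ + Real.pi) (φ₂ + ε + Real.pi),
      ∃ d : ℝ, 1 ≤ d ∧ (d : ℂ) * exp (θ * I) ∈ N := by
    intro ε hε
    obtain ⟨θ, ⟨hθ1, hθ2⟩, d, hd, hdN⟩ := root2_point hn hdir (φ₂ + ε)
    refine ⟨θ, ⟨?_, hθ2⟩, d, hd, hdN⟩
    by_contra hlt
    push Not at hlt
    have := hmax ⟨⟨by linarith, hlt.le⟩, d, hd, hdN⟩
    linarith
  obtain ⟨θ₀, ⟨hθ1, hθ2⟩, d₀, hd₀, hdN₀⟩ := key 1 one_pos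
  obtain ⟨φ₃, ⟨⟨h31, -⟩, d₃, hd₃, h₃⟩, hmin⟩ :=
    (root2_compact hN (φ₁ + Real.pi) (φ₂ + 1 + Real.pi)).exists_isLeast
      ⟨θ₀, ⟨⟨hθ1, hθ2⟩, d₀, hd₀, hdN₀⟩⟩
  refine ⟨d₁, d₂, d₃, φ₁, φ₂, φ₃, hd₁, hd₂, hd₃, h12, h21, h31, ?_, h₁, h₂, h₃⟩
  refine le_of_forall_pos_le_add fun ε hε => ?_
  obtain ⟨θ, ⟨hθ1, hθ2⟩, d, hd, hdN⟩ := key (min ε 1) (lt_min hε one_pos)
  have h1 : φ₃ ≤ θ := hmin ⟨⟨hθ1, by linarith [min_le_right ε 1]⟩, d, hd, hdN⟩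
  linarith [min_le_left ε 1]

end Pool.Agent.Helper54.LN
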