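import Pool.Agent.Helper54.LN.AE
import Pool.Agent.Helper54.LN.Pot
import Pool.Agent.Helper54.LN.Red
import Pool.Agent.Helper91.LC.R.ExistsInv

/-!
# Project LN (MP_599705_an): the final assembly, second version
-/

set_option autoImplicit false

namespace Pool.Agent.Helper54.LN

open Complex Metric Set MeasureTheory
open Pool.Agent.Helper91.LC

theorem landau_0515 {f : ℂ → ℂ} (hf : DifferentiableOn ℂ f (ball 0 1)) (h1 : deriv f 0 = 1) :
    ∃ w : ℂ, ball w 0.515 ⊆ f '' ball 0 1 := by
  refine reduction (m := 1.03001) (by norm_num) (by norm_num) ?_ hf h1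
  intro F E hG hE hcov hdis
  obtain ⟨g, hI⟩ := Spec.exists_inv hG
  have h2 := A.total_gt (pot_cfg hG hI hcov hdis) hE (pot_per F g) (by norm_num)
    (by norm_num)
  have h3 := pot_int hG hI
  linarith

end Pool.Agent.Helper54.LN
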