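import Pool.Agent.Helper54.LN.Cfg

/-!
# Project LN (MP_599705_an): the gap function

Angles are measured in units `1 / U`, integrals in units `1e-8`, distances in units `1e-4`.
-/

set_option autoImplicit false

namespace Pool.Agent.Helper54.LN

open Complex Metric Set MeasureTheory
open Pool.Agent.Helper91.LC

/-- data of a table: `J k n` is a lower bound for the integral of `V` over `n` cells next to
a point of `E` at distance at most `D k` -/
structure Tab where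
  U : ℕ
  M2 : ℕ
  N : ℕ
  K : ℕ
  D : ℕ → ℕ
  J : ℕ → ℕ → ℕ
  G : ℕ → ℕ

/-- `d` belongs to the class `k` -/
def Tab.In (T : Tab) (k : ℕ) (d : ℝ) : Prop := k < T.K → d ≤ T.D k / 10 ^ 4

/-- the table is correct -/
structure Tab.Good (T : Tab) (m : ℝ) : Prop where
  U_pos : 0 < T.U
  m_sq : m ^ 2 ≤ T.M2 / 10 ^ 4
  D_ge : ∀ k < T.K, 10 ^ 4 ≤ T.D k
  bump : ∀ (V : ℝ → ℝ) (E : Set ℂ), Cfg V E m → ∀ (k n : ℕ) (d φ : ℝ), Pt E d φ → T.In k d →
    (T.J k n : ℝ) ≤ 10 ^ 8 * ∫ θ in φ..(φ + n / T.U), V θ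
  mono : ∀ k n, T.J k T.N + T.J 0 n ≤ T.J 0 T.N + T.J k n

theorem int_mirror (V : ℝ → ℝ) (a b : ℝ) :
    ∫ θ in a..b, V (-θ) = ∫ θ in (-b)..(-a), V θ := intervalIntegral.integral_comp_neg V

theorem bump_left {V : ℝ → ℝ} {E : Set ℂ} {m : ℝ} {T : Tab} (hT : T.Good m) (h : Cfg V E m)
    {k : ℕ} (n : ℕ) {d φ : ℝ} (hp : Pt E d φ) (hk : T.In k d) :
    (T.J k n : ℝ) ≤ 10 ^ 8 * ∫ θ in (φ - n / T.U)..φ, V θ := by
  have h1 := hT.bump _ _ h.mirror k n d (-φ) hp.mirror hk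
  rw [int_mirror] at h1
  have h2 : -(-φ + (n : ℝ) / T.U) = φ - n / T.U := by ring
  rw [h2, neg_neg] at h1
  exact h1

/-- the part of the integral between two points -/
theorem side_left {V : ℝ → ℝ} {E : Set ℂ} {m : ℝ} {T : Tab} (hT : T.Good m) (h : Cfg V E m)
    {ka k n s : ℕ} {da d φa φ : ℝ} (ha : Pt E da φa) (hq : Pt E d φ) (hka : T.In ka da)
    (hk : T.In k d) (hs : s ≤ n) (hn : φa + n / T.U ≤ φ) :
    (T.J ka T.N : ℝ) + T.J 0 s + T.J k (n - s) ≤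
      T.J 0 T.N + 10 ^ 8 * ∫ θ in φa..φ, V θ := by
  have hU : (0 : ℝ) < T.U := by exact_mod_cast hT.U_pos
  have h1 := hT.bump _ _ h ka s da φa ha hka
  have h2 := bump_left hT h (n - s) hq hk
  have h3 : (T.J ka T.N : ℝ) + T.J 0 s ≤ T.J 0 T.N + T.J ka s := by
    exact_mod_cast hT.mono ka s
  have h4 : ((n - s : ℕ) : ℝ) / T.U = n / T.U - s / T.U := by
    rw [Nat.cast_sub hs]
    ring
  rw [h4] at h2
  have h5 := intervalIntegral.integral_add_adjacent_intervals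
    (h.intervalIntegrable φa (φa + s / T.U))
    (h.intervalIntegrable (φa + s / T.U) (φ - (n / T.U - s / T.U)))
  have h6 := intervalIntegral.integral_add_adjacent_intervals
    (h.intervalIntegrable φa (φ - (n / T.U - s / T.U)))
    (h.intervalIntegrable (φ - (n / T.U - s / T.U)) φ)
  have h7 : 0 ≤ ∫ θ in (φa + s / T.U)..(φ - (n / T.U - s / T.U)), V θ := by
    apply h.int_nonneg
    linarith
  linarith

theorem side_right {V : ℝ → ℝ} {E : Set ℂ} {m : ℝ} {T : Tab} (hT : T.Good m) (h : Cfg V E m)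
    {kb k n s : ℕ} {db d φb φ : ℝ} (hb : Pt E db φb) (hq : Pt E d φ) (hkb : T.In kb db)
    (hk : T.In k d) (hs : s ≤ n) (hn : φ + n / T.U ≤ φb) :
    (T.J kb T.N : ℝ) + T.J 0 s + T.J k (n - s) ≤
      T.J 0 T.N + 10 ^ 8 * ∫ θ in φ..φb, V θ := by
  have h1 := side_left hT h.mirror hb.mirror hq.mirror hkb hk hs (by linarith)
  rw [int_mirror, neg_neg, neg_neg] at h1
  exact h1

/-- the test disc with centre `t * exp (ω * I)` -/
theorem offset {V : ℝ → ℝ} {E : Set ℂ} {m : ℝ} (h : Cfg V E m) (hm : 0 ≤ m) (t ω : ℝ) :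
    ∃ d o : ℝ, Pt E d (ω + o) ∧ |o| ≤ Real.pi ∧
      d ^ 2 + t ^ 2 - 2 * d * t * Real.cos o ≤ m ^ 2 := by
  obtain ⟨p, hp, hd⟩ := h.cov ((t : ℂ) * exp (ω * I))
  have hp1 := h.norm p hp
  have hp0 : p ≠ 0 := by
    rintro rfl
    rw [norm_zero] at hp1
    linarith
  set o : ℝ := arg (p * exp (((-ω : ℝ) : ℂ) * I)) with ho
  have h1 : (‖p‖ : ℂ) * exp (o * I) = p * exp (((-ω : ℝ) : ℂ) * I) := by
    have h2 := Complex.norm_mul_exp_arg_mul_I (p * exp (((-ω : ℝ) : ℂ) * I))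
    rw [norm_mul, Complex.norm_exp_ofReal_mul_I, mul_one] at h2
    exact h2
  have h3 : (‖p‖ : ℂ) * exp (((ω + o : ℝ) : ℂ) * I) = p := by
    have h4 : exp (((ω + o : ℝ) : ℂ) * I) = exp (ω * I) * exp (o * I) := by
      rw [← Complex.exp_add]
      congr 1
      push_cast
      ring
    have h5 : exp (((-ω : ℝ) : ℂ) * I) * exp (ω * I) = 1 := by
      rw [← Complex.exp_add]
      rw [show ((-ω : ℝ) : ℂ) * I + ω * I = 0 by push_cast; ring, Complex.exp_zero]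
    calc (‖p‖ : ℂ) * exp (((ω + o : ℝ) : ℂ) * I)
        = ((‖p‖ : ℂ) * exp (o * I)) * exp (ω * I) := by rw [h4]; ring
      _ = p * (exp (((-ω : ℝ) : ℂ) * I) * exp (ω * I)) := by rw [h1]; ring
      _ = p := by rw [h5, mul_one]
  refine ⟨‖p‖, o, ⟨hp1, ?_⟩, ?_, ?_⟩
  · rw [h3]
    exact hp
  · rw [abs_le]
    exact ⟨(Complex.neg_pi_lt_arg _).le, Complex.arg_le_pi _⟩
  · have h6 := dist_sq t ‖p‖ ω (ω + o)
    rw [h3] at h6
    have h7 : ω - (ω + o) = -o := by ring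
    rw [h7, Real.cos_neg] at h6
    have h8 : ‖(t : ℂ) * exp (ω * I) - p‖ ^ 2 ≤ m ^ 2 := by
      apply pow_le_pow_left₀ (norm_nonneg _) hd
    rw [h6] at h8
    linarith

/-- numerical test of the distance: `C` is an upper bound of `10 ^ 8 * (1 + cos)` -/
def Cls (M2 D4 t4 C : ℕ) : Prop :=
  M2 * 10 ^ 12 + 2 * D4 * t4 * C < (D4 + t4) ^ 2 * 10 ^ 8

theorem cls_lt {m d o θ : ℝ} {M2 D4 t4 C : ℕ} (hm : m ^ 2 ≤ M2 / 10 ^ 4) (hD : 10 ^ 4 ≤ D4)
    (ht : t4 ≤ 10 ^ 4) (hc : Cls M2 D4 t4 C) (hC : 10 ^ 8 * (1 + Real.cos θ) ≤ C)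
    (hθ : 0 ≤ θ) (hθo : θ ≤ |o|) (ho : |o| ≤ Real.pi)
    (hd : d ^ 2 + (t4 / 10 ^ 4 : ℝ) ^ 2 - 2 * d * (t4 / 10 ^ 4 : ℝ) * Real.cos o ≤ m ^ 2) :
    d < D4 / 10 ^ 4 := by
  have h1 : Real.cos o ≤ Real.cos θ := by
    rw [← Real.cos_abs o]
    exact Real.cos_le_cos_of_nonneg_of_le_pi hθ ho hθo
  by_contra hcon
  push Not at hcon
  set D : ℝ := D4 / 10 ^ 4 with hDd
  set t : ℝ := t4 / 10 ^ 4 with htd
  have hD1 : 1 ≤ D := by
    rw [hDd, le_div_iff₀ (by norm_num)]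
    have : ((10 ^ 4 : ℕ) : ℝ) ≤ D4 := by exact_mod_cast hD
    push_cast at this
    linarith
  have ht0 : 0 ≤ t := by positivity
  have ht1 : t ≤ 1 := by
    rw [htd, div_le_one (by norm_num)]
    exact_mod_cast ht
  have h2 : ((M2 * 10 ^ 12 + 2 * D4 * t4 * C : ℕ) : ℝ) < (((D4 + t4) ^ 2 * 10 ^ 8 : ℕ) : ℝ) := by
    exact_mod_cast hc
  push_cast at h2
  have hD4 : (D4 : ℝ) = D * 10 ^ 4 := by rw [hDd]; ring
  have ht4 : (t4 : ℝ) = t * 10 ^ 4 := by rw [htd]; ring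
  rw [hD4, ht4] at h2
  have h3 : 0 ≤ D * t := by positivity
  have h4 := mul_le_mul_of_nonneg_left hC h3
  have h5 : (M2 : ℝ) * 10 ^ 12 ≥ m ^ 2 * 10 ^ 16 := by
    have : m ^ 2 * 10 ^ 4 ≤ M2 := by
      rw [le_div_iff₀ (by norm_num)] at hm
      exact hm
    nlinarith
  have h6 : m ^ 2 < D ^ 2 + t ^ 2 - 2 * D * t * Real.cos θ := by
    nlinarith
  have h7 : Real.cos θ ≤ 1 := Real.cos_le_one θ
  have h8 : 0 ≤ (d - D) * (d + D - 2 * t * Real.cos θ) := by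
    apply mul_nonneg (by linarith)
    have : t * Real.cos θ ≤ 1 := by nlinarith
    linarith
  have h9 : 0 ≤ d * t * (Real.cos θ - Real.cos o) := by
    apply mul_nonneg
    · apply mul_nonneg (by linarith) ht0
    · linarith
  nlinarith

/-- the claim for the gap class `g` -/
def Claim (T : Tab) (m : ℝ) (g : ℕ) : Prop :=
  ∀ (V : ℝ → ℝ) (E : Set ℂ), Cfg V E m → ∀ (ka kb : ℕ) (da db φa φb : ℝ),
    Pt E da φa → Pt E db φb → T.In ka da → T.In kb db →
    φa + g / T.U ≤ φb → φb < φa + (g + 1) / T.U →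
    (T.J ka T.N : ℝ) + T.J kb T.N + T.G g ≤ 10 ^ 8 * ∫ θ in φa..φb, V θ

/-- disjoint bumps -/
theorem claim_base {T : Tab} {m : ℝ} (hT : T.Good m) {g : ℕ} (hg : 2 * T.N ≤ g)
    (hG : T.G g = 0) : Claim T m g := by
  intro V E h ka kb da db φa φb ha hb hka hkb h1 h2
  have hU : (0 : ℝ) < T.U := by exact_mod_cast hT.U_pos
  have h3 := hT.bump _ _ h ka T.N da φa ha hka
  have h4 := bump_left hT h T.N hb hkb
  have h5 := intervalIntegral.integral_add_adjacent_intervals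
    (h.intervalIntegrable φa (φa + T.N / T.U))
    (h.intervalIntegrable (φa + T.N / T.U) (φb - T.N / T.U))
  have h6 := intervalIntegral.integral_add_adjacent_intervals
    (h.intervalIntegrable φa (φb - T.N / T.U))
    (h.intervalIntegrable (φb - T.N / T.U) φb)
  have h8 : (2 * T.N : ℝ) ≤ g := by exact_mod_cast hg
  have h9 : (2 * T.N : ℝ) / T.U ≤ g / T.U := div_le_div_of_nonneg_right h8 hU.le
  have h10 : (2 * T.N : ℝ) / T.U = T.N / T.U + T.N / T.U := by ring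
  have h7 : 0 ≤ ∫ θ in (φa + T.N / T.U)..(φb - T.N / T.U), V θ := by
    apply h.int_nonneg
    linarith
  rw [hG]
  push_cast
  linarith

/-- the numerical certificate of the step for the gap class `g`; for the point in the cell `n`
`ck n` is the class, `cs n`, `ct n` are the numbers of cells -/
structure StepOK (T : Tab) (C : ℕ → ℕ) (g t4 nd : ℕ) (ck cs ct : ℕ → ℕ) (cn : ℕ → Bool) :
    Prop where
  nd_pos : 1 ≤ nd
  nd_le : 2 * nd ≤ g
  t_le : t4 ≤ 10 ^ 4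
  win : Cls T.M2 (10 ^ 4) t4 (C (g - 2 * nd))
  cls : ∀ n, nd ≤ n → 2 * n ≤ g → ck n < T.K → Cls T.M2 (T.D (ck n)) t4 (C (g - 2 * (n + 1)))
  s_le : ∀ n, nd ≤ n → 2 * n ≤ g → cs n ≤ n
  near : ∀ n, nd ≤ n → 2 * n ≤ g → cn n = true → 2 * T.N ≤ g - 1 - n ∧
    T.J 0 T.N + T.G g ≤ T.J 0 (cs n) + T.J (ck n) (n - cs n) + T.J (ck n) T.N + T.G (g - 1 - n)
  gen : ∀ n, nd ≤ n → 2 * n ≤ g → cn n = false → ct n ≤ g - 1 - n ∧
    2 * T.J 0 T.N + T.G g ≤ T.J 0 (cs n) + T.J (ck n) (n - cs n) +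
      (T.J 0 (ct n) + T.J (ck n) (g - 1 - n - ct n))

/-- the step, the point is in the left half -/
theorem step_half {T : Tab} {m : ℝ} (hT : T.Good m) {C : ℕ → ℕ} {g t4 nd : ℕ}
    {ck cs ct : ℕ → ℕ} {cn : ℕ → Bool} (hS : StepOK T C g t4 nd ck cs ct cn)
    (hC : ∀ o ≤ g, 10 ^ 8 * (1 + Real.cos (o / (2 * T.U))) ≤ C o)
    (hIH : ∀ g' < g, 2 * T.N ≤ g' → Claim T m g')
    (hG : ∀ g₁ g₂, g₁ ≤ g₂ → g₂ < g → T.G g₁ ≤ T.G g₂)
    {V : ℝ → ℝ} {E : Set ℂ} (h : Cfg V E m) {ka kb : ℕ} {da db d φa φb o : ℝ}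
    (ha : Pt E da φa) (hb : Pt E db φb) (hka : T.In ka da) (hkb : T.In kb db)
    (h1 : φa + g / T.U ≤ φb) (h2 : φb < φa + (g + 1) / T.U)
    (hq : Pt E d ((φa + φb) / 2 + o)) (ho0 : o ≤ 0) (ho : |o| ≤ Real.pi)
    (hd : d ^ 2 + (t4 / 10 ^ 4 : ℝ) ^ 2 - 2 * d * (t4 / 10 ^ 4 : ℝ) * Real.cos o ≤ m ^ 2) :
    (T.J ka T.N : ℝ) + T.J kb T.N + T.G g ≤ 10 ^ 8 * ∫ θ in φa..φb, V θ := by
  have hU : (0 : ℝ) < T.U := by exact_mod_cast hT.U_pos
  have hndr : (2 * nd : ℝ) ≤ g := by exact_mod_cast hS.nd_le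
  have habs : |o| = -o := abs_of_nonpos ho0
  -- the window
  have hwin : (nd : ℝ) / T.U < (φb - φa) / 2 + o := by
    by_contra hcon
    push Not at hcon
    have h3 := cls_lt (d := d) (o := o) (θ := ((g - 2 * nd : ℕ) : ℝ) / (2 * T.U)) hT.m_sq
      (le_refl _) hS.t_le hS.win (hC _ (by omega)) (by positivity) ?_ ho hd
    · have h4 := hq.1
      norm_num at h3
      linarith
    · rw [habs, Nat.cast_sub hS.nd_le]
      have h4 : ((g : ℝ) - ((2 * nd : ℕ) : ℝ)) / (2 * T.U) = (g / T.U) / 2 - nd / T.U := by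
        push_cast
        field_simp
      rw [h4]
      linarith
  set x : ℝ := (φb - φa) / 2 + o with hx
  have hx0 : 0 < x := lt_of_le_of_lt (by positivity) hwin
  set n : ℕ := ⌊x * T.U⌋₊ with hn
  have hn1 : (n : ℝ) ≤ x * T.U := Nat.floor_le (by positivity)
  have hn2 : x * T.U < n + 1 := Nat.lt_floor_add_one _
  have hn1' : (n : ℝ) / T.U ≤ x := by rwa [div_le_iff₀ hU]
  have hn2' : x < (n + 1) / T.U := by rwa [lt_div_iff₀ hU]
  have hndn : nd ≤ n := by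
    apply Nat.le_floor
    rw [div_lt_iff₀ hU] at hwin
    exact hwin.le
  have hgU : (g : ℝ) ≤ (φb - φa) * T.U := by
    have : (g : ℝ) / T.U ≤ φb - φa := by linarith
    rwa [div_le_iff₀ hU] at this
  have hgU' : (φb - φa) * T.U < g + 1 := by
    have : φb - φa < (g + 1) / T.U := by linarith
    rwa [lt_div_iff₀ hU] at this
  have hng : 2 * n ≤ g := by
    have h3 : (2 * n : ℝ) < g + 1 := by
      have : x * T.U ≤ (φb - φa) * T.U / 2 := by
        rw [hx]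
        nlinarith
      linarith
    have h4 : 2 * n < g + 1 := by exact_mod_cast h3
    omega
  -- the class
  have hcls : T.In (ck n) d := by
    intro hk
    refine (cls_lt (d := d) (o := o) (θ := ((g - 2 * (n + 1) : ℕ) : ℝ) / (2 * T.U)) hT.m_sq
      (hT.D_ge _ hk) hS.t_le (hS.cls n hndn hng hk) (hC _ (by omega)) (by positivity) ?_ ho
      hd).le
    rw [habs]
    rcases le_or_gt (2 * (n + 1)) g with h3 | h3
    · rw [Nat.cast_sub h3]
      have h4 : ((g : ℝ) - ((2 * (n + 1) : ℕ) : ℝ)) / (2 * T.U) =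
          (g / T.U) / 2 - (n + 1) / T.U := by
        push_cast
        field_simp
      rw [h4]
      linarith
    · rw [Nat.sub_eq_zero_of_le h3.le]
      simp only [Nat.cast_zero, zero_div]
      linarith
  have hφ : (φa + φb) / 2 + o = φa + x := by rw [hx]; ring
  rw [hφ] at hq
  have hs := hS.s_le n hndn hng
  have hL := side_left hT h (n := n) (s := cs n) ha hq hka hcls hs (by linarith)
  have hadd := intervalIntegral.integral_add_adjacent_intervals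
    (h.intervalIntegrable φa (φa + x)) (h.intervalIntegrable (φa + x) φb)
  have hn2r : ((g - 1 - n : ℕ) : ℝ) = g - 1 - n := by
    have h3 : n + 1 ≤ g := by
      have := hS.nd_pos
      omega
    rw [Nat.sub_sub, Nat.cast_sub (by omega)]
    push_cast
    ring
  have hx2 : ((g - 1 - n : ℕ) : ℝ) / T.U < φb - (φa + x) := by
    rw [hn2r, div_lt_iff₀ hU]
    linarith
  rcases hcn : cn n with _ | _
  · -- general
    obtain ⟨hs2, hin⟩ := hS.gen n hndn hng hcn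
    have hR := side_right hT h (n := g - 1 - n) (s := ct n) hb hq hkb hcls hs2 (by linarith)
    have hin' : (2 * T.J 0 T.N : ℝ) + T.G g ≤ T.J 0 (cs n) + T.J (ck n) (n - cs n) +
      (T.J 0 (ct n) + T.J (ck n) (g - 1 - n - ct n)) := by exact_mod_cast hin
    rw [← hadd]
    linarith
  · obtain ⟨hnear, hin⟩ := hS.near n hndn hng hcn
    have hin' : (T.J 0 T.N : ℝ) + T.G g ≤
        T.J 0 (cs n) + T.J (ck n) (n - cs n) + T.J (ck n) T.N + T.G (g - 1 - n) := by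
      exact_mod_cast hin
    set x2 : ℝ := φb - (φa + x) with hx2d
    have hx20 : 0 < x2 := lt_of_le_of_lt (by positivity) hx2
    set n2 : ℕ := ⌊x2 * T.U⌋₊ with hn2d
    have hm1 : (n2 : ℝ) ≤ x2 * T.U := Nat.floor_le (by positivity)
    have hm2 : x2 * T.U < n2 + 1 := Nat.lt_floor_add_one _
    have hm1' : (n2 : ℝ) / T.U ≤ x2 := by rwa [div_le_iff₀ hU]
    have hm2' : x2 < (n2 + 1) / T.U := by rwa [lt_div_iff₀ hU]
    have hle : g - 1 - n ≤ n2 := by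
      apply Nat.le_floor
      rw [div_lt_iff₀ hU] at hx2
      exact hx2.le
    have hlt : n2 < g := by
      have h3 : (n2 : ℝ) < g := by
        have h4 : (1 : ℝ) ≤ nd := by exact_mod_cast hS.nd_pos
        have h5 : (nd : ℝ) < x * T.U := by rwa [div_lt_iff₀ hU] at hwin
        have h6 : x2 * T.U = (φb - φa) * T.U - x * T.U := by rw [hx2d]; ring
        linarith
      exact_mod_cast h3
    have hR := hIH n2 hlt (le_trans hnear hle) V E h (ck n) kb d db (φa + x) φb hq hb hcls hkb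
      (by linarith) (by linarith)
    have hGG : (T.G (g - 1 - n) : ℝ) ≤ T.G n2 := by exact_mod_cast hG _ _ hle hlt
    rw [← hadd]
    linarith

theorem step {T : Tab} {m : ℝ} (hm : 0 ≤ m) (hT : T.Good m) {C : ℕ → ℕ} {g t4 nd : ℕ}
    {ck cs ct : ℕ → ℕ} {cn : ℕ → Bool} (hS : StepOK T C g t4 nd ck cs ct cn)
    (hC : ∀ o ≤ g, 10 ^ 8 * (1 + Real.cos (o / (2 * T.U))) ≤ C o)
    (hIH : ∀ g' < g, 2 * T.N ≤ g' → Claim T m g')
    (hG : ∀ g₁ g₂, g₁ ≤ g₂ → g₂ < g → T.G g₁ ≤ T.G g₂) : Claim T m g := by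
  intro V E h ka kb da db φa φb ha hb hka hkb h1 h2
  obtain ⟨d, o, hq, ho, hd⟩ := offset h hm (t4 / 10 ^ 4) ((φa + φb) / 2)
  rcases le_or_gt o 0 with h0 | h0
  · exact step_half hT hS hC hIH hG h ha hb hka hkb h1 h2 hq h0 ho hd
  · have hq' := hq.mirror
    have h3 : -((φa + φb) / 2 + o) = (-φb + -φa) / 2 + -o := by ring
    rw [h3] at hq'
    have h4 := step_half hT hS hC hIH hG h.mirror hb.mirror ha.mirror hkb hka (by linarith)
      (by linarith) hq' (by linarith) (by rwa [abs_neg]) (by rwa [Real.cos_neg])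
    rw [int_mirror, neg_neg, neg_neg] at h4
    linarith

/-- the gap function, all classes -/
theorem claim_all {T : Tab} {m : ℝ} (hm : 0 ≤ m) (hT : T.Good m) {C : ℕ → ℕ} {gmax : ℕ}
    (hC : ∀ o ≤ gmax, 10 ^ 8 * (1 + Real.cos (o / (2 * T.U))) ≤ C o)
    (hG : ∀ g < gmax, T.G g ≤ T.G (g + 1))
    (hall : ∀ g, 2 * T.N ≤ g → g ≤ gmax → T.G g = 0 ∨
      ∃ t4 nd ck cs ct cn, StepOK T C g t4 nd ck cs ct cn) :
    ∀ g, 2 * T.N ≤ g → g ≤ gmax → Claim T m g := by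
  have hmono : ∀ g₁ g₂, g₁ ≤ g₂ → g₂ ≤ gmax → T.G g₁ ≤ T.G g₂ := by
    intro g₁ g₂ h12
    induction g₂, h12 using Nat.le_induction with
    | base => intro _; exact le_refl _
    | succ n hn ih =>
      intro h3
      exact le_trans (ih (by omega)) (hG n (by omega))
  intro g
  induction g using Nat.strong_induction_on with
  | _ g ih =>
    intro h1 h2
    rcases hall g h1 h2 with h0 | ⟨t4, nd, ck, cs, ct, cn, hS⟩
    · exact claim_base hT h1 h0
    · refine step hm hT hS (fun o ho => hC o (by omega)) (fun g' hg' h3 => ih g' hg' h3 (by omega))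
        (fun g₁ g₂ h3 h4 => hmono g₁ g₂ h3 (by omega))

end Pool.Agent.Helper54.LN
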