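import Pool.Agent.Helper54.LN.Chk

/-!
# Project LN (MP_599705_an): the gap function, certificates with ranges of cells
-/

set_option autoImplicit false

namespace Pool.Agent.Helper54.LN

open Complex Metric Set MeasureTheory
open Pool.Agent.Helper91.LC

/-- certificate for the point in the cell `n`: class `k`, numbers of cells `s`, `t`; the point is
at least `a` cells from the left and `n2` cells from the right end, the offset is at least `o` -/
structure CellOK (T : Tab) (C : ℕ → ℕ) (g t4 n k s t a n2 o : ℕ) : Prop where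
  cls : k < T.K → Cls T.M2 (T.D k) t4 (C o)
  o_le : o ≤ g - 2 * (n + 1)
  a_le : a ≤ n
  n2_le : n2 + n + 1 ≤ g
  s_le : s ≤ a
  ineq : (2 * T.N ≤ n2 ∧ T.J 0 T.N + T.G g ≤
      T.J 0 s + T.J k (a - s) + T.J k T.N + T.G n2) ∨
    (t ≤ n2 ∧ 2 * T.J 0 T.N + T.G g ≤
      T.J 0 s + T.J k (a - s) + (T.J 0 t + T.J k (n2 - t)))

/-- the certificate of the step for the gap class `g` -/
structure StepOK2 (T : Tab) (C : ℕ → ℕ) (g t4 nd : ℕ) : Prop where
  nd_pos : 1 ≤ nd
  nd_le : 2 * nd ≤ g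
  t_le : t4 ≤ 10 ^ 4
  win : Cls T.M2 (10 ^ 4) t4 (C (g - 2 * nd))
  all : ∀ n, nd ≤ n → 2 * n ≤ g → ∃ k s t a n2 o, CellOK T C g t4 n k s t a n2 o

/-- the step, the point is in the left half -/
theorem step_half2 {T : Tab} {m : ℝ} (hT : T.Good m) {C : ℕ → ℕ} {g t4 nd : ℕ}
    (hS : StepOK2 T C g t4 nd)
    (hC : ∀ o ≤ g, 10 ^ 8 * (1 + Real.cos (o / (2 * T.U))) ≤ C o)
    (hIH : ∀ g' < g, 2 * T.N ≤ g' → Claim T m g')
    (hG : ∀ g₁ g₂, g₁ ≤ g₂ → g₂ < g → T.G g₁ ≤ T.G g₂)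
    {V : ℝ → ℝ} {E : Set ℂ} (h : Cfg V E m) {ka kb : ℕ} {da db d φa φb o : ℝ}
    (ha : Pt E da φa) (hb : Pt E db φb) (hka : T.In ka da) (hkb : T.In kb db)
    (h1 : φa + g / T.U ≤ φb) (h2 : φb < φa + (g + 1) / T.U)
    (hq : Pt E d ((φa + φb) / 2 + o)) (ho0 : o ≤ 0) (ho : |o| ≤ Real.pi)
    (hd : d ^ 2 + (t4 / 10 ^ 4 : ℝ) ^ 2 - 2 * d * (t4 / 10 ^ 4 : ℝ) * Real.cos o ≤ m ^ 2) :
    (T.J ka T.N : ℝ) + T.J kb T.N + T.G g ≤ 10 ^ 8 * ∫ θ in φa..φb, V θ := by
  have hU : (0 : ℝ) < T.U := by exact_mod_cast hT.U_pos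
  have hndr : (2 * nd : ℝ) ≤ g := by exact_mod_cast hS.nd_le
  have habs : |o| = -o := abs_of_nonpos ho0
  -- the window
  have hwin : (nd : ℝ) / T.U < (φb - φa) / 2 + o := by
    by_contra hcon
    push Not at hcon
    have h3 := cls_lt (d := d) (o := o) (θ := ((g - 2 * nd : ℕ) : ℝ) / (2 * T.U)) hT.m_sq
      (le_refl _) hS.t_le hS.win (hC _ (by omega)) (by positivity) ?_ ho hd
    · have h4 := hq.1
      norm_num at h3
      linarith
    · rw [habs, Nat.cast_sub hS.nd_le]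
      have h4 : ((g : ℝ) - ((2 * nd : ℕ) : ℝ)) / (2 * T.U) = (g / T.U) / 2 - nd / T.U := by
        push_cast
        field_simp
      rw [h4]
      linarith
  set x : ℝ := (φb - φa) / 2 + o with hx
  have hx0 : 0 < x := lt_of_le_of_lt (by positivity) hwin
  set n : ℕ := ⌊x * T.U⌋₊ with hn
  have hn1 : (n : ℝ) ≤ x * T.U := Nat.floor_le (by positivity)
  have hn2 : x * T.U < n + 1 := Nat.lt_floor_add_one _
  have hn1' : (n : ℝ) / T.U ≤ x := by rwa [div_le_iff₀ hU]
  have hn2' : x < (n + 1) / T.U := by rwa [lt_div_iff₀ hU]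
  have hndn : nd ≤ n := by
    apply Nat.le_floor
    rw [div_lt_iff₀ hU] at hwin
    exact hwin.le
  have hgU : (g : ℝ) ≤ (φb - φa) * T.U := by
    have : (g : ℝ) / T.U ≤ φb - φa := by linarith
    rwa [div_le_iff₀ hU] at this
  have hgU' : (φb - φa) * T.U < g + 1 := by
    have : φb - φa < (g + 1) / T.U := by linarith
    rwa [lt_div_iff₀ hU] at this
  have hng : 2 * n ≤ g := by
    have h3 : (2 * n : ℝ) < g + 1 := by
      have : x * T.U ≤ (φb - φa) * T.U / 2 := by
        rw [hx]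
        nlinarith
      linarith
    have h4 : 2 * n < g + 1 := by exact_mod_cast h3
    omega
  obtain ⟨k, s, t, a, m2, oo, hcell⟩ := hS.all n hndn hng
  -- the class
  have hcls : T.In k d := by
    intro hk
    have hoo := hcell.o_le
    refine (cls_lt (d := d) (o := o) (θ := ((oo : ℕ) : ℝ) / (2 * T.U)) hT.m_sq
      (hT.D_ge _ hk) hS.t_le (hcell.cls hk) (hC _ (by omega)) (by positivity) ?_ ho
      hd).le
    rw [habs]
    rcases le_or_gt (2 * (n + 1)) g with h3 | h3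
    · have h4 : (oo : ℝ) / (2 * T.U) ≤ (g / T.U) / 2 - (n + 1) / T.U := by
        have h5 : (oo : ℝ) ≤ g - 2 * (n + 1) := by
          have h6 : (oo : ℝ) ≤ ((g - 2 * (n + 1) : ℕ) : ℝ) := by exact_mod_cast hoo
          rw [Nat.cast_sub h3] at h6
          push_cast at h6
          exact h6
        rw [div_le_iff₀ (by positivity)]
        have h6 : ((g : ℝ) / T.U / 2 - (n + 1) / T.U) * (2 * T.U) = g - 2 * (n + 1) := by
          field_simp
        rw [h6]
        exact h5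
      linarith
    · rw [Nat.sub_eq_zero_of_le h3.le] at hoo
      have h4 : oo = 0 := by omega
      rw [h4]
      simp only [Nat.cast_zero, zero_div]
      linarith
  have hφ : (φa + φb) / 2 + o = φa + x := by rw [hx]; ring
  rw [hφ] at hq
  have har : (a : ℝ) ≤ n := by exact_mod_cast hcell.a_le
  have haU : (a : ℝ) / T.U ≤ x := le_trans (div_le_div_of_nonneg_right har hU.le) hn1'
  have hL := side_left hT h (n := a) (s := s) ha hq hka hcls hcell.s_le (by linarith)
  have hadd := intervalIntegral.integral_add_adjacent_intervals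
    (h.intervalIntegrable φa (φa + x)) (h.intervalIntegrable (φa + x) φb)
  have hm2r : (m2 : ℝ) ≤ g - 1 - n := by
    have h3 : ((m2 + n + 1 : ℕ) : ℝ) ≤ g := by exact_mod_cast hcell.n2_le
    push_cast at h3
    linarith
  have hx2 : (m2 : ℝ) / T.U < φb - (φa + x) := by
    rw [div_lt_iff₀ hU]
    have : (φb - (φa + x)) * T.U = (φb - φa) * T.U - x * T.U := by ring
    rw [this]
    linarith
  rcases hcell.ineq with ⟨hnear, hin⟩ | ⟨hs2, hin⟩
  · have hin' : (T.J 0 T.N : ℝ) + T.G g ≤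
        T.J 0 s + T.J k (a - s) + T.J k T.N + T.G m2 := by
      exact_mod_cast hin
    set x2 : ℝ := φb - (φa + x) with hx2d
    have hx20 : 0 < x2 := lt_of_le_of_lt (by positivity) hx2
    set n2 : ℕ := ⌊x2 * T.U⌋₊ with hn2d
    have hm1 : (n2 : ℝ) ≤ x2 * T.U := Nat.floor_le (by positivity)
    have hm2 : x2 * T.U < n2 + 1 := Nat.lt_floor_add_one _
    have hm1' : (n2 : ℝ) / T.U ≤ x2 := by rwa [div_le_iff₀ hU]
    have hm2' : x2 < (n2 + 1) / T.U := by rwa [lt_div_iff₀ hU]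
    have hle : m2 ≤ n2 := by
      apply Nat.le_floor
      rw [div_lt_iff₀ hU] at hx2
      exact hx2.le
    have hlt : n2 < g := by
      have h3 : (n2 : ℝ) < g := by
        have h4 : (1 : ℝ) ≤ nd := by exact_mod_cast hS.nd_pos
        have h5 : (nd : ℝ) < x * T.U := by rwa [div_lt_iff₀ hU] at hwin
        have h6 : x2 * T.U = (φb - φa) * T.U - x * T.U := by rw [hx2d]; ring
        linarith
      exact_mod_cast h3
    have hR := hIH n2 hlt (le_trans hnear hle) V E h k kb d db (φa + x) φb hq hb hcls hkb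
      (by linarith) (by linarith)
    have hGG : (T.G m2 : ℝ) ≤ T.G n2 := by exact_mod_cast hG _ _ hle hlt
    rw [← hadd]
    linarith
  · have hR := side_right hT h (n := m2) (s := t) hb hq hkb hcls hs2 (by linarith)
    have hin' : (2 * T.J 0 T.N : ℝ) + T.G g ≤ T.J 0 s + T.J k (a - s) +
      (T.J 0 t + T.J k (m2 - t)) := by exact_mod_cast hin
    rw [← hadd]
    linarith

theorem step2 {T : Tab} {m : ℝ} (hm : 0 ≤ m) (hT : T.Good m) {C : ℕ → ℕ} {g t4 nd : ℕ}
    (hS : StepOK2 T C g t4 nd)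
    (hC : ∀ o ≤ g, 10 ^ 8 * (1 + Real.cos (o / (2 * T.U))) ≤ C o)
    (hIH : ∀ g' < g, 2 * T.N ≤ g' → Claim T m g')
    (hG : ∀ g₁ g₂, g₁ ≤ g₂ → g₂ < g → T.G g₁ ≤ T.G g₂) : Claim T m g := by
  intro V E h ka kb da db φa φb ha hb hka hkb h1 h2
  obtain ⟨d, o, hq, ho, hd⟩ := offset h hm (t4 / 10 ^ 4) ((φa + φb) / 2)
  rcases le_or_gt o 0 with h0 | h0
  · exact step_half2 hT hS hC hIH hG h ha hb hka hkb h1 h2 hq h0 ho hd
  · have hq' := hq.mirror
    have h3 : -((φa + φb) / 2 + o) = (-φb + -φa) / 2 + -o := by ring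
    rw [h3] at hq'
    have h4 := step_half2 hT hS hC hIH hG h.mirror hb.mirror ha.mirror hkb hka (by linarith)
      (by linarith) hq' (by linarith) (by rwa [abs_neg]) (by rwa [Real.cos_neg])
    rw [int_mirror, neg_neg, neg_neg] at h4
    linarith

/-- the gap function, all classes -/
theorem claim_all2 {T : Tab} {m : ℝ} (hm : 0 ≤ m) (hT : T.Good m) {C : ℕ → ℕ} {gmax : ℕ}
    (hC : ∀ o ≤ gmax, 10 ^ 8 * (1 + Real.cos (o / (2 * T.U))) ≤ C o)
    (hG : ∀ g < gmax, T.G g ≤ T.G (g + 1))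
    (hall : ∀ g, 2 * T.N ≤ g → g ≤ gmax → T.G g = 0 ∨ ∃ t4 nd, StepOK2 T C g t4 nd) :
    ∀ g, 2 * T.N ≤ g → g ≤ gmax → Claim T m g := by
  have hmono : ∀ g₁ g₂, g₁ ≤ g₂ → g₂ ≤ gmax → T.G g₁ ≤ T.G g₂ := by
    intro g₁ g₂ h12
    induction g₂, h12 using Nat.le_induction with
    | base => intro _; exact le_refl _
    | succ n hn ih =>
      intro h3
      exact le_trans (ih (by omega)) (hG n (by omega))
  intro g
  induction g using Nat.strong_induction_on with
  | _ g ih =>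
    intro h1 h2
    rcases hall g h1 h2 with h0 | ⟨t4, nd, hS⟩
    · exact claim_base hT h1 h0
    · refine step2 hm hT hS (fun o ho => hC o (by omega)) (fun g' hg' h3 => ih g' hg' h3 (by omega))
        (fun g₁ g₂ h3 h4 => hmono g₁ g₂ h3 (by omega))

/-! ### the Boolean check -/

/-- the range of cells `[a, e)` -/
def rangeB (T : Tab) (TU g t4 a e k s t : ℕ) : Bool :=
  (Nat.ble T.K k || clsB T.M2 (T.D k) t4 (get 32 TU (g - 2 * e))) &&
  (Nat.ble s a &&
  cond (Nat.beq t 65535)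
    (Nat.ble (2 * T.N) (g - e) &&
      Nat.ble (T.J 0 T.N + T.G g) (T.J 0 s + T.J k (a - s) + T.J k T.N + T.G (g - e)))
    (Nat.ble t (g - e) &&
      Nat.ble (2 * T.J 0 T.N + T.G g)
        (T.J 0 s + T.J k (a - s) + (T.J 0 t + T.J k (g - e - t)))))

/-- `L` ranges; entry `i` of `row` has the fields start, class, `s`, `t` of 16 bits -/
def stepB2 (T : Tab) (TU g t4 nd L row : ℕ) : Bool :=
  (Nat.ble 1 nd && (Nat.ble (2 * nd) g && (Nat.ble t4 10000 &&
    (clsB T.M2 10000 t4 (get 32 TU (g - 2 * nd)) &&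
    (Nat.ble (get 16 row 0) nd && (Nat.blt g (2 * get 16 row (4 * L)) &&
    Nat.ble (get 16 row (4 * L)) g)))))) &&
  allB (fun i => Nat.ble (get 16 row (4 * (i + 1))) g &&
    rangeB T TU g t4 (get 16 row (4 * i)) (get 16 row (4 * (i + 1)))
    (get 16 row (4 * i + 1)) (get 16 row (4 * i + 2)) (get 16 row (4 * i + 3))) L

theorem find_range {f : ℕ → ℕ} {L n : ℕ} (h0 : f 0 ≤ n) (h1 : n < f L) :
    ∃ i < L, f i ≤ n ∧ n < f (i + 1) := by
  induction L with
  | zero => omega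
  | succ L ih =>
    rcases Nat.lt_or_ge n (f L) with h2 | h2
    · obtain ⟨i, hi, h3⟩ := ih h2
      exact ⟨i, by omega, h3⟩
    · exact ⟨L, by omega, h2, h1⟩

theorem step2_of {T : Tab} {TU g t4 nd L row : ℕ} (h : stepB2 T TU g t4 nd L row = true) :
    StepOK2 T (fun o => get 32 TU o) g t4 nd := by
  unfold stepB2 at h
  rw [Bool.and_eq_true, Bool.and_eq_true, Bool.and_eq_true, Bool.and_eq_true,
    Bool.and_eq_true, Bool.and_eq_true, Bool.and_eq_true, allB_iff] at h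
  obtain ⟨⟨h1, h2, h3, h4, h5, h6, h7⟩, h8⟩ := h
  have h1 := Nat.le_of_ble_eq_true h1
  have h2 := Nat.le_of_ble_eq_true h2
  have h3 := Nat.le_of_ble_eq_true h3
  have h5 := Nat.le_of_ble_eq_true h5
  have h6 : g < 2 * get 16 row (4 * L) := by simpa [Nat.blt_eq] using h6
  have hc : ∀ {M2 D4 t4 C : ℕ}, clsB M2 D4 t4 C = true → Cls M2 D4 t4 C := by
    intro M2 D4 t4 C h
    unfold clsB at h
    unfold Cls
    simpa [Nat.blt_eq] using h
  refine ⟨h1, h2, h3, hc h4, ?_⟩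
  intro n hn1 hn2
  obtain ⟨i, hi, hin, hie⟩ := find_range (f := fun i => get 16 row (4 * i)) (L := L) (n := n)
    (by simpa using le_trans h5 hn1) (by show n < get 16 row (4 * L); omega)
  have hin' : get 16 row (4 * i) ≤ n := hin
  have hie' : n < get 16 row (4 * (i + 1)) := hie
  have h9 := h8 i hi
  rw [Bool.and_eq_true] at h9
  have heg := Nat.le_of_ble_eq_true h9.1
  have h10 := h9.2
  unfold rangeB at h10
  rw [Bool.and_eq_true, Bool.or_eq_true, Bool.and_eq_true] at h10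
  obtain ⟨h11, h12, h13⟩ := h10
  refine ⟨get 16 row (4 * i + 1), get 16 row (4 * i + 2), get 16 row (4 * i + 3),
    get 16 row (4 * i), g - get 16 row (4 * (i + 1)), g - 2 * get 16 row (4 * (i + 1)), ?_, ?_,
    hin', ?_, Nat.le_of_ble_eq_true h12, ?_⟩
  · intro hk
    rcases h11 with h14 | h14
    · have := Nat.le_of_ble_eq_true h14
      omega
    · exact hc h14
  · omega
  · omega
  · rcases hb : Nat.beq (get 16 row (4 * i + 3)) 65535 with _ | _
    · rw [hb, cond_false, Bool.and_eq_true] at h13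
      right
      exact ⟨Nat.le_of_ble_eq_true h13.1, Nat.le_of_ble_eq_true h13.2⟩
    · rw [hb, cond_true, Bool.and_eq_true] at h13
      left
      exact ⟨Nat.le_of_ble_eq_true h13.1, Nat.le_of_ble_eq_true h13.2⟩

/-- steps `lo ≤ g < hi`; `w` is the width of a row -/
def stepsB2 (T : Tab) (TU Tt Tn TLn TR w base lo hi : ℕ) : Bool :=
  allB (fun i => Nat.beq (T.G (lo + i)) 0 ||
    stepB2 T TU (lo + i) (get 16 Tt (lo + i - base)) (get 8 Tn (lo + i - base))
      (get 16 TLn (lo + i - base)) (get w TR (lo + i - base))) (hi - lo)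

theorem steps2_of {T : Tab} {TU Tt Tn TLn TR w base lo hi : ℕ}
    (h : stepsB2 T TU Tt Tn TLn TR w base lo hi = true) :
    ∀ g, lo ≤ g → g < hi → T.G g = 0 ∨ ∃ t4 nd, StepOK2 T (fun o => get 32 TU o) g t4 nd := by
  intro g h1 h2
  have h4 := allB_iff.1 h (g - lo) (by omega)
  have h5 : lo + (g - lo) = g := by omega
  rw [h5, Bool.or_eq_true] at h4
  rcases h4 with h6 | h6
  · left
    exact Nat.eq_of_beq_eq_true h6
  · right
    exact ⟨_, _, step2_of h6⟩

theorem claims2_of {T : Tab} {m : ℝ} (hm : 0 ≤ m) (hT : T.Good m) {TU gmax : ℕ}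
    (h1 : allB (fun o => cosUB (2 * T.U) o (get 32 TU o)) (gmax + 1) = true)
    (h2 : allB (fun g => Nat.ble (T.G g) (T.G (g + 1))) gmax = true)
    (h3 : ∀ g, 2 * T.N ≤ g → g < gmax + 1 → T.G g = 0 ∨
      ∃ t4 nd, StepOK2 T (fun o => get 32 TU o) g t4 nd) :
    ∀ g, 2 * T.N ≤ g → g ≤ gmax → Claim T m g := by
  refine claim_all2 hm hT (C := fun o => get 32 TU o) ?_ ?_ ?_
  · intro o ho
    have h4 := cosUB_of (by have := hT.U_pos; omega) (allB_iff.1 h1 o (by omega))
    push_cast at h4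
    exact h4
  · intro g hg
    exact Nat.le_of_ble_eq_true (allB_iff.1 h2 g hg)
  · intro g hg1 hg2
    exact h3 g hg1 (by omega)

end Pool.Agent.Helper54.LN
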