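import Pool.Agent.Helper54.LN.Chk

/-!
# Project LN (MP_599705_an): bounds with multipliers, three points around `0`
-/

set_option autoImplicit false

namespace Pool.Agent.Helper54.LN

open Complex Metric Set MeasureTheory
open Pool.Agent.Helper91.LC

/-! ### lines under the table -/

/-- the defect `d - M2 / d` -/
noncomputable def Tab.Kd (T : Tab) (d : ℝ) : ℝ := d - (T.M2 / 10 ^ 4) / d

/-- every distance has a class with bounds for all multipliers `j * b` -/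
def Lines (T : Tab) (Lt : ℕ → ℕ) (b JM : ℕ) : Prop :=
  ∀ d : ℝ, 1 ≤ d → ∃ k, T.In k d ∧
    ∀ j < JM, (Lt j : ℝ) ≤ 2 * T.J k T.N + (j * b : ℕ) * T.Kd d

/-- lower end of the class `k` -/
def Tab.dp (T : Tab) (k : ℕ) : ℕ := cond (Nat.beq k 0) 10000 (T.D (k - 1))

def linesB (T : Tab) (Lt : ℕ → ℕ) (b JM : ℕ) : Bool :=
  allB (fun k => allB (fun j =>
    Nat.ble (Lt j * 10 ^ 4 * T.dp k + j * b * 10 ^ 4 * T.M2)
      (2 * T.J k T.N * 10 ^ 4 * T.dp k + j * b * T.dp k ^ 2)) JM) (T.K + 1)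

theorem lines_of {T : Tab} {m : ℝ} (hT : T.Good m) {Lt : ℕ → ℕ} {b JM : ℕ}
    (h : linesB T Lt b JM = true) : Lines T Lt b JM := by
  intro d hd
  have hP : ∃ k, T.In k d := ⟨T.K, fun h => absurd h (lt_irrefl _)⟩
  classical
  set k := Nat.find hP with hk
  have hk1 : T.In k d := Nat.find_spec hP
  have hkK : k ≤ T.K := Nat.find_min' hP fun h => absurd h (lt_irrefl _)
  refine ⟨k, hk1, ?_⟩
  intro j hj
  have h1 := Nat.le_of_ble_eq_true (allB_iff.1 (allB_iff.1 h k (by omega)) j hj)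
  have h2 : 10 ^ 4 ≤ T.dp k ∧ (T.dp k : ℝ) / 10 ^ 4 ≤ d := by
    rcases Nat.eq_zero_or_pos k with h0 | h0
    · have h00 : T.dp k = 10000 := by rw [h0]; rfl
      rw [h00]
      constructor
      · norm_num
      · norm_num
        linarith
    · have h3 : Nat.beq k 0 = false := by
        rw [← Bool.not_eq_true]
        intro h4
        have := Nat.eq_of_beq_eq_true h4
        omega
      have h00 : T.dp k = T.D (k - 1) := by
        unfold Tab.dp
        rw [h3, cond_false]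
      rw [h00]
      have h4 : ¬ T.In (k - 1) d := Nat.find_min hP (by omega)
      unfold Tab.In at h4
      push Not at h4
      exact ⟨hT.D_ge _ h4.1, h4.2.le⟩
  set dp : ℕ := T.dp k with hdp
  obtain ⟨h3, h4⟩ := h2
  have h5 : (Lt j : ℝ) * 10 ^ 4 * dp + (j * b : ℕ) * 10 ^ 4 * T.M2 ≤
      2 * T.J k T.N * 10 ^ 4 * dp + (j * b : ℕ) * dp ^ 2 := by exact_mod_cast h1
  set β : ℝ := ((j * b : ℕ) : ℝ) with hβ
  have hβ0 : 0 ≤ β := Nat.cast_nonneg _
  have h6 : (10 ^ 4 : ℝ) ≤ dp := by exact_mod_cast h3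
  have hdp0 : (0 : ℝ) < dp := by linarith
  -- the value at `dp`
  have h7 : (Lt j : ℝ) - β * ((dp : ℝ) / 10 ^ 4 - (T.M2 / 10 ^ 4) / ((dp : ℝ) / 10 ^ 4)) ≤
      2 * T.J k T.N := by
    have h8 : (Lt j : ℝ) - β * ((dp : ℝ) / 10 ^ 4 - (T.M2 / 10 ^ 4) / ((dp : ℝ) / 10 ^ 4)) =
        (Lt j * 10 ^ 4 * dp + β * 10 ^ 4 * T.M2 - β * dp ^ 2) / (10 ^ 4 * dp) := by
      field_simp
      ring
    rw [h8, div_le_iff₀ (by positivity)]
    linarith
  have h9 : (dp : ℝ) / 10 ^ 4 - (T.M2 / 10 ^ 4) / ((dp : ℝ) / 10 ^ 4) ≤ T.Kd d := by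
    unfold Tab.Kd
    have h10 : (T.M2 / 10 ^ 4 : ℝ) / d ≤ (T.M2 / 10 ^ 4) / ((dp : ℝ) / 10 ^ 4) := by
      apply div_le_div_of_nonneg_left
      · positivity
      · positivity
      · exact h4
    linarith
  have h10 := mul_le_mul_of_nonneg_left h9 hβ0
  linarith

/-- lower bounds for a multiplier between two grid points -/
theorem aff_min {H K a b μ x y : ℝ} (h1 : a ≤ μ) (h2 : μ ≤ b) (hx : x ≤ H + a * K)
    (hy : y ≤ H + b * K) : min x y ≤ H + μ * K := by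
  rcases le_total 0 K with hK | hK
  · refine le_trans (min_le_left _ _) (le_trans hx ?_)
    have := mul_le_mul_of_nonneg_right h1 hK
    linarith
  · refine le_trans (min_le_right _ _) (le_trans hy ?_)
    have := mul_le_mul_of_nonpos_right h2 hK
    linarith

/-! ### gaps -/

/-- lower bound (shifted by `2 * J 0 N`) for the gain of a gap of at least `n` cells -/
def Tab.Pn (T : Tab) (n : ℕ) : ℕ :=
  cond (Nat.ble (2 * T.N) n) (T.G n + 2 * T.J 0 T.N) (2 * T.J 0 (n / 2))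

theorem G_mono {T : Tab} {gmax : ℕ} (hmono : ∀ g < gmax, T.G g ≤ T.G (g + 1)) {g₁ g₂ : ℕ}
    (h12 : g₁ ≤ g₂) (h2 : g₂ ≤ gmax) : T.G g₁ ≤ T.G g₂ := by
  induction g₂, h12 using Nat.le_induction with
  | base => exact le_refl _
  | succ n hn ih => exact le_trans (ih (by omega)) (hmono n (by omega))

/-- the integral over a gap with at least `n` cells -/
theorem gap_G {V : ℝ → ℝ} {E : Set ℂ} {m : ℝ} {T : Tab} {gmax : ℕ} (hT : T.Good m)
    (h : Cfg V E m) (hcl : ∀ g, 2 * T.N ≤ g → g ≤ gmax → Claim T m g)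
    (hmono : ∀ g < gmax, T.G g ≤ T.G (g + 1))
    {ka kb : ℕ} {da db φa φb : ℝ} (ha : Pt E da φa) (hb : Pt E db φb) (hka : T.In ka da)
    (hkb : T.In kb db) {n : ℕ} (hn : (n : ℝ) ≤ (φb - φa) * T.U) (hn2 : 2 * T.N ≤ n)
    (hmax : (φb - φa) * T.U < gmax + 1) :
    (T.J ka T.N : ℝ) + T.J kb T.N + T.G n ≤ 10 ^ 8 * ∫ θ in φa..φb, V θ := by
  have hU : (0 : ℝ) < T.U := by exact_mod_cast hT.U_pos
  have hn0 : (0 : ℝ) ≤ n := Nat.cast_nonneg _
  have h0 : 0 ≤ (φb - φa) * T.U := le_trans hn0 hn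
  set g : ℕ := ⌊(φb - φa) * T.U⌋₊ with hg
  have hg1 : (g : ℝ) ≤ (φb - φa) * T.U := Nat.floor_le h0
  have hg2 : (φb - φa) * T.U < g + 1 := Nat.lt_floor_add_one _
  have hg1' : (g : ℝ) / T.U ≤ φb - φa := by rwa [div_le_iff₀ hU]
  have hg2' : φb - φa < (g + 1) / T.U := by rwa [lt_div_iff₀ hU]
  have hng : n ≤ g := Nat.le_floor hn
  have hgm : g ≤ gmax := by
    have h3 : (g : ℝ) < gmax + 1 := by linarith
    have h4 : g < gmax + 1 := by exact_mod_cast h3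
    omega
  have h1 := hcl g (by omega) hgm V E h ka kb da db φa φb ha hb hka hkb (by linarith)
    (by linarith)
  have h2 : (T.G n : ℝ) ≤ T.G g := by exact_mod_cast G_mono hmono hng hgm
  linarith

theorem gap_P {V : ℝ → ℝ} {E : Set ℂ} {m : ℝ} {T : Tab} {gmax : ℕ} (hT : T.Good m)
    (h : Cfg V E m) (hcl : ∀ g, 2 * T.N ≤ g → g ≤ gmax → Claim T m g)
    (hmono : ∀ g < gmax, T.G g ≤ T.G (g + 1))
    {ka kb : ℕ} {da db φa φb : ℝ} (ha : Pt E da φa) (hb : Pt E db φb) (hka : T.In ka da)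
    (hkb : T.In kb db) {n : ℕ} (hn : (n : ℝ) ≤ (φb - φa) * T.U) (hab : φa ≤ φb)
    (hmax : (φb - φa) * T.U < gmax + 1) :
    (T.J ka T.N : ℝ) + T.J kb T.N + T.Pn n ≤
      2 * T.J 0 T.N + 10 ^ 8 * ∫ θ in φa..φb, V θ := by
  have hU : (0 : ℝ) < T.U := by exact_mod_cast hT.U_pos
  unfold Tab.Pn
  rcases hc : Nat.ble (2 * T.N) n with _ | _
  · rw [cond_false]
    set s : ℕ := n / 2 with hs
    have hsn : 2 * s ≤ n := by omega
    have hsr : 2 * (s : ℝ) ≤ n := by exact_mod_cast hsn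
    have hs2 : (s : ℝ) / T.U ≤ (φb - φa) / 2 := by
      rw [div_le_iff₀ hU]
      linarith
    have h1 := hT.bump _ _ h ka s da φa ha hka
    have h2 := bump_left hT h s hb hkb
    have h3 : (T.J ka T.N : ℝ) + T.J 0 s ≤ T.J 0 T.N + T.J ka s := by
      exact_mod_cast hT.mono ka s
    have h4 : (T.J kb T.N : ℝ) + T.J 0 s ≤ T.J 0 T.N + T.J kb s := by
      exact_mod_cast hT.mono kb s
    have h5 := intervalIntegral.integral_add_adjacent_intervals
      (h.intervalIntegrable φa (φa + s / T.U))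
      (h.intervalIntegrable (φa + s / T.U) (φb - s / T.U))
    have h6 := intervalIntegral.integral_add_adjacent_intervals
      (h.intervalIntegrable φa (φb - s / T.U))
      (h.intervalIntegrable (φb - s / T.U) φb)
    have h7 : 0 ≤ ∫ θ in (φa + s / T.U)..(φb - s / T.U), V θ := by
      apply h.int_nonneg
      linarith
    push_cast
    linarith
  · rw [cond_true]
    have h1 := gap_G hT h hcl hmono ha hb hka hkb hn (Nat.le_of_ble_eq_true hc) hmax
    push_cast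
    linarith

/-! ### the reduced inequality -/

/-- what the geometry gives for three points; `g ≤ h ≤ y` are the gaps, the point with index `g`
is opposite to the gap `g` -/
structure Three (T : Tab) (Lt : ℕ → ℕ) (b JM gmax : ℕ) (tot g h y Hg Hh Hy Kg Kh Ky : ℝ) :
    Prop where
  gh : g ≤ h
  hy : h ≤ y
  g0 : 0 ≤ g
  ypi : y ≤ Real.pi
  sum : g + h + y = 2 * Real.pi
  Lg : ∀ j < JM, (Lt j : ℝ) ≤ Hg + (j * b : ℕ) * Kg
  Lh : ∀ j < JM, (Lt j : ℝ) ≤ Hh + (j * b : ℕ) * Kh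
  Ly : ∀ j < JM, (Lt j : ℝ) ≤ Hy + (j * b : ℕ) * Ky
  Kyl : 1 - (T.M2 / 10 ^ 4 : ℝ) ≤ Ky
  sin : Real.sin g * Kg + Real.sin h * Kh + Real.sin y * Ky ≤ 0
  deg : g = 0 → Kg + Kh ≤ 0
  A : ∀ n₁ n₂ n₃ : ℕ, (n₁ : ℝ) ≤ g * T.U → (n₂ : ℝ) ≤ h * T.U → (n₃ : ℝ) ≤ y * T.U →
    Hg + Hh + Hy + T.Pn n₁ + T.Pn n₂ + T.Pn n₃ ≤ 6 * T.J 0 T.N + tot
  B : ∀ n₁ n₂ : ℕ, 2 * T.N ≤ n₁ → 2 * T.N ≤ n₂ → (n₁ : ℝ) ≤ y * T.U →
    (n₂ : ℝ) ≤ (2 * Real.pi - y) * T.U → (2 * Real.pi - y) * T.U < gmax + 1 →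
    Hg + Hh + T.G n₁ + T.G n₂ ≤ tot
  C : ∀ n₁ n₂ : ℕ, 2 * T.N ≤ n₁ → 2 * T.N ≤ n₂ → (n₁ : ℝ) ≤ h * T.U →
    (n₂ : ℝ) ≤ (2 * Real.pi - h) * T.U → (2 * Real.pi - h) * T.U < gmax + 1 →
    Hg + Hy + T.G n₁ + T.G n₂ ≤ tot

/-- lower bound by a multiplier -/
theorem L_le {Lt : ℕ → ℕ} {b JM : ℕ} {H K μ : ℝ} (hL : ∀ j < JM, (Lt j : ℝ) ≤ H + (j * b : ℕ) * K)
    {j₁ j₂ : ℕ} (h₁ : j₁ < JM) (h₂ : j₂ < JM) (hμ₁ : ((j₁ * b : ℕ) : ℝ) ≤ μ)
    (hμ₂ : μ ≤ ((j₂ * b : ℕ) : ℝ)) : ((min (Lt j₁) (Lt j₂) : ℕ) : ℝ) ≤ H + μ * K := by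
  have h3 := aff_min hμ₁ hμ₂ (hL j₁ h₁) (hL j₂ h₂)
  push_cast
  exact h3

/-- the tight case: the smallest gap is at most `x0 / 2` -/
theorem three_P {T : Tab} {Lt : ℕ → ℕ} {b JM gmax : ℕ} {tot g h y Hg Hh Hy Kg Kh Ky : ℝ}
    (hX : Three T Lt b JM gmax tot g h y Hg Hh Hy Kg Kh Ky) (hU : 0 < T.U)
    {x0 R : ℝ} (hx0 : g ≤ x0) (hx0' : x0 < 1) (hR : 1 ≤ R * Real.cos (x0 / 2))
    {j₁ j₂ piU lmax Gm tgt : ℕ} (h₁ : j₁ < JM) (h₂ : j₂ < JM)
    (hj : ((j₁ * b : ℕ) : ℝ) * R ≤ ((j₂ * b : ℕ) : ℝ)) (hpi : (piU : ℝ) ≤ Real.pi * T.U)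
    (hl : x0 * T.U < lmax) (hlp : 2 * T.N + lmax ≤ piU)
    (hgm : Real.pi * T.U + lmax ≤ gmax + 1)
    (hG : ∀ l < lmax, Gm ≤ T.G (piU - 1 - l) + T.G (piU + l))
    (hnum : tgt < Lt j₁ + min (Lt j₁) (Lt j₂) + Gm) : (tgt : ℝ) < tot := by
  have hU' : (0 : ℝ) < T.U := by exact_mod_cast hU
  have hpi0 := Real.pi_gt_three
  have hg0 := hX.g0
  have hgh := hX.gh
  have hhy := hX.hy
  have hyp := hX.ypi
  have hsum := hX.sum
  set yp : ℝ := Real.pi - y with hyp'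
  set hp : ℝ := Real.pi - h with hhp'
  have hs : hp + yp = g := by rw [hyp', hhp']; linarith
  have hyp0 : 0 ≤ yp := by rw [hyp']; linarith
  have hhp0 : yp ≤ hp := by rw [hyp', hhp']; linarith
  -- the two views
  have hpair : ∀ x : ℝ, 0 ≤ x → x ≤ x0 → ∃ n₁ n₂ : ℕ, 2 * T.N ≤ n₁ ∧ 2 * T.N ≤ n₂ ∧
      (n₁ : ℝ) ≤ (Real.pi - x) * T.U ∧ (n₂ : ℝ) ≤ (2 * Real.pi - (Real.pi - x)) * T.U ∧
      (2 * Real.pi - (Real.pi - x)) * T.U < gmax + 1 ∧ Gm ≤ T.G n₁ + T.G n₂ := by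
    intro x hx hxx
    set l : ℕ := ⌊x * T.U⌋₊ with hld
    have hl1 : (l : ℝ) ≤ x * T.U := Nat.floor_le (by positivity)
    have hl2 : x * T.U < l + 1 := Nat.lt_floor_add_one _
    have hxU : x * T.U ≤ x0 * T.U := mul_le_mul_of_nonneg_right hxx hU'.le
    have hll : l < lmax := by
      have : (l : ℝ) < lmax := by linarith
      exact_mod_cast this
    refine ⟨piU - 1 - l, piU + l, by omega, by omega, ?_, ?_, ?_, hG l hll⟩
    · have h3 : ((piU - 1 - l : ℕ) : ℝ) = piU - 1 - l := by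
        rw [Nat.sub_sub, Nat.cast_sub (by omega)]
        push_cast
        ring
      rw [h3]
      linarith
    · push_cast
      linarith
    · linarith
  obtain ⟨a₁, a₂, ha₁, ha₂, ha₃, ha₄, ha₅, ha₆⟩ := hpair yp hyp0 (by linarith)
  obtain ⟨c₁, c₂, hc₁, hc₂, hc₃, hc₄, hc₅, hc₆⟩ := hpair hp (by linarith) (by linarith)
  have ey : Real.pi - yp = y := by rw [hyp']; ring
  have eh : Real.pi - hp = h := by rw [hhp']; ring
  rw [ey] at ha₃ ha₄ ha₅
  rw [eh] at hc₃ hc₄ hc₅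
  have hB := hX.B a₁ a₂ ha₁ ha₂ ha₃ ha₄ ha₅
  have hC := hX.C c₁ c₂ hc₁ hc₂ hc₃ hc₄ hc₅
  have ha₆r : (Gm : ℝ) ≤ T.G a₁ + T.G a₂ := by exact_mod_cast ha₆
  have hc₆r : (Gm : ℝ) ≤ T.G c₁ + T.G c₂ := by exact_mod_cast hc₆
  have hnumr : (tgt : ℝ) < Lt j₁ + ((min (Lt j₁) (Lt j₂) : ℕ) : ℝ) + Gm := by
    exact_mod_cast hnum
  set μ : ℝ := ((j₁ * b : ℕ) : ℝ) with hμ
  have hμ0 : 0 ≤ μ := Nat.cast_nonneg _
  have hLg := hX.Lg j₁ h₁
  have hR1 : 1 ≤ R := by
    have hc1 := Real.cos_le_one (x0 / 2)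
    have hc0 : 0 < Real.cos (x0 / 2) := by
      apply Real.cos_pos_of_mem_Ioo
      constructor <;> linarith
    by_contra hcon
    push Not at hcon
    nlinarith
  rcases eq_or_lt_of_le hg0 with h0 | h0
  · -- the degenerate case
    have hdeg := hX.deg h0.symm
    have hLh := hX.Lh j₁ h₁
    have h3 : ((min (Lt j₁) (Lt j₂) : ℕ) : ℝ) ≤ Lt j₁ := by
      exact_mod_cast min_le_left _ _
    have h4 := mul_nonpos_of_nonneg_of_nonpos hμ0 hdeg
    rw [← hμ] at hLh hLg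
    linarith
  · have hsg : 0 < Real.sin g := Real.sin_pos_of_pos_of_lt_pi h0 (by linarith)
    have esh : Real.sin h = Real.sin hp := by rw [hhp', Real.sin_pi_sub]
    have esy : Real.sin y = Real.sin yp := by rw [hyp', Real.sin_pi_sub]
    have hsh : 0 < Real.sin hp := Real.sin_pos_of_pos_of_lt_pi (by linarith) (by linarith)
    have hsy : 0 ≤ Real.sin yp := Real.sin_nonneg_of_nonneg_of_le_pi hyp0 (by linarith)
    have hsin := hX.sin
    rw [esh, esy] at hsin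
    -- the ratio
    have e1 : Real.sin hp + Real.sin yp = 2 * Real.sin (g / 2) * Real.cos ((hp - yp) / 2) := by
      have h3 : Real.sin hp = Real.sin (g / 2 + (hp - yp) / 2) := by
        congr 1
        rw [← hs]
        ring
      have h4 : Real.sin yp = Real.sin (g / 2 - (hp - yp) / 2) := by
        congr 1
        rw [← hs]
        ring
      rw [h3, h4, Real.sin_add, Real.sin_sub]
      ring
    have e2 : Real.sin g = 2 * Real.sin (g / 2) * Real.cos (g / 2) := by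
      rw [← Real.sin_two_mul]
      congr 1
      ring
    have hsg2 : 0 < Real.sin (g / 2) := Real.sin_pos_of_pos_of_lt_pi (by linarith) (by linarith)
    have hcc : Real.cos (g / 2) ≤ Real.cos ((hp - yp) / 2) :=
      Real.cos_le_cos_of_nonneg_of_le_pi (by linarith) (by linarith) (by linarith)
    have hcg : Real.cos (x0 / 2) ≤ Real.cos (g / 2) :=
      Real.cos_le_cos_of_nonneg_of_le_pi (by linarith) (by linarith) (by linarith)
    have hcx : 0 < Real.cos (x0 / 2) := by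
      apply Real.cos_pos_of_mem_Ioo
      constructor <;> linarith
    have hlow : Real.sin g ≤ Real.sin hp + Real.sin yp := by
      rw [e1, e2]
      exact mul_le_mul_of_nonneg_left hcc (by positivity)
    have hupp : Real.sin hp + Real.sin yp ≤ R * Real.sin g := by
      rw [e1, e2]
      have h3 : Real.cos ((hp - yp) / 2) ≤ R * Real.cos (g / 2) := by
        refine le_trans (Real.cos_le_one _) (le_trans hR ?_)
        exact mul_le_mul_of_nonneg_left hcg (by linarith)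
      calc 2 * Real.sin (g / 2) * Real.cos ((hp - yp) / 2) ≤
          2 * Real.sin (g / 2) * (R * Real.cos (g / 2)) :=
            mul_le_mul_of_nonneg_left h3 (by positivity)
        _ = _ := by ring
    set q : ℝ := (Real.sin hp + Real.sin yp) / Real.sin g with hq
    have hq1 : 1 ≤ q := by rw [hq, le_div_iff₀ hsg]; linarith
    have hq2 : q ≤ R := by rw [hq, div_le_iff₀ hsg]; linarith
    have hm1 : ((j₁ * b : ℕ) : ℝ) ≤ μ * q := by
      rw [← hμ]
      exact le_mul_of_one_le_right hμ0 hq1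
    have hm2 : μ * q ≤ ((j₂ * b : ℕ) : ℝ) :=
      le_trans (mul_le_mul_of_nonneg_left hq2 hμ0) hj
    have hLh := L_le hX.Lh h₁ h₂ hm1 hm2
    have hLy := L_le hX.Ly h₁ h₂ hm1 hm2
    set r : ℝ := ((min (Lt j₁) (Lt j₂) : ℕ) : ℝ) with hr
    -- weights
    set S : ℝ := Real.sin hp + Real.sin yp with hS
    have hS0 : 0 < S := by rw [hS]; linarith
    have hqS : q * Real.sin g = S := by rw [hq]; field_simp
    -- multiply by `S`
    have i1 := mul_le_mul_of_nonneg_left hLh hsh.le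
    have i2 := mul_le_mul_of_nonneg_left hLy hsy
    have i3 := mul_le_mul_of_nonneg_left hLg hS0.le
    have i4 : Real.sin hp * (Hg + Hh + Gm) ≤ Real.sin hp * tot :=
      mul_le_mul_of_nonneg_left (by linarith) hsh.le
    have i5 : Real.sin yp * (Hg + Hy + Gm) ≤ Real.sin yp * tot :=
      mul_le_mul_of_nonneg_left (by linarith) hsy
    have i6 : S * (Lt j₁ + r + Gm) ≤ S * tot := by
      have i7 : μ * q * (Real.sin g * Kg + Real.sin hp * Kh + Real.sin yp * Ky) ≤ 0 :=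
        mul_nonpos_of_nonneg_of_nonpos (by positivity) hsin
      have i8 : μ * q * (Real.sin g * Kg) = S * (μ * Kg) := by
        rw [← hqS]
        ring
      have i9 : S * tot = Real.sin hp * tot + Real.sin yp * tot := by rw [hS]; ring
      have i10 : S * (Lt j₁ + r + Gm) = S * Lt j₁ + Real.sin hp * r + Real.sin yp * r +
          Real.sin hp * Gm + Real.sin yp * Gm := by rw [hS]; ring
      have i11 : S * (Hg + ((j₁ * b : ℕ) : ℝ) * Kg) = Real.sin hp * Hg + Real.sin yp * Hg +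
          S * (μ * Kg) := by rw [hS, ← hμ]; ring
      rw [i9, i10]
      rw [i11] at i3
      rw [← i8] at i3
      linarith
    have i7 : Lt j₁ + r + Gm ≤ tot := le_of_mul_le_mul_left i6 hS0
    linarith

end Pool.Agent.Helper54.LN
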