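import Pool.Agent.Helper91.LC.R.First
import Pool.Agent.Helper91.LC.R.ExistsLog
import Pool.Agent.Helper91.LC.R.Coeffs
import Pool.Agent.Helper91.LC.R.FLe
import Pool.Agent.Helper42.LC.MeanW

/-!
# Project LN (MP_599705_an): weighted circle means of the Bloch potential
-/

set_option autoImplicit false

namespace Pool.Agent.Helper54.LN

open Complex Metric Set Filter Topology
open Pool.Agent.Helper91.LC

theorem sqrt_pos4 : (0 : ℝ) < √3 / 4 := by positivity

theorem f_mem {F f : ℂ → ℂ} (hI : Inv F f) {v : ℂ} (hv : v ∈ ball (0 : ℂ) (√3 / 4)) :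
    f v ∈ ball (0 : ℂ) 1 := by
  rw [mem_ball_zero_iff]
  refine (hI.lt v hv).trans ?_
  rw [div_lt_one (by positivity)]
  exact Real.lt_sqrt_of_sq_lt (by norm_num)

/-- the logarithm of `f v / v`. -/
theorem exists_log_div {F f : ℂ → ℂ} (hG : Good F) (hI : Inv F f) : ∃ k : ℂ → ℂ,
    DifferentiableOn ℂ k (ball 0 (√3 / 4)) ∧ k 0 = 0 ∧ deriv k 0 = 0 ∧
    ‖deriv (deriv k) 0‖ ≤ 2 / 3 ∧
    ∀ v ∈ ball (0 : ℂ) (√3 / 4), v * Complex.exp (k v) = f v := by
  obtain ⟨b3, b4, M, hb3, -, hM, -, hF⟩ := Spec.coeffs hG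
  have hρ : (0 : ℝ) < √3 / 4 := sqrt_pos4
  set B : Set ℂ := ball (0 : ℂ) (√3 / 4) with hB
  have hBo : IsOpen B := isOpen_ball
  have h0 : (0 : ℂ) ∈ B := mem_ball_self hρ
  have hnhds : B ∈ nhds (0 : ℂ) := hBo.mem_nhds h0
  have hmaps : ∀ v ∈ B, f v ∈ ball (0 : ℂ) 1 := fun v hv => f_mem hI hv
  have hf1 : deriv f 0 = 1 := by
    have h := Spec.deriv_mul hG hI h0
    rwa [hI.zero, hG.one, one_mul] at h
  set s : ℂ → ℂ := dslope f 0 with hsdef
  have hs : DifferentiableOn ℂ s B := (Complex.differentiableOn_dslope hnhds).mpr hI.diff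
  have hs0 : s 0 = 1 := by
    rw [hsdef, dslope_same, hf1]
  have hfs : ∀ v, f v = v * s v := by
    intro v
    have := sub_smul_dslope f 0 v
    rw [hI.zero, sub_zero, sub_zero, smul_eq_mul] at this
    exact this.symm
  have hsne : ∀ v ∈ B, s v ≠ 0 := by
    intro v hv h
    rcases eq_or_ne v 0 with rfl | hv0
    · rw [hs0] at h
      exact one_ne_zero h
    · have h1 := hI.eq v hv
      rw [hfs v, h, mul_zero, hG.zero] at h1
      exact hv0 h1.symm
  -- `s = 1 + v² Q`
  let Q : ℂ → ℂ := fun v => s v ^ 3 * (-b3 - b4 * f v - f v ^ 2 * M (f v))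
  have hMf : DifferentiableOn ℂ (fun v => M (f v)) B := hM.comp hI.diff hmaps
  have hQ : DifferentiableOn ℂ Q B :=
    (hs.pow 3).mul (((differentiableOn_const (-b3)).sub
      ((differentiableOn_const b4).mul hI.diff)).sub ((hI.diff.pow 2).mul hMf))
  have hQ0 : Q 0 = -b3 := by
    simp only [Q, hs0, hI.zero]
    ring
  have hsQ : ∀ v ∈ B, s v = 1 + v ^ 2 * Q v := by
    intro v hv
    rcases eq_or_ne v 0 with rfl | hv0
    · rw [hs0]; ring
    · have h1 := hF (f v) (hmaps v hv)
      rw [hI.eq v hv] at h1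
      have h2 : f v - v = f v ^ 3 * (-b3 - b4 * f v - f v ^ 2 * M (f v)) := by
        linear_combination -h1
      have h3 : f v - v = v * (v ^ 2 * Q v) := by
        rw [h2]
        simp only [Q]
        have h4 : f v ^ 3 = v ^ 3 * s v ^ 3 := by rw [← mul_pow, ← hfs v]
        rw [h4]
        ring
      have h4 : v * s v = v * (1 + v ^ 2 * Q v) := by
        rw [← hfs v]
        linear_combination h3
      exact mul_left_cancel₀ hv0 h4
  have hQd : ∀ v ∈ B, HasDerivAt Q (deriv Q v) v := fun v hv =>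
    ((hQ v hv).differentiableAt (hBo.mem_nhds hv)).hasDerivAt
  have hQ' : DifferentiableOn ℂ (deriv Q) B := hQ.deriv hBo
  have hsd : ∀ v ∈ B, deriv s v = 2 * v * Q v + v ^ 2 * deriv Q v := by
    intro v hv
    have h1 : HasDerivAt (fun v : ℂ => v ^ 2) (2 * v) v := by
      simpa using hasDerivAt_pow 2 v
    have h2 := (h1.mul (hQd v hv)).const_add 1
    have h3 : s =ᶠ[nhds v] fun v => 1 + v ^ 2 * Q v := by
      filter_upwards [hBo.mem_nhds hv] with w hw using hsQ w hw
    rw [h3.deriv_eq]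
    exact h2.deriv
  have hds : DifferentiableOn ℂ (deriv s) B := hs.deriv hBo
  have hex : DifferentiableOn ℂ (fun v => deriv s v / s v) B := hds.div hs hsne
  obtain ⟨k, hk0, hk⟩ := (hex.isExactOn_ball).with_val_at 0 0
  have hkd : DifferentiableOn ℂ k B := fun v hv => (hk v hv).differentiableAt.differentiableWithinAt
  have hexp : ∀ v ∈ B, Complex.exp (k v) = s v := by
    have hconst : ∀ v ∈ B, s v * Complex.exp (-k v) = 1 := by
      intro v hv
      have hder : ∀ w ∈ B, HasDerivAt (fun w => s w * Complex.exp (-k w)) 0 w := by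
        intro w hw
        have h1 : HasDerivAt s (deriv s w) w :=
          (hs.differentiableAt (hBo.mem_nhds hw)).hasDerivAt
        have h2 := (hk w hw).neg.cexp
        have h3 := h1.mul h2
        have h5 : deriv s w * Complex.exp (-k w) +
            s w * (Complex.exp (-k w) * -(deriv s w / s w)) = 0 := by
          have h6 : s w * (deriv s w / s w) = deriv s w :=
            mul_div_cancel₀ _ (hsne w hw)
          linear_combination -Complex.exp (-k w) * h6
        have h7 : HasDerivAt (fun w => s w * Complex.exp (-k w)) (deriv s w *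
            Complex.exp (-k w) + s w * (Complex.exp (-k w) *
              -(deriv s w / s w))) w := h3
        rw [h5] at h7
        exact h7
      have h4 : s v * Complex.exp (-k v) = s 0 * Complex.exp (-k 0) := by
        refine IsOpen.is_const_of_deriv_eq_zero (𝕜 := ℂ) (f := fun w => s w * Complex.exp (-k w))
          hBo (convex_ball 0 _).isPreconnected ?_ ?_ hv h0
        · intro w hw
          exact (hder w hw).differentiableAt.differentiableWithinAt
        · intro w hw
          exact (hder w hw).deriv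
      rw [h4, hs0, hk0]
      simp
    intro v hv
    have h1 := hconst v hv
    rw [Complex.exp_neg] at h1
    have h2 : Complex.exp (k v) ≠ 0 := Complex.exp_ne_zero _
    field_simp at h1
    exact h1.symm
  have hk1 : deriv k 0 = 0 := by
    rw [(hk 0 h0).deriv, hsd 0 h0]
    simp
  have hk2 : deriv (deriv k) 0 = 2 * Q 0 := by
    have h1 : deriv k =ᶠ[nhds 0] fun v => (2 * v * Q v + v ^ 2 * deriv Q v) / s v := by
      filter_upwards [hnhds] with v hv
      rw [(hk v hv).deriv, hsd v hv]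
    rw [h1.deriv_eq]
    have h2 : HasDerivAt (fun v : ℂ => 2 * v * Q v) (2 * Q 0 + 2 * 0 * deriv Q 0) 0 := by
      have h3 : HasDerivAt (fun v : ℂ => 2 * v) 2 0 := by
        simpa using (hasDerivAt_id (0 : ℂ)).const_mul (2 : ℂ)
      exact h3.mul (hQd 0 h0)
    have h4 : HasDerivAt (fun v : ℂ => v ^ 2 * deriv Q v)
        (2 * 0 * deriv Q 0 + 0 ^ 2 * deriv (deriv Q) 0) 0 := by
      have h3 : HasDerivAt (fun v : ℂ => v ^ 2) (2 * 0) 0 := by
        simpa using hasDerivAt_pow 2 (0 : ℂ)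
      exact h3.mul ((hQ' 0 h0).differentiableAt hnhds).hasDerivAt
    have h5 : HasDerivAt s (deriv s 0) 0 := (hs.differentiableAt hnhds).hasDerivAt
    have h6 := (h2.add h4).div h5 (by rw [hs0]; exact one_ne_zero)
    have h7 := h6.deriv
    rw [hs0] at h7
    refine Eq.trans h7 ?_
    simp
  refine ⟨k, hkd, hk0, hk1, ?_, ?_⟩
  · rw [hk2, hQ0, norm_mul, norm_neg, Complex.norm_ofNat]
    linarith
  · intro v hv
    rw [hexp v hv, ← hfs v]

theorem mean_div {g : ℂ → ℂ} {r : ℝ} (hr : 0 < r) (hg : DifferentiableOn ℂ g (closedBall 0 r)) :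
    Real.circleAverage (fun v => g v / v) 0 r = deriv g 0 := by
  rw [Real.circleAverage_eq_circleIntegral hr.ne']
  have h := hg.circleIntegral_one_div_sub_center_pow_smul hr 1
  have e : (∮ z in C(0, r), (z - 0)⁻¹ • (g z / z)) =
      ∮ z in C(0, r), (1 / (z - 0) ^ (1 + 1)) • g z := by
    refine circleIntegral.integral_congr hr.le (fun z hz => ?_)
    have hz0 : z ≠ 0 := by
      rintro rfl
      simp at hz
      exact hr.ne' hz.symm
    simp only [sub_zero, smul_eq_mul]
    field_simp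
    ring
  rw [e, h, iteratedDeriv_one]
  have hpi : (Real.pi : ℂ) ≠ 0 := by exact_mod_cast Real.pi_ne_zero
  simp only [smul_eq_mul, Nat.factorial]
  push_cast
  field_simp [Complex.I_ne_zero]

/-- weighted mean of the real part of a holomorphic function. -/
theorem mean_weight {g : ℂ → ℂ} {r R : ℝ} (hr : 0 < r) (hrR : r < R)
    (hg : DifferentiableOn ℂ g (ball 0 R)) (a1 a2 : ℂ) :
    Real.circleAverage (fun v => (1 + (a1 * v).re + (a2 * v ^ 2).re) * (g v).re) 0 r =
      (g 0).re + r ^ 2 / 2 * ((starRingEnd ℂ) a1 * deriv g 0).re +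
        r ^ 4 / 4 * ((starRingEnd ℂ) a2 * deriv (deriv g) 0).re := by
  have hg' : DifferentiableOn ℂ g (closedBall 0 r) := hg.mono (closedBall_subset_ball hrR)
  have hgc : ContinuousOn g (sphere 0 r) := hg'.continuousOn.mono sphere_subset_closedBall
  have hne : ∀ z ∈ sphere (0 : ℂ) r, z ≠ 0 := by
    rintro z hz rfl
    simp at hz
    exact hr.ne' hz.symm
  set G0 : ℂ → ℂ := fun v => (1 + a1 / 2 * v + a2 / 2 * v ^ 2) * g v with hG0
  set c1 : ℂ := (starRingEnd ℂ) a1 * (r : ℂ) ^ 2 / 2 with hc1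
  set c2 : ℂ := (starRingEnd ℂ) a2 * (r : ℂ) ^ 4 / 2 with hc2
  have d0 : DifferentiableOn ℂ G0 (closedBall 0 r) := by
    intro z hz
    refine DifferentiableWithinAt.mul ?_ (hg' z hz)
    fun_prop
  have e0 : ContinuousOn G0 (sphere 0 r) := d0.continuousOn.mono sphere_subset_closedBall
  have e1 : ContinuousOn (fun v => c1 * (g v / v)) (sphere 0 r) :=
    continuousOn_const.mul (hgc.div (by fun_prop) hne)
  have e2 : ContinuousOn (fun v => c2 * (g v / v ^ 2)) (sphere 0 r) :=
    continuousOn_const.mul (hgc.div (by fun_prop) fun z hz => pow_ne_zero _ (hne z hz))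
  have i0 : CircleIntegrable G0 0 r := e0.circleIntegrable hr.le
  have i1 : CircleIntegrable (fun v => c1 * (g v / v)) 0 r := e1.circleIntegrable hr.le
  have i2 : CircleIntegrable (fun v => c2 * (g v / v ^ 2)) 0 r := e2.circleIntegrable hr.le
  have i01 : CircleIntegrable (fun v => G0 v + c1 * (g v / v)) 0 r := i0.add i1
  have i012 : CircleIntegrable (fun v => G0 v + c1 * (g v / v) + c2 * (g v / v ^ 2)) 0 r :=
    i01.add i2
  have key : Real.circleAverage (fun v => (1 + (a1 * v).re + (a2 * v ^ 2).re) * (g v).re) 0 r =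
      Real.circleAverage (Complex.reCLM ∘
        (fun v => G0 v + c1 * (g v / v) + c2 * (g v / v ^ 2))) 0 r := by
    refine Real.circleAverage_congr_sphere (fun z hz => ?_)
    rw [abs_of_pos hr] at hz
    have hz0 := hne z hz
    have hzz : z * (starRingEnd ℂ) z = (r : ℂ) ^ 2 := by
      rw [Complex.mul_conj, Complex.normSq_eq_norm_sq]
      have : ‖z‖ = r := by simpa using hz
      rw [this]
      norm_cast
    have h1 : c1 * (g z / z) = (starRingEnd ℂ) (a1 * z) * g z / 2 := by
      rw [hc1, ← hzz, map_mul]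
      field_simp
    have h2 : c2 * (g z / z ^ 2) = (starRingEnd ℂ) (a2 * z ^ 2) * g z / 2 := by
      have : (r : ℂ) ^ 4 = (z * (starRingEnd ℂ) z) ^ 2 := by rw [hzz]; ring
      rw [hc2, this, map_mul, map_pow]
      field_simp
    have h3 : G0 z = g z + (a1 * z) * g z / 2 + (a2 * z ^ 2) * g z / 2 := by
      simp only [hG0]
      ring
    have h4 : ∀ A B : ℂ, ((A * B / 2) + (starRingEnd ℂ) A * B / 2).re = A.re * B.re := by
      intro A B
      have : A * B / 2 + (starRingEnd ℂ) A * B / 2 = ((A.re : ℝ) : ℂ) * B := by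
        have h5 : A + (starRingEnd ℂ) A = ((2 * A.re : ℝ) : ℂ) := Complex.add_conj A
        have h6 : A * B / 2 + (starRingEnd ℂ) A * B / 2 = (A + (starRingEnd ℂ) A) * B / 2 := by
          ring
        rw [h6, h5]
        push_cast
        ring
      rw [this, Complex.re_ofReal_mul]
    simp only [Function.comp, Complex.reCLM_apply]
    rw [h1, h2, h3]
    have h5 : g z + a1 * z * g z / 2 + a2 * z ^ 2 * g z / 2 + (starRingEnd ℂ) (a1 * z) * g z / 2 +
        (starRingEnd ℂ) (a2 * z ^ 2) * g z / 2 = g z + ((a1 * z) * g z / 2 +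
          (starRingEnd ℂ) (a1 * z) * g z / 2) + ((a2 * z ^ 2) * g z / 2 +
          (starRingEnd ℂ) (a2 * z ^ 2) * g z / 2) := by ring
    rw [h5, Complex.add_re, Complex.add_re, h4, h4]
    ring
  rw [key, ContinuousLinearMap.circleAverage_comp_comm _ i012,
    Real.circleAverage_fun_add i01 i2, Real.circleAverage_fun_add i0 i1,
    Pool.Agent.Helper42.LC.mean_holo hr d0]
  have h3 : Real.circleAverage (fun v => c1 * (g v / v)) 0 r = c1 * deriv g 0 := by
    have := Real.circleAverage_fun_smul (f := fun v => g v / v) (c := 0) (R := r) (a := c1)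
    simp only [smul_eq_mul] at this
    rw [this, mean_div hr hg']
  have h4 : Real.circleAverage (fun v => c2 * (g v / v ^ 2)) 0 r =
      c2 * (deriv (deriv g) 0 / 2) := by
    have := Real.circleAverage_fun_smul (f := fun v => g v / v ^ 2) (c := 0) (R := r) (a := c2)
    simp only [smul_eq_mul] at this
    rw [this, Pool.Agent.Helper42.LC.mean_div_sq hr hg']
  rw [h3, h4]
  simp only [hG0, Complex.reCLM_apply, Complex.add_re]
  have e4 : c1 * deriv g 0 = ((r ^ 2 / 2 : ℝ) : ℂ) * ((starRingEnd ℂ) a1 * deriv g 0) := by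
    rw [hc1]
    push_cast
    ring
  have e5 : c2 * (deriv (deriv g) 0 / 2) =
      ((r ^ 4 / 4 : ℝ) : ℂ) * ((starRingEnd ℂ) a2 * deriv (deriv g) 0) := by
    rw [hc2]
    push_cast
    ring
  rw [e4, e5, Complex.re_ofReal_mul, Complex.re_ofReal_mul]
  norm_num

theorem mean_weight_le {g : ℂ → ℂ} {r R : ℝ} (hr : 0 < r) (hrR : r < R)
    (hg : DifferentiableOn ℂ g (ball 0 R)) (h0 : g 0 = 0) (h1 : deriv g 0 = 0) (a1 a2 : ℂ) {C : ℝ}
    (h2 : ‖deriv (deriv g) 0‖ ≤ C) :
    Real.circleAverage (fun v => (1 + (a1 * v).re + (a2 * v ^ 2).re) * (g v).re) 0 r ≤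
      r ^ 4 / 4 * (‖a2‖ * C) := by
  rw [mean_weight hr hrR hg, h0, h1, mul_zero, Complex.zero_re]
  have h3 : ((starRingEnd ℂ) a2 * deriv (deriv g) 0).re ≤ ‖a2‖ * C := by
    refine (Complex.re_le_norm _).trans ?_
    rw [norm_mul, RCLike.norm_conj]
    exact mul_le_mul_of_nonneg_left h2 (norm_nonneg _)
  have h4 : r ^ 4 / 4 * ((starRingEnd ℂ) a2 * deriv (deriv g) 0).re ≤
      r ^ 4 / 4 * (‖a2‖ * C) := mul_le_mul_of_nonneg_left h3 (by positivity)
  linarith

/-- Weighted mean of the Bloch potential on a circle `‖v‖ = r`. -/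
theorem mean_P_le {F f : ℂ → ℂ} (hG : Good F) (hI : Inv F f) {r : ℝ} (hr : 0 < r)
    (hrR : r < √3 / 4) {a1 a2 : ℂ}
    (hW : ∀ v : ℂ, ‖v‖ = r → 0 ≤ 1 + (a1 * v).re + (a2 * v ^ 2).re) {α β : ℝ} (hβ : 0 ≤ β)
    (hab : ∀ v : ℂ, ‖v‖ = r →
      - Real.log (1 - ‖f v‖ ^ 2) ≤ α + β * (Real.log ‖f v‖ - Real.log r)) :
    Real.circleAverage (fun v => (1 + (a1 * v).re + (a2 * v ^ 2).re) * P F (f v)) 0 r ≤
      α + r ^ 4 / 4 * (‖a2‖ * (2 + β * (2 / 3))) := by
  obtain ⟨h, hd, h0, h1, h2, hexp⟩ := Spec.exists_log hG hI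
  obtain ⟨k, kd, k0, k1, k2, kexp⟩ := exists_log_div hG hI
  have hρ : (0 : ℝ) < √3 / 4 := sqrt_pos4
  have hB0 : (0 : ℂ) ∈ ball (0 : ℂ) (√3 / 4) := mem_ball_self hρ
  have hBo : IsOpen (ball (0 : ℂ) (√3 / 4)) := isOpen_ball
  have hball : ∀ v ∈ sphere (0 : ℂ) |r|, ‖v‖ = r ∧ v ∈ ball (0 : ℂ) (√3 / 4) := by
    intro v hv
    rw [mem_sphere_zero_iff_norm, abs_of_pos hr] at hv
    refine ⟨hv, ?_⟩
    rw [mem_ball_zero_iff, hv]
    exact hrR
  have hball' : ∀ v ∈ sphere (0 : ℂ) r, ‖v‖ = r ∧ v ∈ ball (0 : ℂ) (√3 / 4) := by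
    intro v hv
    apply hball
    rwa [abs_of_pos hr]
  set g : ℂ → ℂ := fun v => h v + (β : ℂ) * k v with hg
  have gd : DifferentiableOn ℂ g (ball 0 (√3 / 4)) := hd.add (kd.const_mul _)
  have g0 : g 0 = 0 := by simp [hg, h0, k0]
  have hdg : ∀ v ∈ ball (0 : ℂ) (√3 / 4), deriv g v = deriv h v + (β : ℂ) * deriv k v := by
    intro v hv
    have a := (hd.differentiableAt (hBo.mem_nhds hv)).hasDerivAt
    have b := (kd.differentiableAt (hBo.mem_nhds hv)).hasDerivAt
    exact (a.add (b.const_mul (β : ℂ))).deriv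
  have g1 : deriv g 0 = 0 := by
    rw [hdg 0 hB0, h1, k1]
    simp
  have g2 : ‖deriv (deriv g) 0‖ ≤ 2 + β * (2 / 3) := by
    have e1 : deriv g =ᶠ[nhds 0] fun v => deriv h v + (β : ℂ) * deriv k v := by
      filter_upwards [hBo.mem_nhds hB0] with v hv using hdg v hv
    have a := ((hd.deriv hBo).differentiableAt (hBo.mem_nhds hB0)).hasDerivAt
    have b := ((kd.deriv hBo).differentiableAt (hBo.mem_nhds hB0)).hasDerivAt
    have e2 : deriv (fun v => deriv h v + (β : ℂ) * deriv k v) 0 =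
        deriv (deriv h) 0 + (β : ℂ) * deriv (deriv k) 0 := (a.add (b.const_mul (β : ℂ))).deriv
    rw [e1.deriv_eq, e2]
    refine (norm_add_le _ _).trans ?_
    rw [norm_mul, Complex.norm_real, Real.norm_of_nonneg hβ]
    exact add_le_add h2 (mul_le_mul_of_nonneg_left k2 hβ)
  -- pointwise bound
  have hpt : ∀ v ∈ sphere (0 : ℂ) |r|,
      (1 + (a1 * v).re + (a2 * v ^ 2).re) * P F (f v) ≤
      α * (1 + (a1 * v).re + (a2 * v ^ 2).re) +
        (1 + (a1 * v).re + (a2 * v ^ 2).re) * (g v).re := by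
    intro v hv
    obtain ⟨hv1, hv2⟩ := hball v hv
    have hv0 : v ≠ 0 := by
      rintro rfl
      rw [norm_zero] at hv1
      exact hr.ne hv1
    have e1 : P F (f v) = (h v).re - Real.log (1 - ‖f v‖ ^ 2) := by
      rw [Spec.P_eq hG hI hv2, ← hexp v hv2, Complex.norm_exp, Real.log_exp]
    have e2 : Real.log ‖f v‖ = Real.log r + (k v).re := by
      rw [← kexp v hv2, norm_mul, Complex.norm_exp, Real.log_mul (norm_ne_zero_iff.2 hv0)
        (Real.exp_pos _).ne', Real.log_exp, hv1]
    have e3 := hab v hv1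
    rw [e2] at e3
    have e4 : (g v).re = (h v).re + β * (k v).re := by
      simp only [hg, Complex.add_re]
      rw [Complex.re_ofReal_mul]
    have e5 : P F (f v) ≤ α + (g v).re := by
      rw [e1, e4]
      linarith
    calc (1 + (a1 * v).re + (a2 * v ^ 2).re) * P F (f v) ≤
        (1 + (a1 * v).re + (a2 * v ^ 2).re) * (α + (g v).re) :=
          mul_le_mul_of_nonneg_left e5 (hW v hv1)
      _ = _ := by ring
  have hWc : Continuous fun v : ℂ => 1 + (a1 * v).re + (a2 * v ^ 2).re := by fun_prop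
  have hfc : ContinuousOn f (sphere (0 : ℂ) r) := fun v hv =>
    (hI.diff.continuousOn.mono fun w hw => (hball' w hw).2) v hv
  have hhc : ContinuousOn h (sphere (0 : ℂ) r) := fun v hv =>
    (hd.continuousOn.mono fun w hw => (hball' w hw).2) v hv
  have hgc : ContinuousOn g (sphere (0 : ℂ) r) := fun v hv =>
    (gd.continuousOn.mono fun w hw => (hball' w hw).2) v hv
  have hPc : ContinuousOn (fun v => P F (f v)) (sphere (0 : ℂ) r) := by
    have h3 : ContinuousOn (fun v => (h v).re - Real.log (1 - ‖f v‖ ^ 2)) (sphere (0 : ℂ) r) := by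
      refine (Complex.continuous_re.comp_continuousOn hhc).sub (ContinuousOn.log ?_ ?_)
      · exact continuousOn_const.sub (hfc.norm.pow 2)
      · intro v hv
        have h4 := f_mem hI (hball' v hv).2
        rw [mem_ball_zero_iff] at h4
        have h5 := norm_nonneg (f v)
        have : 0 < 1 - ‖f v‖ ^ 2 := by nlinarith
        exact this.ne'
    refine h3.congr fun v hv => ?_
    simp only
    rw [Spec.P_eq hG hI (hball' v hv).2, ← hexp v (hball' v hv).2, Complex.norm_exp,
      Real.log_exp]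
  have i1 : CircleIntegrable (fun v => (1 + (a1 * v).re + (a2 * v ^ 2).re) * P F (f v)) 0 r :=
    (hWc.continuousOn.mul hPc).circleIntegrable hr.le
  have i2 : CircleIntegrable (fun v => α * (1 + (a1 * v).re + (a2 * v ^ 2).re)) 0 r :=
    (continuousOn_const.mul hWc.continuousOn).circleIntegrable hr.le
  have i3 : CircleIntegrable (fun v => (1 + (a1 * v).re + (a2 * v ^ 2).re) * (g v).re) 0 r :=
    (hWc.continuousOn.mul (Complex.continuous_re.comp_continuousOn hgc)).circleIntegrable hr.le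
  refine (Real.circleAverage_mono i1 (i2.add i3) hpt).trans ?_
  rw [Real.circleAverage_add i2 i3]
  have m1 : Real.circleAverage (fun v => α * (1 + (a1 * v).re + (a2 * v ^ 2).re)) 0 r = α := by
    have h4 := mean_weight (g := fun _ => (1 : ℂ)) hr hrR (differentiableOn_const _) a1 a2
    have h5 : deriv (fun _ : ℂ => (1 : ℂ)) = fun _ => 0 := by
      funext z
      exact deriv_const z 1
    have h6 : deriv (deriv fun _ : ℂ => (1 : ℂ)) 0 = 0 := by
      rw [h5]
      exact deriv_const 0 0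
    rw [h6, h5] at h4
    simp only [Complex.one_re, mul_one, mul_zero, Complex.zero_re, add_zero] at h4
    have h8 := Real.circleAverage_fun_smul (𝕜 := ℝ) (a := α) (c := (0 : ℂ)) (R := r)
      (f := fun v : ℂ => 1 + (a1 * v).re + (a2 * v ^ 2).re)
    simp only [smul_eq_mul] at h8
    rw [h8, h4, mul_one]
  have m2 := mean_weight_le hr hrR gd g0 g1 a1 a2 g2
  rw [m1]
  linarith

end Pool.Agent.Helper54.LN
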