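import Pool.Agent.Helper54.LN.Mean

/-!
# Project LN (MP_599705_an): the radius 0.4
-/

set_option autoImplicit false

namespace Pool.Agent.Helper54.LN

open Complex Metric Set Filter Topology
open Pool.Agent.Helper91.LC

/-- growth from above -/
theorem growth_up {F : ℂ → ℂ} (hG : Good F) {z : ℂ} (hz : ‖z‖ < 1) :
    ‖F z‖ ≤ (Real.log (1 + ‖z‖) - Real.log (1 - ‖z‖)) / 2 := by
  set x : ℝ := ‖z‖ with hx
  have hx0 : 0 ≤ x := norm_nonneg z
  have hmem : ∀ t ∈ Icc (0 : ℝ) 1, (t : ℂ) * z ∈ ball (0 : ℂ) 1 := by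
    intro t ht
    rw [mem_ball_zero_iff, norm_mul, Complex.norm_real, Real.norm_of_nonneg ht.1]
    nlinarith [ht.2]
  have hn : ∀ t ∈ Icc (0 : ℝ) 1, ‖(t : ℂ) * z‖ = t * x := by
    intro t ht
    rw [norm_mul, Complex.norm_real, Real.norm_of_nonneg ht.1]
  have hpos : ∀ t ∈ Icc (0 : ℝ) 1, 0 < 1 - t * x := by
    intro t ht
    nlinarith [ht.2]
  have hpos' : ∀ t ∈ Icc (0 : ℝ) 1, 0 < 1 + t * x := by
    intro t ht
    nlinarith [ht.1, mul_nonneg ht.1 hx0]
  have hd : ∀ t ∈ Icc (0 : ℝ) 1, HasDerivAt (fun t : ℝ => F ((t : ℂ) * z))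
      (deriv F ((t : ℂ) * z) * z) t := by
    intro t ht
    have h1 : HasDerivAt F (deriv F ((t : ℂ) * z)) ((t : ℂ) * z) :=
      (hG.diff.differentiableAt (isOpen_ball.mem_nhds (hmem t ht))).hasDerivAt
    have h2 : HasDerivAt (fun t : ℂ => t * z) z (t : ℂ) := by
      simpa using (hasDerivAt_id (t : ℂ)).mul_const z
    have h3 : HasDerivAt (fun t : ℂ => F (t * z)) (deriv F ((t : ℂ) * z) * z) (t : ℂ) :=
      HasDerivAt.comp (t : ℂ) h1 h2
    exact h3.comp_ofReal
  have hB : ∀ t ∈ Icc (0 : ℝ) 1,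
      HasDerivAt (fun t : ℝ => (Real.log (1 + t * x) - Real.log (1 - t * x)) / 2)
        (x / (1 - (t * x) ^ 2)) t := by
    intro t ht
    have h1 : HasDerivAt (fun t : ℝ => 1 + t * x) x t := by
      simpa using ((hasDerivAt_id t).mul_const x).const_add 1
    have h2 : HasDerivAt (fun t : ℝ => 1 - t * x) (-x) t := by
      simpa using ((hasDerivAt_id t).mul_const x).const_sub 1
    have h3 := ((h1.log (hpos' t ht).ne').sub (h2.log (hpos t ht).ne')).div_const 2
    refine h3.congr_deriv ?_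
    have e1 := (hpos t ht).ne'
    have e2 := (hpos' t ht).ne'
    have e3 : 1 - (t * x) ^ 2 = (1 - t * x) * (1 + t * x) := by ring
    rw [e3, div_sub_div _ _ e2 e1, div_div,
      div_eq_div_iff (mul_ne_zero (mul_ne_zero e2 e1) two_ne_zero) (mul_ne_zero e1 e2)]
    ring
  have h := image_norm_le_of_norm_deriv_right_le_deriv_boundary' (a := (0 : ℝ)) (b := 1)
    (f := fun t : ℝ => F ((t : ℂ) * z)) (f' := fun t => deriv F ((t : ℂ) * z) * z)
    (B := fun t : ℝ => (Real.log (1 + t * x) - Real.log (1 - t * x)) / 2)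
    (B' := fun t => x / (1 - (t * x) ^ 2))
    (fun t ht => (hd t ht).continuousAt.continuousWithinAt)
    (fun t ht => (hd t (Ico_subset_Icc_self ht)).hasDerivWithinAt)
    (by simp [hG.zero])
    (fun t ht => (hB t ht).continuousAt.continuousWithinAt)
    (fun t ht => (hB t (Ico_subset_Icc_self ht)).hasDerivWithinAt)
    (by
      intro t ht
      have ht' := Ico_subset_Icc_self ht
      have h1 := hG.bd _ (hmem t ht')
      rw [hn t ht'] at h1
      have h2 : 0 < 1 - (t * x) ^ 2 := by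
        have e3 : 1 - (t * x) ^ 2 = (1 - t * x) * (1 + t * x) := by ring
        rw [e3]
        exact mul_pos (hpos t ht') (hpos' t ht')
      rw [norm_mul, le_div_iff₀ h2]
      calc ‖deriv F ((t : ℂ) * z)‖ * ‖z‖ * (1 - (t * x) ^ 2) =
          x * (‖deriv F ((t : ℂ) * z)‖ * (1 - (t * x) ^ 2)) := by rw [← hx]; ring
        _ ≤ x * 1 := mul_le_mul_of_nonneg_left h1 hx0
        _ = x := mul_one x)
    (right_mem_Icc.2 zero_le_one)
  simpa using h

/-- lower bound for the local inverse -/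
theorem f_ge {F f : ℂ → ℂ} (hG : Good F) (hI : Inv F f) {x : ℝ}
    (hx1 : x < 1) {v : ℂ} (hv : v ∈ ball (0 : ℂ) (√3 / 4))
    (hvx : (Real.log (1 + x) - Real.log (1 - x)) / 2 ≤ ‖v‖) : x ≤ ‖f v‖ := by
  by_contra hcon
  push Not at hcon
  have h1 := growth_up hG (z := f v) (hcon.trans hx1)
  rw [hI.eq v hv] at h1
  have h0 := norm_nonneg (f v)
  have h2 : Real.log (1 + ‖f v‖) < Real.log (1 + x) := Real.log_lt_log (by linarith) (by linarith)
  have h3 : Real.log (1 - x) < Real.log (1 - ‖f v‖) := Real.log_lt_log (by linarith) (by linarith)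
  linarith

theorem f_ge_04 {F f : ℂ → ℂ} (hG : Good F) (hI : Inv F f) {v : ℂ} (hv : ‖v‖ = 0.4) :
    0.37987 ≤ ‖f v‖ := by
  have ha := Pool.Agent.Helper91.LC.R88FLe.lt_sqrt3
  refine f_ge hG hI (by norm_num) ?_ ?_
  · rw [mem_ball_zero_iff, hv]
    linarith
  · rw [hv, ← Real.log_div (by norm_num) (by norm_num)]
    have h1 : Real.log ((1 + 0.37987) / (1 - 0.37987)) ≤ 0.8 := by
      rw [Real.log_le_iff_le_exp (by norm_num)]
      have h2 : Real.exp 0.8 = (Real.exp 1 ^ 4) ^ (1 / 5 : ℝ) := by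
        rw [← Real.exp_nat_mul, ← Real.exp_mul]
        norm_num
      rw [h2]
      have h3 : (2.7182818283 : ℝ) < Real.exp 1 := Real.exp_one_gt_d9
      have h4 : ((1 + 0.37987) / (1 - 0.37987) : ℝ) =
          (((1 + 0.37987) / (1 - 0.37987)) ^ 5) ^ (1 / 5 : ℝ) := by
        rw [← Real.rpow_natCast, ← Real.rpow_mul (by norm_num)]
        norm_num
      rw [h4]
      refine Real.rpow_le_rpow (by norm_num) ?_ (by norm_num)
      calc ((1 + 0.37987) / (1 - 0.37987) : ℝ) ^ 5 ≤ 2.7182818283 ^ 4 := by norm_num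
        _ ≤ Real.exp 1 ^ 4 := pow_le_pow_left₀ (by norm_num) h3.le 4
    linarith

theorem f_le_04 {F f : ℂ → ℂ} (hG : Good F) (hI : Inv F f) {v : ℂ} (hv : ‖v‖ = 0.4) :
    ‖f v‖ ≤ 0.46031 :=
  Pool.Agent.Helper91.LC.R88FLe.f_le_num hG hI (y := 0.4) (by norm_num) (by norm_num) (by norm_num) (by norm_num) (by norm_num)
    (by norm_num) hv.le

theorem log_a : -0.103281 ≤ Real.log 0.901875 := by
  have h := Real.abs_log_sub_add_sum_range_le (x := 0.098125) (by rw [abs_lt]; norm_num) 5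
  rw [abs_of_pos (by norm_num : (0 : ℝ) < 0.098125)] at h
  simp only [Finset.sum_range_succ, Finset.sum_range_zero] at h
  norm_num at h
  have h4 := (abs_le.mp h).1
  norm_num at h4 ⊢
  linarith

theorem log_b : -0.155839 ≤ Real.log 0.8557 := by
  have h := Real.abs_log_sub_add_sum_range_le (x := 0.1443) (by rw [abs_lt]; norm_num) 7
  rw [abs_of_pos (by norm_num : (0 : ℝ) < 0.1443)] at h
  simp only [Finset.sum_range_succ, Finset.sum_range_zero] at h
  norm_num at h
  have h4 := (abs_le.mp h).1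
  norm_num at h4 ⊢
  linarith

theorem log_c : 0.28089 ≤ Real.log 1.3243125 := by
  have h := Real.abs_log_sub_add_sum_range_le (x := 0.24489) (by rw [abs_lt]; norm_num) 9
  rw [abs_of_pos (by norm_num : (0 : ℝ) < 0.24489)] at h
  simp only [Finset.sum_range_succ, Finset.sum_range_zero] at h
  norm_num at h
  have h4 := (abs_le.mp h).2
  have h5 : Real.log (1.3243125)⁻¹ ≤ Real.log 0.75511 :=
    Real.log_le_log (by norm_num) (by norm_num)
  rw [Real.log_inv] at h5
  norm_num at h4 h5 ⊢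
  linarith

theorem log_d : -0.238126 ≤ Real.log 0.78811 := by
  have h := Real.abs_log_sub_add_sum_range_le (x := 0.21189) (by rw [abs_lt]; norm_num) 8
  rw [abs_of_pos (by norm_num : (0 : ℝ) < 0.21189)] at h
  simp only [Finset.sum_range_succ, Finset.sum_range_zero] at h
  norm_num at h
  have h4 := (abs_le.mp h).1
  norm_num at h4 ⊢
  linarith

/-- two-point bound -/
theorem two_point {y : ℝ} (h0 : 0.1443 ≤ y) (h1 : y ≤ 0.21189) :
    - Real.log (1 - y) ≤ 0.178 + 0.2142 * (Real.log y - Real.log 0.16) := by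
  have hc := strictConcaveOn_log_Ioi.concaveOn
  set s : ℝ := (y - 0.1443) / 0.06759 with hs
  have hs0 : 0 ≤ s := by rw [hs]; apply div_nonneg <;> linarith
  have hs1 : 0 ≤ 1 - s := by
    have : s ≤ 1 := by rw [hs, div_le_one (by norm_num)]; linarith
    linarith
  have hy : y = (1 - s) * 0.1443 + s * 0.21189 := by
    rw [hs]
    field_simp
    ring
  have k1 := hc.2 (x := 0.1443) (by rw [mem_Ioi]; norm_num) (y := 0.21189)
    (by rw [mem_Ioi]; norm_num) hs1 hs0 (by ring)
  have k2 := hc.2 (x := 0.8557) (by rw [mem_Ioi]; norm_num) (y := 0.78811)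
    (by rw [mem_Ioi]; norm_num) hs1 hs0 (by ring)
  simp only [smul_eq_mul] at k1 k2
  rw [← hy] at k1
  have hy' : (1 - s) * 0.8557 + s * 0.78811 = 1 - y := by
    rw [hy]
    ring
  rw [hy'] at k2
  have e1 : Real.log 0.1443 = Real.log 0.16 + Real.log 0.901875 := by
    rw [← Real.log_mul (by norm_num) (by norm_num)]
    norm_num
  have e2 : Real.log 0.21189 = Real.log 0.16 + Real.log 1.3243125 := by
    rw [← Real.log_mul (by norm_num) (by norm_num)]
    norm_num
  rw [e1, e2] at k1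
  have ha := log_a
  have hb := log_b
  have hc := log_c
  have hd := log_d
  have m1 : 0 ≤ (1 - s) * (0.178 + 0.2142 * Real.log 0.901875 + Real.log 0.8557) :=
    mul_nonneg hs1 (by linarith)
  have m2 : 0 ≤ s * (0.178 + 0.2142 * Real.log 1.3243125 + Real.log 0.78811) :=
    mul_nonneg hs0 (by linarith)
  nlinarith

/-- **Weighted mean of the Bloch potential at radius `0.4`.** -/
theorem mean_04 {F f : ℂ → ℂ} (hG : Good F) (hI : Inv F f) {a1 a2 : ℂ}
    (hW : ∀ v : ℂ, ‖v‖ = 0.4 → 0 ≤ 1 + (a1 * v).re + (a2 * v ^ 2).re) :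
    Real.circleAverage (fun v => (1 + (a1 * v).re + (a2 * v ^ 2).re) * P F (f v)) 0 0.4 ≤
      0.178 + 0.01463 * ‖a2‖ := by
  have ha := Pool.Agent.Helper91.LC.R88FLe.lt_sqrt3
  have h := mean_P_le hG hI (r := 0.4) (by norm_num) (by linarith) hW (α := 0.178)
    (β := 0.4284) (by norm_num) (by
      intro v hv
      have h1 := f_ge_04 hG hI hv
      have h2 := f_le_04 hG hI hv
      have h3 := two_point (y := ‖f v‖ ^ 2) (by nlinarith) (by nlinarith)
      rw [Real.log_pow] at h3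
      have h4 : Real.log 0.16 = 2 * Real.log 0.4 := by
        rw [show (0.16 : ℝ) = 0.4 ^ 2 by norm_num, Real.log_pow]
        norm_num
      rw [h4] at h3
      push_cast at h3
      linarith)
  refine h.trans ?_
  have := norm_nonneg a2
  norm_num
  linarith

end Pool.Agent.Helper54.LN
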