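import Pool.Agent.Helper54.LN.Num04

/-!
# Project LN (MP_599705_an): the radius 0.42
-/

set_option autoImplicit false

namespace Pool.Agent.Helper54.LN

open Complex Metric Set Filter Topology
open Pool.Agent.Helper91.LC

theorem ball_042 {v : ℂ} (hv : ‖v‖ = 0.42) : v ∈ ball (0 : ℂ) (√3 / 4) := by
  have ha := Pool.Agent.Helper91.LC.R88FLe.lt_sqrt3
  rw [mem_ball_zero_iff, hv]
  linarith

theorem f_ge_042 {F f : ℂ → ℂ} (hG : Good F) (hI : Inv F f) {v : ℂ} (hv : ‖v‖ = 0.42) :
    0.3969 ≤ ‖f v‖ := by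
  refine f_ge hG hI (by norm_num) (ball_042 hv) ?_
  rw [hv, ← Real.log_div (by norm_num) (by norm_num)]
  have h1 : Real.log ((1 + 0.3969) / (1 - 0.3969)) ≤ 0.84 := by
    rw [Real.log_le_iff_le_exp (by norm_num)]
    have h2 : Real.exp 0.84 = (Real.exp 1 ^ 21) ^ (1 / 25 : ℝ) := by
      rw [← Real.exp_nat_mul, ← Real.exp_mul]
      norm_num
    rw [h2]
    have h3 : (2.7182818283 : ℝ) < Real.exp 1 := Real.exp_one_gt_d9
    have h4 : ((1 + 0.3969) / (1 - 0.3969) : ℝ) =
        (((1 + 0.3969) / (1 - 0.3969)) ^ 25) ^ (1 / 25 : ℝ) := by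
      rw [← Real.rpow_natCast, ← Real.rpow_mul (by norm_num)]
      norm_num
    rw [h4]
    refine Real.rpow_le_rpow (by norm_num) ?_ (by norm_num)
    calc ((1 + 0.3969) / (1 - 0.3969) : ℝ) ^ 25 ≤ 2.7182818283 ^ 21 := by norm_num
      _ ≤ Real.exp 1 ^ 21 := pow_le_pow_left₀ (by norm_num) h3.le 21
  linarith

theorem f_le_042 {F f : ℂ → ℂ} (hG : Good F) (hI : Inv F f) {v : ℂ} (hv : ‖v‖ = 0.42) :
    ‖f v‖ ≤ 0.5066 := by
  have ha := Pool.Agent.Helper91.LC.R88FLe.sqrt3_lt
  have hb := Pool.Agent.Helper91.LC.R88FLe.lt_sqrt3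
  have h0 : 0 < √3 := by positivity
  have hx1 : (0.5066 : ℝ) < 1 / √3 := by
    rw [lt_div_iff₀ h0]
    nlinarith
  refine Pool.Agent.Helper91.LC.R88FLe.f_le hG hI (by norm_num) hx1 (ball_042 hv) ?_
  obtain ⟨h1, h2⟩ := Pool.Agent.Helper91.LC.R88FLe.m_eq hx1
  rw [h1, hv, le_div_iff₀ h2]
  nlinarith

theorem log42_a : -0.113331 ≤ Real.log (25 / 28) := by
  have h := Real.abs_log_sub_add_sum_range_le (x := 3 / 28) (by rw [abs_lt]; norm_num) 6
  rw [abs_of_pos (by norm_num : (0 : ℝ) < 3 / 28)] at h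
  simp only [Finset.sum_range_succ, Finset.sum_range_zero] at h
  norm_num at h
  have h4 := (abs_le.mp h).1
  norm_num at h4 ⊢
  linarith

theorem log42_b : -0.171383 ≤ Real.log 0.8425 := by
  have h := Real.abs_log_sub_add_sum_range_le (x := 0.1575) (by rw [abs_lt]; norm_num) 8
  rw [abs_of_pos (by norm_num : (0 : ℝ) < 0.1575)] at h
  simp only [Finset.sum_range_succ, Finset.sum_range_zero] at h
  norm_num at h
  have h4 := (abs_le.mp h).1
  norm_num at h4 ⊢
  linarith

theorem log42_c : 0.374953 ≤ Real.log (0.25665 / 0.1764) := by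
  have h := Real.abs_log_sub_add_sum_range_le (x := 0.31268) (by rw [abs_lt]; norm_num) 13
  rw [abs_of_pos (by norm_num : (0 : ℝ) < 0.31268)] at h
  simp only [Finset.sum_range_succ, Finset.sum_range_zero] at h
  norm_num at h
  have h4 := (abs_le.mp h).2
  have h5 : Real.log (0.25665 / 0.1764 : ℝ)⁻¹ ≤ Real.log 0.68732 :=
    Real.log_le_log (by norm_num) (by norm_num)
  rw [Real.log_inv] at h5
  norm_num at h4 h5 ⊢
  linarith

theorem log42_d : -0.296590 ≤ Real.log 0.74335 := by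
  have h := Real.abs_log_sub_add_sum_range_le (x := 0.25665) (by rw [abs_lt]; norm_num) 11
  rw [abs_of_pos (by norm_num : (0 : ℝ) < 0.25665)] at h
  simp only [Finset.sum_range_succ, Finset.sum_range_zero] at h
  norm_num at h
  have h4 := (abs_le.mp h).1
  norm_num at h4 ⊢
  linarith

/-- two-point bound -/
theorem two_point_042 {y : ℝ} (h0 : 0.1575 ≤ y) (h1 : y ≤ 0.25665) :
    - Real.log (1 - y) ≤ 0.2005 + 0.2564 * (Real.log y - Real.log 0.1764) := by
  have hc := strictConcaveOn_log_Ioi.concaveOn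
  set s : ℝ := (y - 0.1575) / 0.09915 with hs
  have hs0 : 0 ≤ s := by rw [hs]; apply div_nonneg <;> linarith
  have hs1 : 0 ≤ 1 - s := by
    have : s ≤ 1 := by rw [hs, div_le_one (by norm_num)]; linarith
    linarith
  have hy : y = (1 - s) * 0.1575 + s * 0.25665 := by
    rw [hs]
    field_simp
    ring
  have k1 := hc.2 (x := 0.1575) (by rw [mem_Ioi]; norm_num) (y := 0.25665)
    (by rw [mem_Ioi]; norm_num) hs1 hs0 (by ring)
  have k2 := hc.2 (x := 0.8425) (by rw [mem_Ioi]; norm_num) (y := 0.74335)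
    (by rw [mem_Ioi]; norm_num) hs1 hs0 (by ring)
  simp only [smul_eq_mul] at k1 k2
  rw [← hy] at k1
  have hy' : (1 - s) * 0.8425 + s * 0.74335 = 1 - y := by
    rw [hy]
    ring
  rw [hy'] at k2
  have e1 : Real.log 0.1575 = Real.log 0.1764 + Real.log (25 / 28) := by
    rw [← Real.log_mul (by norm_num) (by norm_num)]
    norm_num
  have e2 : Real.log 0.25665 = Real.log 0.1764 + Real.log (0.25665 / 0.1764) := by
    rw [← Real.log_mul (by norm_num) (by norm_num)]
    norm_num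
  rw [e1, e2] at k1
  have ha := log42_a
  have hb := log42_b
  have hc := log42_c
  have hd := log42_d
  have m1 : 0 ≤ (1 - s) * (0.2005 + 0.2564 * Real.log (25 / 28) + Real.log 0.8425) :=
    mul_nonneg hs1 (by linarith)
  have m2 : 0 ≤ s * (0.2005 + 0.2564 * Real.log (0.25665 / 0.1764) + Real.log 0.74335) :=
    mul_nonneg hs0 (by linarith)
  nlinarith

/-- **Weighted mean of the Bloch potential at radius `0.42`.** -/
theorem mean_042 {F f : ℂ → ℂ} (hG : Good F) (hI : Inv F f) {a1 a2 : ℂ}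
    (hW : ∀ v : ℂ, ‖v‖ = 0.42 → 0 ≤ 1 + (a1 * v).re + (a2 * v ^ 2).re) :
    Real.circleAverage (fun v => (1 + (a1 * v).re + (a2 * v ^ 2).re) * P F (f v)) 0 0.42 ≤
      0.2005 + 0.01822 * ‖a2‖ := by
  have ha := Pool.Agent.Helper91.LC.R88FLe.lt_sqrt3
  have h := mean_P_le hG hI (r := 0.42) (by norm_num) (by linarith) hW (α := 0.2005)
    (β := 0.5128) (by norm_num) (by
      intro v hv
      have h1 := f_ge_042 hG hI hv
      have h2 := f_le_042 hG hI hv
      have h3 := two_point_042 (y := ‖f v‖ ^ 2) (by nlinarith) (by nlinarith)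
      rw [Real.log_pow] at h3
      have h4 : Real.log 0.1764 = 2 * Real.log 0.42 := by
        rw [show (0.1764 : ℝ) = 0.42 ^ 2 by norm_num, Real.log_pow]
        norm_num
      rw [h4] at h3
      push_cast at h3
      linarith)
  refine h.trans ?_
  have := norm_nonneg a2
  norm_num
  linarith

/-- the unweighted mean -/
theorem mean_042_one {F f : ℂ → ℂ} (hG : Good F) (hI : Inv F f) :
    Real.circleAverage (fun v => P F (f v)) 0 0.42 ≤ 0.2005 := by
  have h := mean_042 hG hI (a1 := 0) (a2 := 0) (by intro v _; norm_num)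
  simpa using h

end Pool.Agent.Helper54.LN
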