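import Pool.Agent.Helper54.LN.Chk

/-!
# Project LN (MP_599705_an): pairs and triples of points
-/

set_option autoImplicit false

namespace Pool.Agent.Helper54.LN

open Complex Metric Set MeasureTheory
open Pool.Agent.Helper91.LC

/-! ### the line under the table -/

/-- every distance has a class, and twice the bump is at least `α - β * (d - M2 / d)` -/
def Line (T : Tab) (α β : ℕ) : Prop :=
  ∀ d : ℝ, 1 ≤ d → ∃ k, T.In k d ∧ (α : ℝ) - β * (d - (T.M2 / 10 ^ 4) / d) ≤ 2 * T.J k T.N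

def lineB (T : Tab) (α β : ℕ) : Bool :=
  allB (fun k => Nat.ble (α * 10 ^ 4 * (cond (Nat.beq k 0) 10000 (T.D (k - 1))) +
      β * 10 ^ 4 * T.M2)
    (2 * T.J k T.N * 10 ^ 4 * (cond (Nat.beq k 0) 10000 (T.D (k - 1))) +
      β * (cond (Nat.beq k 0) 10000 (T.D (k - 1))) ^ 2)) (T.K + 1)

theorem line_of {T : Tab} {m : ℝ} (hT : T.Good m) {α β : ℕ} (h : lineB T α β = true) :
    Line T α β := by
  intro d hd
  have hP : ∃ k, T.In k d := ⟨T.K, fun h => absurd h (lt_irrefl _)⟩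
  classical
  set k := Nat.find hP with hk
  have hk1 : T.In k d := Nat.find_spec hP
  have hkK : k ≤ T.K := Nat.find_min' hP fun h => absurd h (lt_irrefl _)
  refine ⟨k, hk1, ?_⟩
  have h1 := Nat.le_of_ble_eq_true (allB_iff.1 h k (by omega))
  set dp : ℕ := cond (Nat.beq k 0) 10000 (T.D (k - 1)) with hdp
  have h2 : 10 ^ 4 ≤ dp ∧ (dp : ℝ) / 10 ^ 4 ≤ d := by
    rcases Nat.eq_zero_or_pos k with h0 | h0
    · have h00 : dp = 10000 := by rw [hdp, h0]; rfl
      rw [h00]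
      constructor
      · norm_num
      · norm_num
        linarith
    · have h3 : Nat.beq k 0 = false := by
        rw [← Bool.not_eq_true]
        intro h4
        have := Nat.eq_of_beq_eq_true h4
        omega
      rw [hdp, h3, cond_false]
      have h4 : ¬ T.In (k - 1) d := Nat.find_min hP (by omega)
      unfold Tab.In at h4
      push Not at h4
      exact ⟨hT.D_ge _ h4.1, h4.2.le⟩
  obtain ⟨h3, h4⟩ := h2
  have h5 : (α : ℝ) * 10 ^ 4 * dp + β * 10 ^ 4 * T.M2 ≤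
      2 * T.J k T.N * 10 ^ 4 * dp + β * dp ^ 2 := by exact_mod_cast h1
  have h6 : (10 ^ 4 : ℝ) ≤ dp := by exact_mod_cast h3
  have hdp0 : (0 : ℝ) < dp := by linarith
  -- the value at `dp`
  have h7 : (α : ℝ) - β * ((dp : ℝ) / 10 ^ 4 - (T.M2 / 10 ^ 4) / ((dp : ℝ) / 10 ^ 4)) ≤
      2 * T.J k T.N := by
    have h8 : (α : ℝ) - β * ((dp : ℝ) / 10 ^ 4 - (T.M2 / 10 ^ 4) / ((dp : ℝ) / 10 ^ 4)) =
        (α * 10 ^ 4 * dp + β * 10 ^ 4 * T.M2 - β * dp ^ 2) / (10 ^ 4 * dp) := by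
      field_simp
      ring
    rw [h8, div_le_iff₀ (by positivity)]
    linarith
  refine le_trans ?_ h7
  have h9 : (dp : ℝ) / 10 ^ 4 - (T.M2 / 10 ^ 4) / ((dp : ℝ) / 10 ^ 4) ≤
      d - (T.M2 / 10 ^ 4) / d := by
    have h10 : (T.M2 / 10 ^ 4 : ℝ) / d ≤ (T.M2 / 10 ^ 4) / ((dp : ℝ) / 10 ^ 4) := by
      apply div_le_div_of_nonneg_left
      · positivity
      · positivity
      · exact h4
    linarith
  have h10 := mul_le_mul_of_nonneg_left h9 (Nat.cast_nonneg (α := ℝ) β)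
  linarith

/-! ### two points with a large gap -/

/-- `s / 10 ^ 8` is a lower bound of `sin (a / W)` -/
def sinLB (W a s : ℕ) : Bool :=
  Nat.ble (s * 39916800 * W ^ 11 +
      10 ^ 8 * (6652800 * a ^ 3 * W ^ 8 + 7920 * a ^ 7 * W ^ 4 + a ^ 11))
    (10 ^ 8 * (39916800 * a * W ^ 10 + 332640 * a ^ 5 * W ^ 6 + 110 * a ^ 9 * W ^ 2))

theorem sinLB_of {W a s : ℕ} (hW : 0 < W) (h : sinLB W a s = true) :
    (s : ℝ) / 10 ^ 8 ≤ Real.sin (a / W) := by
  have h1 := Nat.le_of_ble_eq_true h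
  have hW' : (0 : ℝ) < W := by exact_mod_cast hW
  have h2 := (Helper83.LC.sincos_bd ((a : ℝ) / W) (by positivity)).1
  refine le_trans ?_ h2
  have h3 : (s : ℝ) * 39916800 * W ^ 11 +
      10 ^ 8 * (6652800 * a ^ 3 * W ^ 8 + 7920 * a ^ 7 * W ^ 4 + a ^ 11) ≤
      10 ^ 8 * (39916800 * a * W ^ 10 + 332640 * a ^ 5 * W ^ 6 + 110 * a ^ 9 * W ^ 2) := by
    exact_mod_cast h1
  rw [← sub_nonneg]
  have h4 : (a : ℝ) / W - ((a : ℝ) / W) ^ 3 / 6 + ((a : ℝ) / W) ^ 5 / 120 -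
      ((a : ℝ) / W) ^ 7 / 5040 + ((a : ℝ) / W) ^ 9 / 362880 - ((a : ℝ) / W) ^ 11 / 39916800 -
      s / 10 ^ 8 =
      ((10 ^ 8 * (39916800 * a * W ^ 10 + 332640 * a ^ 5 * W ^ 6 + 110 * a ^ 9 * W ^ 2)) -
        (s * 39916800 * W ^ 11 +
      10 ^ 8 * (6652800 * a ^ 3 * W ^ 8 + 7920 * a ^ 7 * W ^ 4 + a ^ 11))) /
        (10 ^ 8 * 39916800 * (W : ℝ) ^ 11) := by
    field_simp
    ring
  rw [h4]
  apply div_nonneg
  · linarith
  · positivity

/-- bound of `d₁ + d₂` (units `1e-4`) for the sine `sl` (units `1e-8`) -/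
def S4 (m4 sl : ℕ) : ℕ := 2 * m4 * 10 ^ 8 / sl + 1

/-- the test of the pair with gap class `g` -/
def pB (T : Tab) (α β tgt m4 tw TS g : ℕ) : Bool :=
  Nat.blt 0 (get 32 TS g) && (sinLB (2 * T.U) g (get 32 TS g) &&
  Nat.blt (β * (S4 m4 (get 32 TS g)) ^ 2 + tgt * 10 ^ 4 * S4 m4 (get 32 TS g))
    ((2 * α + T.G g + T.G (tw - g)) * 10 ^ 4 * S4 m4 (get 32 TS g) + β * 4 * 10 ^ 4 * T.M2))

theorem pair_total {V : ℝ → ℝ} {E : Set ℂ} {m : ℝ} {T : Tab} (hT : T.Good m) (h : Cfg V E m)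
    (hper : Function.Periodic V (2 * Real.pi)) {α β tgt m4 tw TS gl gu gmax : ℕ}
    (hline : Line T α β) (hcl : ∀ g, 2 * T.N ≤ g → g ≤ gmax → Claim T m g)
    (hmono : ∀ g < gmax, T.G g ≤ T.G (g + 1))
    (hm0 : 0 < m) (hm4 : m ≤ m4 / 10 ^ 4)
    (hpB : allB (fun i => pB T α β tgt m4 tw TS (gl + i)) (gu + 1 - gl) = true)
    (hgl : 2 * T.N ≤ gl) (hgu : Real.pi * T.U < gu + 1)
    (htw : (tw + 1 : ℝ) ≤ 2 * Real.pi * T.U) (htl : 2 * T.N ≤ tw - gu)
    (hgmax : 2 * Real.pi * T.U < gmax + gl + 1) (hgg : gu ≤ gmax) (hgt : gu ≤ tw)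
    {da db φa φb : ℝ} (ha : Pt E da φa) (hb : Pt E db φb) (h1 : φa + gl / T.U ≤ φb)
    (h2 : φb ≤ φa + Real.pi) (hs : (da + db) * Real.sin ((φb - φa) / 2) ≤ 2 * m) :
    (tgt : ℝ) < 10 ^ 8 * ∫ θ in (0 : ℝ)..(2 * Real.pi), V θ := by
  have hU : (0 : ℝ) < T.U := by exact_mod_cast hT.U_pos
  have hpi := Real.pi_pos
  set y : ℝ := φb - φa with hy
  have hgly : (gl : ℝ) / T.U ≤ y := by rw [hy]; linarith
  have hy0 : 0 ≤ y := le_trans (by positivity) hgly
  set g : ℕ := ⌊y * T.U⌋₊ with hg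
  have hg1 : (g : ℝ) ≤ y * T.U := Nat.floor_le (by positivity)
  have hg2 : y * T.U < g + 1 := Nat.lt_floor_add_one _
  have hg1' : (g : ℝ) / T.U ≤ y := by rwa [div_le_iff₀ hU]
  have hg2' : y < (g + 1) / T.U := by rwa [lt_div_iff₀ hU]
  have hglg : gl ≤ g := by
    apply Nat.le_floor
    rwa [div_le_iff₀ hU] at hgly
  have hyU : y * T.U ≤ Real.pi * T.U := mul_le_mul_of_nonneg_right (by rw [hy]; linarith) hU.le
  have hggu : g ≤ gu := by
    have h3 : (g : ℝ) < gu + 1 := by linarith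
    have h4 : g < gu + 1 := by exact_mod_cast h3
    omega
  -- the other gap
  set g' : ℕ := ⌊(2 * Real.pi - y) * T.U⌋₊ with hg'
  have hyy : 0 ≤ 2 * Real.pi - y := by rw [hy]; linarith
  have hg1c : (g' : ℝ) ≤ (2 * Real.pi - y) * T.U := Nat.floor_le (by positivity)
  have hg2c : (2 * Real.pi - y) * T.U < g' + 1 := Nat.lt_floor_add_one _
  have hg1c' : (g' : ℝ) / T.U ≤ 2 * Real.pi - y := by rwa [div_le_iff₀ hU]
  have hg2c' : 2 * Real.pi - y < (g' + 1) / T.U := by rwa [lt_div_iff₀ hU]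
  have htwg : tw - g ≤ g' := by
    apply Nat.le_floor
    have h3 : ((tw - g : ℕ) : ℝ) = tw - g := by
      rw [Nat.cast_sub (by omega)]
    rw [h3]
    linarith
  have hg'max : g' ≤ gmax := by
    have h3 : (g' : ℝ) < gmax + 1 := by
      have h4 : (gl : ℝ) ≤ g := by exact_mod_cast hglg
      linarith
    have h4 : g' < gmax + 1 := by exact_mod_cast h3
    omega
  -- the classes
  obtain ⟨ka, hka, hla⟩ := hline da ha.1
  obtain ⟨kb, hkb, hlb⟩ := hline db hb.1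
  have hc1 := hcl g (by omega) (by omega) V E h ka kb da db φa φb ha hb hka hkb
    (by linarith) (by linarith)
  have hc2 := hcl g' (by omega) hg'max V E h kb ka db da φb (φa + 2 * Real.pi) hb
    ha.add_two_pi hkb hka (by linarith) (by linarith)
  have hGG : (T.G (tw - g) : ℝ) ≤ T.G g' := by
    have hmono' : ∀ g₁ g₂, g₁ ≤ g₂ → g₂ ≤ gmax → T.G g₁ ≤ T.G g₂ := by
      intro g₁ g₂ h12
      induction g₂, h12 using Nat.le_induction with
      | base => intro _; exact le_refl _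
      | succ n hn ih =>
        intro h3
        exact le_trans (ih (by omega)) (hmono n (by omega))
    exact_mod_cast hmono' _ _ htwg hg'max
  have hadd := intervalIntegral.integral_add_adjacent_intervals
    (h.intervalIntegrable φa φb) (h.intervalIntegrable φb (φa + 2 * Real.pi))
  have hperI := hper.intervalIntegral_add_eq φa 0
  rw [zero_add] at hperI
  rw [← hperI, ← hadd]
  -- the numbers
  have hchk := allB_iff.1 hpB (g - gl) (by omega)
  have hgg' : gl + (g - gl) = g := by omega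
  rw [hgg'] at hchk
  unfold pB at hchk
  rw [Bool.and_eq_true, Bool.and_eq_true] at hchk
  obtain ⟨hsl0, hsl, hnum⟩ := hchk
  set sl := get 32 TS g with hsld
  have hsl0' : 0 < sl := by simpa [Nat.blt_eq] using hsl0
  have hslr : (0 : ℝ) < sl := by exact_mod_cast hsl0'
  have hsin := sinLB_of (by have := hT.U_pos; omega) hsl
  set S := S4 m4 sl with hS
  have hS1 : 2 * m4 * 10 ^ 8 < S * sl := by
    rw [hS]
    unfold S4
    exact (Nat.div_lt_iff_lt_mul hsl0').1 (Nat.lt_succ_self _)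
  have hnum' : β * S ^ 2 + tgt * 10 ^ 4 * S <
      (2 * α + T.G g + T.G (tw - g)) * 10 ^ 4 * S + β * 4 * 10 ^ 4 * T.M2 := by
    simpa [Nat.blt_eq] using hnum
  have hnumr : (β : ℝ) * S ^ 2 + tgt * 10 ^ 4 * S <
      (2 * α + T.G g + T.G (tw - g)) * 10 ^ 4 * S + β * 4 * 10 ^ 4 * T.M2 := by
    exact_mod_cast hnum'
  have hS1r : 2 * (m4 : ℝ) * 10 ^ 8 < S * sl := by exact_mod_cast hS1
  have hda := ha.1
  have hdb := hb.1
  have hs0 : 0 < da + db := by linarith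
  -- sine of the half gap
  have hsinm : (sl : ℝ) / 10 ^ 8 ≤ Real.sin (y / 2) := by
    refine le_trans hsin ?_
    apply Real.sin_le_sin_of_le_of_le_pi_div_two
    · have : (0 : ℝ) ≤ (g : ℝ) / ((2 * T.U : ℕ) : ℝ) := by positivity
      linarith
    · rw [hy]; linarith
    · push_cast
      have h3 : (g : ℝ) / (2 * T.U) = (g / T.U) / 2 := by field_simp
      rw [h3]
      linarith
  have hsS : da + db < S / 10 ^ 4 := by
    have h3 : (da + db) * (sl / 10 ^ 8) ≤ 2 * (m4 / 10 ^ 4) := by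
      calc (da + db) * (sl / 10 ^ 8) ≤ (da + db) * Real.sin (y / 2) :=
            mul_le_mul_of_nonneg_left hsinm hs0.le
        _ ≤ 2 * m := hs
        _ ≤ _ := by linarith
    have h4 : (da + db) * sl < (S / 10 ^ 4) * sl := by
      have h5 : (da + db) * sl ≤ 2 * (m4 / 10 ^ 4) * 10 ^ 8 := by
        have := mul_le_mul_of_nonneg_right h3 (by norm_num : (0 : ℝ) ≤ 10 ^ 8)
        calc (da + db) * sl = (da + db) * (sl / 10 ^ 8) * 10 ^ 8 := by ring
          _ ≤ _ := this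
      have h6 : 2 * ((m4 : ℝ) / 10 ^ 4) * 10 ^ 8 = (2 * m4 * 10 ^ 8) / 10 ^ 4 := by ring
      have h7 : (S : ℝ) / 10 ^ 4 * sl = (S * sl) / 10 ^ 4 := by ring
      rw [h7]
      rw [h6] at h5
      refine lt_of_le_of_lt h5 ?_
      apply div_lt_div_of_pos_right hS1r (by norm_num)
    exact lt_of_mul_lt_mul_right h4 hslr.le
  set M : ℝ := T.M2 / 10 ^ 4 with hM
  have hM0 : 0 ≤ M := by positivity
  have hS0 : (0 : ℝ) < S := by
    have : (0 : ℝ) < S / 10 ^ 4 := by linarith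
    linarith [this]
  -- `(da + db) - M (1 / da + 1 / db) ≤ s - 4 M / s ≤ S - 4 M / S`
  have hinv : 4 / (da + db) ≤ 1 / da + 1 / db := by
    have hda0 : 0 < da := by linarith
    have hdb0 : 0 < db := by linarith
    rw [div_add_div _ _ hda0.ne' hdb0.ne', div_le_div_iff₀ hs0 (by positivity)]
    nlinarith [sq_nonneg (da - db)]
  have hinv2 : M * (4 / (S / 10 ^ 4)) ≤ M * (4 / (da + db)) := by
    apply mul_le_mul_of_nonneg_left _ hM0
    apply div_le_div_of_nonneg_left (by norm_num) hs0 hsS.le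
  have hinv3 := mul_le_mul_of_nonneg_left hinv hM0
  have hkey : (da - M / da) + (db - M / db) ≤ S / 10 ^ 4 - M * (4 / (S / 10 ^ 4)) := by
    have h3 : M * (1 / da + 1 / db) = M / da + M / db := by ring
    linarith
  have hkey2 := mul_le_mul_of_nonneg_left hkey (Nat.cast_nonneg (α := ℝ) β)
  have hfin : (tgt : ℝ) + β * (S / 10 ^ 4 - M * (4 / (S / 10 ^ 4))) <
      2 * α + T.G g + T.G (tw - g) := by
    have h3 : (S : ℝ) / 10 ^ 4 - M * (4 / (S / 10 ^ 4)) =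
        (S ^ 2 - 4 * 10 ^ 4 * T.M2) / (10 ^ 4 * S) := by
      rw [hM]
      field_simp
    rw [h3]
    have h4 : (0 : ℝ) < 10 ^ 4 * S := by positivity
    by_contra hcon
    push Not at hcon
    have h5 := mul_le_mul_of_nonneg_right hcon h4.le
    have h6 : ((tgt : ℝ) + β * ((S ^ 2 - 4 * 10 ^ 4 * T.M2) / (10 ^ 4 * S))) * (10 ^ 4 * S) =
        tgt * (10 ^ 4 * S) + β * (S ^ 2 - 4 * 10 ^ 4 * T.M2) := by
      field_simp
    rw [h6] at h5
    linarith
  linarith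

end Pool.Agent.Helper54.LN
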