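import Mathlib

/-! Project LN (MP_599705_an): piece Root1, minimiser of the power of the distance. -/

set_option autoImplicit false

namespace Pool.Agent.Helper54.LN

open Complex Metric Set

private theorem root1_dot (v e : ℂ) :
    (v * (starRingEnd ℂ) e).re = v.re * e.re + v.im * e.im := by
  rw [Complex.mul_re, Complex.conj_re, Complex.conj_im]
  ring

private theorem root1_sq (z : ℂ) : ‖z‖ ^ 2 = z.re ^ 2 + z.im ^ 2 := by
  rw [Complex.sq_norm, Complex.normSq_apply]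
  ring

open Filter Topology in
/-- LN-Root1 -/
theorem root_min {E : Set ℂ} {m : ℝ} (hE : IsClosed E) (hn : ∀ p ∈ E, 1 ≤ ‖p‖) (hm : m < 5 / 4)
    (hc : ∀ w : ℂ, ∃ p ∈ E, ‖w - p‖ ≤ m) :
    ∃ (c : ℂ) (ρ : ℝ), 1 ≤ ρ ∧ ρ + ‖c‖ ^ 2 ≤ m ^ 2 ∧
      ∀ v : ℂ, ∃ p ∈ E, ‖p - c‖ ^ 2 = ρ + ‖c‖ ^ 2 ∧ 0 ≤ (p * (starRingEnd ℂ) v).re := by
  have hne : E.Nonempty := by
    obtain ⟨p, hp, -⟩ := hc 0
    exact ⟨p, hp⟩
  have hdm : ∀ w : ℂ, infDist w E ≤ m := by
    intro w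
    obtain ⟨p, hp, h⟩ := hc w
    have h1 := infDist_le_dist_of_mem (x := w) hp
    rw [dist_eq_norm] at h1
    exact h1.trans h
  have hcont : Continuous fun w : ℂ => ‖w‖ ^ 2 - infDist w E ^ 2 :=
    (continuous_norm.pow 2).sub ((continuous_infDist_pt E).pow 2)
  obtain ⟨c, -, hmin⟩ := (isCompact_closedBall (0 : ℂ) 1).exists_isMinOn
    ⟨0, mem_closedBall_self (by norm_num)⟩ hcont.continuousOn
  have hmin' : ∀ w : ℂ, ‖w‖ ≤ 1 → ‖c‖ ^ 2 - infDist c E ^ 2 ≤ ‖w‖ ^ 2 - infDist w E ^ 2 := by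
    intro w hw
    exact hmin (by rw [mem_closedBall, dist_zero_right]; exact hw)
  have h0 : (1 : ℝ) ≤ infDist 0 E := by
    refine (le_infDist hne).2 fun p hp => ?_
    rw [dist_zero_left]
    exact hn p hp
  have hmin0 := hmin' 0 (by rw [norm_zero]; exact zero_le_one)
  rw [norm_zero] at hmin0
  have hd0 : 0 ≤ infDist c E := infDist_nonneg
  have hdc := hdm c
  have hsq0 : (1 : ℝ) ≤ infDist 0 E ^ 2 := one_le_pow₀ h0
  have hsqc : infDist c E ^ 2 ≤ m ^ 2 := pow_le_pow_left₀ hd0 hdc 2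
  have hm0 : 0 ≤ m := hd0.trans hdc
  have hm2 : m ^ 2 < (5 / 4) ^ 2 := pow_lt_pow_left₀ hm hm0 (by norm_num)
  have hcn : ‖c‖ < 3 / 4 := by
    have h1 : ‖c‖ ^ 2 < (3 / 4) ^ 2 := by nlinarith
    exact lt_of_pow_lt_pow_left₀ 2 (by norm_num) h1
  refine ⟨c, infDist c E ^ 2 - ‖c‖ ^ 2, by linarith, by linarith, ?_⟩
  intro v
  set ε : ℝ := 1 / (4 * (‖v‖ + 1)) with hε
  have hv0 : 0 ≤ ‖v‖ := norm_nonneg v
  have hεp : 0 < ε := by positivity
  have hεv : ε * ‖v‖ ≤ 1 / 4 := by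
    rw [hε, div_mul_eq_mul_div, one_mul, div_le_iff₀ (by positivity)]
    linarith
  have ht0 : ∀ n : ℕ, 0 < ε * (1 / ((n : ℝ) + 1)) := fun n =>
    mul_pos hεp Nat.one_div_pos_of_nat
  have ht1 : ∀ n : ℕ, ε * (1 / ((n : ℝ) + 1)) ≤ ε := fun n => by
    have h1 : 1 / ((n : ℝ) + 1) ≤ 1 := by
      rw [div_le_one (by positivity)]
      have : (0 : ℝ) ≤ n := Nat.cast_nonneg n
      linarith
    nlinarith
  have hnear : ∀ n : ℕ, ∃ p ∈ E, infDist (c + ((ε * (1 / ((n : ℝ) + 1)) : ℝ) : ℂ) * v) E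
      = dist (c + ((ε * (1 / ((n : ℝ) + 1)) : ℝ) : ℂ) * v) p :=
    fun n => hE.exists_infDist_eq_dist hne _
  choose p hpE hpd using hnear
  have hnorm_t : ∀ n : ℕ, ‖((ε * (1 / ((n : ℝ) + 1)) : ℝ) : ℂ) * v‖ ≤ 1 / 4 := by
    intro n
    rw [norm_mul, Complex.norm_real, Real.norm_of_nonneg (ht0 n).le]
    have h1 := mul_le_mul_of_nonneg_right (ht1 n) hv0
    linarith
  have hbd : ∀ n, p n ∈ closedBall c (m + 1 / 4) := by
    intro n
    rw [mem_closedBall]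
    have h1 : dist (p n) c ≤ dist (p n) (c + ((ε * (1 / ((n : ℝ) + 1)) : ℝ) : ℂ) * v)
        + dist (c + ((ε * (1 / ((n : ℝ) + 1)) : ℝ) : ℂ) * v) c := dist_triangle _ _ _
    have h2 : dist (c + ((ε * (1 / ((n : ℝ) + 1)) : ℝ) : ℂ) * v) c ≤ 1 / 4 := by
      rw [dist_eq_norm, add_sub_cancel_left]
      exact hnorm_t n
    have h3 := hpd n
    have h4 := hdm (c + ((ε * (1 / ((n : ℝ) + 1)) : ℝ) : ℂ) * v)
    rw [dist_comm] at h3
    linarith
  obtain ⟨P, -, φ, hφ, hlim⟩ := (isCompact_closedBall c (m + 1 / 4)).tendsto_subseq hbd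
  have hPE : P ∈ E := hE.mem_of_tendsto hlim (Eventually.of_forall fun n => hpE (φ n))
  have htlim : Tendsto (fun n => ε * (1 / (((φ n : ℕ) : ℝ) + 1))) atTop (𝓝 0) := by
    have h1 := ((tendsto_one_div_add_atTop_nhds_zero_nat (𝕜 := ℝ)).comp
      hφ.tendsto_atTop).const_mul ε
    rw [mul_zero] at h1
    exact h1
  have htlimC : Tendsto (fun n => ((ε * (1 / (((φ n : ℕ) : ℝ) + 1)) : ℝ) : ℂ) * v) atTop
      (𝓝 0) := by
    have h1 := (Complex.continuous_ofReal.tendsto 0).comp htlim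
    have h2 := h1.mul_const v
    rw [Complex.ofReal_zero, zero_mul] at h2
    exact h2
  have hwlim : Tendsto (fun n => c + ((ε * (1 / (((φ n : ℕ) : ℝ) + 1)) : ℝ) : ℂ) * v) atTop
      (𝓝 c) := by
    have := htlimC.const_add c
    rwa [add_zero] at this
  have hPd : dist c P = infDist c E := by
    have h1 : Tendsto (fun n => dist (c + ((ε * (1 / (((φ n : ℕ) : ℝ) + 1)) : ℝ) : ℂ) * v)
        (p (φ n))) atTop (𝓝 (dist c P)) := hwlim.dist hlim
    have h2 : Tendsto (fun n => infDist (c + ((ε * (1 / (((φ n : ℕ) : ℝ) + 1)) : ℝ) : ℂ) * v) E)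
        atTop (𝓝 (infDist c E)) := ((continuous_infDist_pt E).tendsto c).comp hwlim
    refine tendsto_nhds_unique h1 (h2.congr fun n => ?_)
    exact hpd (φ n)
  have hnP : ‖P - c‖ = infDist c E := by rw [← dist_eq_norm, dist_comm]; exact hPd
  have key : ∀ n : ℕ, 0 ≤ (p n).re * v.re + (p n).im * v.im := by
    intro n
    set t := ε * (1 / ((n : ℝ) + 1)) with ht
    have htp : 0 < t := ht0 n
    have hpn : infDist c E ≤ ‖c - p n‖ := by
      rw [← dist_eq_norm]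
      exact infDist_le_dist_of_mem (hpE n)
    have hpn2 : infDist c E ^ 2 ≤ ‖c - p n‖ ^ 2 := pow_le_pow_left₀ hd0 hpn 2
    have h1 : infDist (c + (t : ℂ) * v) E = ‖c + (t : ℂ) * v - p n‖ := by
      rw [hpd n, dist_eq_norm]
    have hball : ‖c + (t : ℂ) * v‖ ≤ 1 := by
      have h3 := norm_add_le c ((t : ℂ) * v)
      have h4 := hnorm_t n
      rw [← ht] at h4
      linarith
    have h2 := hmin' (c + (t : ℂ) * v) hball
    rw [h1] at h2
    have h3 : ‖c‖ ^ 2 - ‖c - p n‖ ^ 2 ≤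
        ‖c + (t : ℂ) * v‖ ^ 2 - ‖c + (t : ℂ) * v - p n‖ ^ 2 := by linarith
    rw [root1_sq, root1_sq, root1_sq, root1_sq] at h3
    simp only [Complex.sub_re, Complex.sub_im, Complex.add_re, Complex.add_im, Complex.mul_re,
      Complex.mul_im, Complex.ofReal_re, Complex.ofReal_im, zero_mul, sub_zero, add_zero] at h3
    have h4 : t * 0 ≤ t * ((p n).re * v.re + (p n).im * v.im) := by nlinarith
    exact le_of_mul_le_mul_left h4 htp
  refine ⟨P, hPE, by rw [hnP]; ring, ?_⟩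
  rw [root1_dot]
  have hQlim : Tendsto (fun n => (p (φ n)).re * v.re + (p (φ n)).im * v.im) atTop
      (𝓝 (P.re * v.re + P.im * v.im)) :=
    (((Complex.continuous_re.tendsto _).comp hlim).mul_const _).add
      (((Complex.continuous_im.tendsto _).comp hlim).mul_const _)
  exact ge_of_tendsto' hQlim fun n => key (φ n)

end Pool.Agent.Helper54.LN
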