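import Pool.Agent.Helper54.LN.Cells
import Pool.Agent.Helper54.LN.Root1
import Pool.Agent.Helper54.LN.Root2

/-!
# Project LN (MP_599705_an): three points around `0`, the end game with multipliers
-/

set_option autoImplicit false

namespace Pool.Agent.Helper54.LN

open Complex Metric Set MeasureTheory
open Pool.Agent.Helper91.LC

/-- the numerical data of the end game -/
structure EndData where
  Lt : ℕ → ℕ
  SL : ℕ → ℕ
  SH : ℕ → ℕ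
  G2 : ℕ → ℕ
  CT : ℕ
  w : ℕ
  b : ℕ
  JM : ℕ
  q : ℕ
  ip : ℕ
  n : ℕ
  r : ℕ
  piU : ℕ
  jx : ℕ
  tgt : ℕ
  gmax : ℕ
  i0 : ℕ
  nI : ℕ
  j₁ : ℕ
  j₂ : ℕ
  Rn : ℕ
  Gm : ℕ

/-- the test of all cells -/
def cellsB (T : Tab) (e : EndData) : Bool :=
  allB (fun a => allB (fun j =>
    Nat.ble (3141593 * e.q) (10 ^ 6 * (2 * (e.i0 + a) - (j + 1))) ||
    cellT T e.Lt e.SL e.SH e.G2 e.b e.JM e.q e.ip e.jx e.tgt (e.i0 + a) j
      (get 8 (get e.w e.CT a) (2 * j) * 4000000) (get 8 (get e.w e.CT a) (2 * j + 1)))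
    ((e.i0 + a) / 2 + 1)) e.nI

/-- correctness of the data -/
structure EndData.Good (T : Tab) (e : EndData) : Prop where
  lines : Lines T e.Lt e.b e.JM
  sines : Sines e.SL e.SH e.q e.ip e.n
  b0 : 0 < e.b
  M2 : 10 ^ 4 ≤ T.M2
  Ur : T.U = e.r * e.q
  pi : (e.piU : ℝ) ≤ Real.pi * T.U
  lp1 : 2 * T.N + e.jx * e.r ≤ e.piU
  lp2 : 2 * T.N + (e.i0 * e.r + 1) ≤ e.piU
  gm1 : Real.pi * T.U + e.jx * e.r < e.gmax + 1
  gm2 : Real.pi * T.U + (e.i0 * e.r + 1) ≤ e.gmax + 1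
  G2 : ∀ l < e.jx * e.r, e.G2 (l / e.r) ≤ T.G (e.piU - 1 - l) + T.G (e.piU + l)
  Gm : ∀ l < e.i0 * e.r + 1, e.Gm ≤ T.G (e.piU - 1 - l) + T.G (e.piU + l)
  i0 : 3 ≤ e.i0
  i0q : e.i0 < e.q
  R : 1 ≤ ((e.Rn : ℝ) / 10 ^ 4) * Real.cos ((e.i0 : ℝ) / e.q / 2)
  j1 : e.j₁ < e.JM
  j2 : e.j₂ < e.JM
  jR : e.j₁ * e.Rn ≤ e.j₂ * 10 ^ 4
  num : e.tgt < e.Lt e.j₁ + min (e.Lt e.j₁) (e.Lt e.j₂) + e.Gm
  nI : 2094396 * e.q < (e.i0 + e.nI) * 10 ^ 6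
  nn : e.i0 + e.nI + 1 < e.n
  cells : cellsB T e = true

/-- all sorted triples -/
theorem three_all {T : Tab} {e : EndData} (he : e.Good T) (hU : 0 < T.U)
    {tot g h y Hg Hh Hy Kg Kh Ky : ℝ}
    (hX : Three T e.Lt e.b e.JM e.gmax tot g h y Hg Hh Hy Kg Kh Ky) : (e.tgt : ℝ) < tot := by
  have hq : 0 < e.q := he.sines.q0
  have hq' : (0 : ℝ) < e.q := by exact_mod_cast hq
  have hU' : (0 : ℝ) < T.U := by exact_mod_cast hU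
  have hUr : (T.U : ℝ) = e.r * e.q := by exact_mod_cast he.Ur
  have hp6 := Real.pi_gt_d6
  have hp6' := Real.pi_lt_d6
  have hg0 := hX.g0
  have hgh := hX.gh
  have hhy := hX.hy
  have hsum := hX.sum
  rcases le_or_gt g ((e.i0 : ℝ) / e.q) with hg | hg
  · have hi0q : (e.i0 : ℝ) < e.q := by exact_mod_cast he.i0q
    refine three_P hX hU (x0 := (e.i0 : ℝ) / e.q) (R := (e.Rn : ℝ) / 10 ^ 4) hg
      (by rw [div_lt_one hq']; exact hi0q) he.R he.j1 he.j2 ?_ he.pi (lmax := e.i0 * e.r + 1)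
      ?_ ?_ ?_ he.Gm he.num
    · have h1 : (e.j₁ : ℝ) * e.Rn ≤ e.j₂ * 10 ^ 4 := by exact_mod_cast he.jR
      push_cast
      have hb : (0 : ℝ) ≤ e.b := Nat.cast_nonneg _
      have h2 := mul_le_mul_of_nonneg_right h1 hb
      have h3 : (e.j₁ : ℝ) * e.b * (e.Rn / 10 ^ 4) = (e.j₁ * e.Rn * e.b) / 10 ^ 4 := by ring
      rw [h3, div_le_iff₀ (by norm_num)]
      linarith
    · rw [hUr]
      have h1 : (e.i0 : ℝ) / e.q * (e.r * e.q) = e.i0 * e.r := by field_simp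
      rw [h1]
      push_cast
      linarith
    · exact he.lp2
    · have h1 := he.gm2
      push_cast
      exact h1
  · set i : ℕ := ⌊g * e.q⌋₊ with hi
    have hi1 : (i : ℝ) ≤ g * e.q := Nat.floor_le (by positivity)
    have hi2 : g * e.q < i + 1 := Nat.lt_floor_add_one _
    have hyp0 : 0 ≤ Real.pi - y := by linarith [hX.ypi]
    set j : ℕ := ⌊(Real.pi - y) * e.q⌋₊ with hj
    have hj1 : (j : ℝ) ≤ (Real.pi - y) * e.q := Nat.floor_le (by positivity)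
    have hj2 : (Real.pi - y) * e.q < j + 1 := Nat.lt_floor_add_one _
    have hi0 : e.i0 ≤ i := by
      apply Nat.le_floor
      rw [div_lt_iff₀ hq'] at hg
      exact hg.le
    have hg3 : g ≤ 2.094396 := by linarith
    have hinI : i < e.i0 + e.nI := by
      have h1 : (2094396 : ℝ) * e.q < (e.i0 + e.nI) * 10 ^ 6 := by exact_mod_cast he.nI
      have h2 : (i : ℝ) < e.i0 + e.nI := by
        have h3 : g * e.q ≤ 2.094396 * e.q := mul_le_mul_of_nonneg_right hg3 hq'.le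
        linarith
      exact_mod_cast h2
    have hji : 2 * j ≤ i := by
      have h1 : (Real.pi - y) * e.q * 2 ≤ g * e.q := by
        have h2 : (Real.pi - y) * 2 ≤ g := by linarith
        have := mul_le_mul_of_nonneg_right h2 hq'.le
        linarith
      have h3 : (2 * j : ℝ) < i + 1 := by linarith
      have h4 : 2 * j < i + 1 := by exact_mod_cast h3
      omega
    have hc := he.cells
    unfold cellsB at hc
    have h1 := allB_iff.1 (allB_iff.1 hc (i - e.i0) (by omega)) j (by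
      have : e.i0 + (i - e.i0) = i := by omega
      rw [this]
      omega)
    have h2 : e.i0 + (i - e.i0) = i := by omega
    rw [h2, Bool.or_eq_true] at h1
    rcases h1 with h3 | h3
    · exfalso
      have h4 := Nat.le_of_ble_eq_true h3
      rcases Nat.lt_or_ge (2 * i) (j + 1) with h5 | h5
      · omega
      · have h6 : (3141593 : ℝ) * e.q ≤ 10 ^ 6 * (2 * (i : ℝ) - (j + 1)) := by
          have h7 : ((2 * i - (j + 1) : ℕ) : ℝ) = 2 * (i : ℝ) - (j + 1) := by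
            rw [Nat.cast_sub h5]
            push_cast
            ring
          rw [← h7]
          exact_mod_cast h4
        have h8 : 2 * g - (Real.pi - y) ≤ Real.pi := by linarith
        have h9 := mul_le_mul_of_nonneg_right h8 hq'.le
        have h10 : Real.pi * e.q ≤ 3.141593 * e.q := mul_le_mul_of_nonneg_right hp6'.le hq'.le
        nlinarith
    · refine three_cell hX hU he.b0 he.M2 he.sines he.Ur he.pi he.lp1 he.gm1 he.G2 hi1 hi2 hj1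
        hj2 ?_ ?_ ?_ h3
      · have := he.nn
        omega
      · omega
      · have := he.i0
        omega

/-- three points, unordered; `a i` is the gap opposite to the point `i` -/
structure Sym3 (T : Tab) (Lt : ℕ → ℕ) (b JM gmax : ℕ) (tot a₁ a₂ a₃ H₁ H₂ H₃ K₁ K₂ K₃ : ℝ) :
    Prop where
  n1 : 0 ≤ a₁
  n2 : 0 ≤ a₂
  n3 : 0 ≤ a₃
  p1 : a₁ ≤ Real.pi
  p2 : a₂ ≤ Real.pi
  p3 : a₃ ≤ Real.pi
  sum : a₁ + a₂ + a₃ = 2 * Real.pi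
  L1 : ∀ j < JM, (Lt j : ℝ) ≤ H₁ + (j * b : ℕ) * K₁
  L2 : ∀ j < JM, (Lt j : ℝ) ≤ H₂ + (j * b : ℕ) * K₂
  L3 : ∀ j < JM, (Lt j : ℝ) ≤ H₃ + (j * b : ℕ) * K₃
  l1 : 1 - (T.M2 / 10 ^ 4 : ℝ) ≤ K₁
  l2 : 1 - (T.M2 / 10 ^ 4 : ℝ) ≤ K₂
  l3 : 1 - (T.M2 / 10 ^ 4 : ℝ) ≤ K₃
  sin : Real.sin a₁ * K₁ + Real.sin a₂ * K₂ + Real.sin a₃ * K₃ ≤ 0
  d1 : a₁ = 0 → K₁ + K₂ ≤ 0 ∧ K₁ + K₃ ≤ 0
  d2 : a₂ = 0 → K₂ + K₁ ≤ 0 ∧ K₂ + K₃ ≤ 0
  d3 : a₃ = 0 → K₃ + K₁ ≤ 0 ∧ K₃ + K₂ ≤ 0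
  A : ∀ n₁ n₂ n₃ : ℕ, (n₁ : ℝ) ≤ a₁ * T.U → (n₂ : ℝ) ≤ a₂ * T.U → (n₃ : ℝ) ≤ a₃ * T.U →
    H₁ + H₂ + H₃ + T.Pn n₁ + T.Pn n₂ + T.Pn n₃ ≤ 6 * T.J 0 T.N + tot
  B1 : ∀ n₁ n₂ : ℕ, 2 * T.N ≤ n₁ → 2 * T.N ≤ n₂ → (n₁ : ℝ) ≤ a₁ * T.U →
    (n₂ : ℝ) ≤ (2 * Real.pi - a₁) * T.U → (2 * Real.pi - a₁) * T.U < gmax + 1 →
    H₂ + H₃ + T.G n₁ + T.G n₂ ≤ tot
  B2 : ∀ n₁ n₂ : ℕ, 2 * T.N ≤ n₁ → 2 * T.N ≤ n₂ → (n₁ : ℝ) ≤ a₂ * T.U →
    (n₂ : ℝ) ≤ (2 * Real.pi - a₂) * T.U → (2 * Real.pi - a₂) * T.U < gmax + 1 →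
    H₁ + H₃ + T.G n₁ + T.G n₂ ≤ tot
  B3 : ∀ n₁ n₂ : ℕ, 2 * T.N ≤ n₁ → 2 * T.N ≤ n₂ → (n₁ : ℝ) ≤ a₃ * T.U →
    (n₂ : ℝ) ≤ (2 * Real.pi - a₃) * T.U → (2 * Real.pi - a₃) * T.U < gmax + 1 →
    H₁ + H₂ + T.G n₁ + T.G n₂ ≤ tot

variable {T : Tab} {Lt : ℕ → ℕ} {b JM gmax : ℕ} {tot a₁ a₂ a₃ H₁ H₂ H₃ K₁ K₂ K₃ : ℝ}

theorem Sym3.swap12 (h : Sym3 T Lt b JM gmax tot a₁ a₂ a₃ H₁ H₂ H₃ K₁ K₂ K₃) :
    Sym3 T Lt b JM gmax tot a₂ a₁ a₃ H₂ H₁ H₃ K₂ K₁ K₃ where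
  n1 := h.n2
  n2 := h.n1
  n3 := h.n3
  p1 := h.p2
  p2 := h.p1
  p3 := h.p3
  sum := by linarith [h.sum]
  L1 := h.L2
  L2 := h.L1
  L3 := h.L3
  l1 := h.l2
  l2 := h.l1
  l3 := h.l3
  sin := by linarith [h.sin]
  d1 := h.d2
  d2 := h.d1
  d3 := fun h0 => ⟨(h.d3 h0).2, (h.d3 h0).1⟩
  A := fun n₁ n₂ n₃ c1 c2 c3 => by linarith [h.A n₂ n₁ n₃ c2 c1 c3]
  B1 := fun n₁ n₂ c1 c2 c3 c4 c5 => by linarith [h.B2 n₁ n₂ c1 c2 c3 c4 c5]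
  B2 := fun n₁ n₂ c1 c2 c3 c4 c5 => by linarith [h.B1 n₁ n₂ c1 c2 c3 c4 c5]
  B3 := fun n₁ n₂ c1 c2 c3 c4 c5 => by linarith [h.B3 n₁ n₂ c1 c2 c3 c4 c5]

theorem Sym3.swap23 (h : Sym3 T Lt b JM gmax tot a₁ a₂ a₃ H₁ H₂ H₃ K₁ K₂ K₃) :
    Sym3 T Lt b JM gmax tot a₁ a₃ a₂ H₁ H₃ H₂ K₁ K₃ K₂ where
  n1 := h.n1
  n2 := h.n3
  n3 := h.n2
  p1 := h.p1
  p2 := h.p3
  p3 := h.p2
  sum := by linarith [h.sum]
  L1 := h.L1
  L2 := h.L3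
  L3 := h.L2
  l1 := h.l1
  l2 := h.l3
  l3 := h.l2
  sin := by linarith [h.sin]
  d1 := fun h0 => ⟨(h.d1 h0).2, (h.d1 h0).1⟩
  d2 := h.d3
  d3 := h.d2
  A := fun n₁ n₂ n₃ c1 c2 c3 => by linarith [h.A n₁ n₃ n₂ c1 c3 c2]
  B1 := fun n₁ n₂ c1 c2 c3 c4 c5 => by linarith [h.B1 n₁ n₂ c1 c2 c3 c4 c5]
  B2 := fun n₁ n₂ c1 c2 c3 c4 c5 => by linarith [h.B3 n₁ n₂ c1 c2 c3 c4 c5]
  B3 := fun n₁ n₂ c1 c2 c3 c4 c5 => by linarith [h.B2 n₁ n₂ c1 c2 c3 c4 c5]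

theorem Sym3.three (h : Sym3 T Lt b JM gmax tot a₁ a₂ a₃ H₁ H₂ H₃ K₁ K₂ K₃) (h12 : a₁ ≤ a₂)
    (h23 : a₂ ≤ a₃) : Three T Lt b JM gmax tot a₁ a₂ a₃ H₁ H₂ H₃ K₁ K₂ K₃ where
  gh := h12
  hy := h23
  g0 := h.n1
  ypi := h.p3
  sum := h.sum
  Lg := h.L1
  Lh := h.L2
  Ly := h.L3
  Kyl := h.l3
  sin := h.sin
  deg := fun h0 => (h.d1 h0).1
  A := h.A
  B := h.B3
  C := h.B2

theorem sym_all {e : EndData} (he : e.Good T) (hU : 0 < T.U)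
    (h : Sym3 T e.Lt e.b e.JM e.gmax tot a₁ a₂ a₃ H₁ H₂ H₃ K₁ K₂ K₃) : (e.tgt : ℝ) < tot := by
  rcases le_total a₁ a₂ with c1 | c1
  · rcases le_total a₂ a₃ with c2 | c2
    · exact three_all he hU (h.three c1 c2)
    · rcases le_total a₁ a₃ with c3 | c3
      · exact three_all he hU (h.swap23.three c3 c2)
      · exact three_all he hU (h.swap23.swap12.three c3 c1)
  · rcases le_total a₁ a₃ with c2 | c2
    · exact three_all he hU (h.swap12.three c1 c2)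
    · rcases le_total a₂ a₃ with c3 | c3
      · exact three_all he hU (h.swap12.swap23.three c3 c2)
      · exact three_all he hU (h.swap12.swap23.swap12.three c3 c1)

/-- the total integral with two points -/
theorem pair_G {V : ℝ → ℝ} {E : Set ℂ} {m : ℝ} (hT : T.Good m)
    (h : Cfg V E m) (hper : Function.Periodic V (2 * Real.pi))
    (hcl : ∀ g, 2 * T.N ≤ g → g ≤ gmax → Claim T m g)
    (hmono : ∀ g < gmax, T.G g ≤ T.G (g + 1))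
    {ka kb : ℕ} {da db φa φb : ℝ} (ha : Pt E da φa) (hb : Pt E db φb) (hka : T.In ka da)
    (hkb : T.In kb db) {n₁ n₂ : ℕ} (hn₁ : 2 * T.N ≤ n₁) (hn₂ : 2 * T.N ≤ n₂)
    (h₁ : (n₁ : ℝ) ≤ (φb - φa) * T.U) (h₂ : (n₂ : ℝ) ≤ (2 * Real.pi - (φb - φa)) * T.U)
    (hle : φb - φa ≤ Real.pi)
    (hmax : (2 * Real.pi - (φb - φa)) * T.U < gmax + 1) :
    (2 * T.J ka T.N : ℝ) + 2 * T.J kb T.N + T.G n₁ + T.G n₂ ≤
      10 ^ 8 * ∫ θ in (0 : ℝ)..(2 * Real.pi), V θ := by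
  have hU : (0 : ℝ) < T.U := by exact_mod_cast hT.U_pos
  have hm1 : (φb - φa) * T.U < gmax + 1 := by
    refine lt_of_le_of_lt ?_ hmax
    apply mul_le_mul_of_nonneg_right _ hU.le
    linarith
  have h3 := gap_G hT h hcl hmono ha hb hka hkb h₁ hn₁ hm1
  have e2 : φa + 2 * Real.pi - φb = 2 * Real.pi - (φb - φa) := by ring
  have h4 := gap_G hT h hcl hmono hb ha.add_two_pi hkb hka (n := n₂) (by rw [e2]; exact h₂)
    hn₂ (by rw [e2]; exact hmax)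
  have hadd := intervalIntegral.integral_add_adjacent_intervals
    (h.intervalIntegrable φa φb) (h.intervalIntegrable φb (φa + 2 * Real.pi))
  have hperI := hper.intervalIntegral_add_eq φa 0
  rw [zero_add] at hperI
  rw [← hperI, ← hadd]
  linarith

private lemma sym_one {ρ d φ : ℝ} {c : ℂ} (hd : 0 < d)
    (h : ‖(d : ℂ) * exp (φ * I) - c‖ ^ 2 = ρ + ‖c‖ ^ 2) :
    d - ρ / d = 2 * (Real.cos φ * c.re + Real.sin φ * c.im) := by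
  rw [← Complex.normSq_eq_norm_sq, ← Complex.normSq_eq_norm_sq, Complex.normSq_apply,
    Complex.normSq_apply] at h
  simp only [Complex.sub_re, Complex.sub_im, Complex.mul_re, Complex.mul_im,
      Complex.ofReal_re, Complex.ofReal_im, Complex.exp_ofReal_mul_I_re,
      Complex.exp_ofReal_mul_I_im, zero_mul, sub_zero, add_zero] at h
  have b1 := Real.sin_sq_add_cos_sq φ
  have h2 : d ^ 2 - ρ = d * (2 * (Real.cos φ * c.re + Real.sin φ * c.im)) := by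
    linear_combination h - d ^ 2 * b1
  have h3 : d - ρ / d = (d ^ 2 - ρ) / d := by
    field_simp
  rw [h3, h2]
  field_simp

/-- three points on a circle around which `0` is surrounded -/
theorem sym_of_points {V : ℝ → ℝ} {E : Set ℂ} {m : ℝ} (hT : T.Good m)
    (h : Cfg V E m) (hper : Function.Periodic V (2 * Real.pi))
    (hcl : ∀ g, 2 * T.N ≤ g → g ≤ gmax → Claim T m g)
    (hmono : ∀ g < gmax, T.G g ≤ T.G (g + 1)) (hlines : Lines T Lt b JM)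
    (hgm : Real.pi * T.U < gmax + 1)
    {ρ d₁ d₂ d₃ φ₁ φ₂ φ₃ : ℝ} {c : ℂ} (hρm : ρ + ‖c‖ ^ 2 ≤ m ^ 2)
    (hp₁ : Pt E d₁ φ₁) (hp₂ : Pt E d₂ φ₂) (hp₃ : Pt E d₃ φ₃)
    (h₁ : ‖(d₁ : ℂ) * exp (φ₁ * I) - c‖ ^ 2 = ρ + ‖c‖ ^ 2)
    (h₂ : ‖(d₂ : ℂ) * exp (φ₂ * I) - c‖ ^ 2 = ρ + ‖c‖ ^ 2)
    (h₃ : ‖(d₃ : ℂ) * exp (φ₃ * I) - c‖ ^ 2 = ρ + ‖c‖ ^ 2)
    (c1 : φ₁ ≤ φ₂) (c2 : φ₂ ≤ φ₁ + Real.pi) (c3 : φ₁ + Real.pi ≤ φ₃) (c4 : φ₃ ≤ φ₂ + Real.pi) :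
    ∃ H₁ H₂ H₃ : ℝ, Sym3 T Lt b JM gmax (10 ^ 8 * ∫ θ in (0 : ℝ)..(2 * Real.pi), V θ)
      (φ₃ - φ₂) (φ₁ + 2 * Real.pi - φ₃) (φ₂ - φ₁) H₁ H₂ H₃ (T.Kd d₁) (T.Kd d₂) (T.Kd d₃) := by
  have hU : (0 : ℝ) < T.U := by exact_mod_cast hT.U_pos
  have hd₁ := hp₁.1
  have hd₂ := hp₂.1
  have hd₃ := hp₃.1
  have hpi := Real.pi_pos
  obtain ⟨k₁, hk₁, L₁⟩ := hlines d₁ hd₁
  obtain ⟨k₂, hk₂, L₂⟩ := hlines d₂ hd₂
  obtain ⟨k₃, hk₃, L₃⟩ := hlines d₃ hd₃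
  have f₁ := sym_one (by linarith) h₁
  have f₂ := sym_one (by linarith) h₂
  have f₃ := sym_one (by linarith) h₃
  have hρM : ρ ≤ T.M2 / 10 ^ 4 := by
    have h4 := hT.m_sq
    have h5 := sq_nonneg ‖c‖
    linarith
  have hkM : ∀ d : ℝ, 1 ≤ d → T.Kd d ≤ d - ρ / d := by
    intro d hd
    unfold Tab.Kd
    have h4 : ρ / d ≤ (T.M2 / 10 ^ 4) / d := div_le_div_of_nonneg_right hρM (by linarith)
    linarith
  have hlow : ∀ d : ℝ, 1 ≤ d → 1 - (T.M2 / 10 ^ 4 : ℝ) ≤ T.Kd d := by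
    intro d hd
    unfold Tab.Kd
    have h4 : (T.M2 / 10 ^ 4 : ℝ) / d ≤ T.M2 / 10 ^ 4 := div_le_self (by positivity) hd
    linarith
  have g1 := hkM d₁ hd₁
  have g2 := hkM d₂ hd₂
  have g3 := hkM d₃ hd₃
  set a : ℝ := 2 * c.re with ha
  set b' : ℝ := 2 * c.im with hb'
  have e₁ : d₁ - ρ / d₁ = Real.cos φ₁ * a + Real.sin φ₁ * b' := by rw [f₁, ha, hb']; ring
  have e₂ : d₂ - ρ / d₂ = Real.cos φ₂ * a + Real.sin φ₂ * b' := by rw [f₂, ha, hb']; ring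
  have e₃ : d₃ - ρ / d₃ = Real.cos φ₃ * a + Real.sin φ₃ * b' := by rw [f₃, ha, hb']; ring
  have s1 : 0 ≤ Real.sin (φ₃ - φ₂) := Real.sin_nonneg_of_nonneg_of_le_pi (by linarith)
    (by linarith)
  have s2 : 0 ≤ Real.sin (φ₁ + 2 * Real.pi - φ₃) :=
    Real.sin_nonneg_of_nonneg_of_le_pi (by linarith) (by linarith)
  have s3 : 0 ≤ Real.sin (φ₂ - φ₁) := Real.sin_nonneg_of_nonneg_of_le_pi (by linarith)
    (by linarith)
  -- antipodal points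
  have hanti : ∀ {φ ψ : ℝ}, ψ = φ + Real.pi →
      (Real.cos φ * a + Real.sin φ * b') + (Real.cos ψ * a + Real.sin ψ * b') = 0 := by
    intro φ ψ hψ
    rw [hψ, Real.cos_add_pi, Real.sin_add_pi]
    ring
  refine ⟨2 * T.J k₁ T.N, 2 * T.J k₂ T.N, 2 * T.J k₃ T.N, ?_⟩
  refine ⟨by linarith, by linarith, by linarith, by linarith, by linarith, by linarith, by ring,
    L₁, L₂, L₃, hlow _ hd₁, hlow _ hd₂, hlow _ hd₃, ?_, ?_, ?_, ?_, ?_, ?_, ?_, ?_⟩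
  · have i1 := mul_le_mul_of_nonneg_left g1 s1
    have i2 := mul_le_mul_of_nonneg_left g2 s2
    have i3 := mul_le_mul_of_nonneg_left g3 s3
    have i4 : Real.sin (φ₃ - φ₂) * (d₁ - ρ / d₁) +
        Real.sin (φ₁ + 2 * Real.pi - φ₃) * (d₂ - ρ / d₂) +
        Real.sin (φ₂ - φ₁) * (d₃ - ρ / d₃) = 0 := by
      have i5 : Real.sin (φ₁ + 2 * Real.pi - φ₃) = Real.sin (φ₁ - φ₃) := by
        rw [show φ₁ + 2 * Real.pi - φ₃ = φ₁ - φ₃ + 2 * Real.pi by ring, Real.sin_add_two_pi]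
      rw [i5, e₁, e₂, e₃, Real.sin_sub, Real.sin_sub, Real.sin_sub]
      ring
    linarith
  · intro h0
    have i1 : φ₃ = φ₁ + Real.pi := by linarith
    have i2 : φ₂ = φ₁ + Real.pi := by linarith
    have j1 := hanti i1
    have j2 := hanti i2
    constructor <;> linarith
  · intro h0
    have i1 : φ₂ = φ₁ + Real.pi := by linarith
    have i2 : φ₃ = φ₂ + Real.pi := by linarith
    have j1 := hanti i1
    have j2 := hanti i2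
    constructor <;> linarith
  · intro h0
    have i1 : φ₃ = φ₁ + Real.pi := by linarith
    have i2 : φ₃ = φ₂ + Real.pi := by linarith
    have j1 := hanti i1
    have j2 := hanti i2
    constructor <;> linarith
  · intro n₁ n₂ n₃ b1 b2 b3
    have hpU : ∀ x : ℝ, x ≤ Real.pi → x * T.U < gmax + 1 := by
      intro x hx
      refine lt_of_le_of_lt ?_ hgm
      exact mul_le_mul_of_nonneg_right hx hU.le
    have q₁ := gap_P hT h hcl hmono hp₂ hp₃ hk₂ hk₃ b1 (by linarith) (hpU _ (by linarith))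
    have q₂ := gap_P hT h hcl hmono hp₃ hp₁.add_two_pi hk₃ hk₁ b2 (by linarith)
      (hpU _ (by linarith))
    have q₃ := gap_P hT h hcl hmono hp₁ hp₂ hk₁ hk₂ b3 (by linarith) (hpU _ (by linarith))
    have e1 := intervalIntegral.integral_add_adjacent_intervals
      (h.intervalIntegrable φ₁ φ₂) (h.intervalIntegrable φ₂ φ₃)
    have e2 := intervalIntegral.integral_add_adjacent_intervals
      (h.intervalIntegrable φ₁ φ₃) (h.intervalIntegrable φ₃ (φ₁ + 2 * Real.pi))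
    have hperI := hper.intervalIntegral_add_eq φ₁ 0
    rw [zero_add] at hperI
    rw [← hperI, ← e2, ← e1]
    linarith
  · intro n₁ n₂ b1 b2 b3 b4 b5
    have := pair_G hT h hper hcl hmono hp₂ hp₃ hk₂ hk₃ b1 b2 b3 b4 (by linarith) b5
    linarith
  · intro n₁ n₂ b1 b2 b3 b4 b5
    have := pair_G hT h hper hcl hmono hp₃ hp₁.add_two_pi hk₃ hk₁ b1 b2 b3 b4 (by linarith) b5
    linarith
  · intro n₁ n₂ b1 b2 b3 b4 b5
    have := pair_G hT h hper hcl hmono hp₁ hp₂ hk₁ hk₂ b1 b2 b3 b4 (by linarith) b5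
    linarith

/-- the total mass -/
theorem total2 {V : ℝ → ℝ} {E : Set ℂ} {m : ℝ} {e : EndData} (he : e.Good T) (hT : T.Good m)
    (h : Cfg V E m) (hE : IsClosed E) (hper : Function.Periodic V (2 * Real.pi))
    (hcl : ∀ g, 2 * T.N ≤ g → g ≤ e.gmax → Claim T m g)
    (hmono : ∀ g < e.gmax, T.G g ≤ T.G (g + 1)) (hm0 : 0 < m) (hm1 : m < 5 / 4) :
    (e.tgt : ℝ) < 10 ^ 8 * ∫ θ in (0 : ℝ)..(2 * Real.pi), V θ := by
  obtain ⟨c, ρ, hρ, hρm, hdir⟩ := root_min hE h.norm hm1 h.cov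
  set N : Set ℂ := {p | p ∈ E ∧ ‖p - c‖ ^ 2 = ρ + ‖c‖ ^ 2} with hN
  have hNc : IsCompact N := by
    have h1 : IsClosed N := by
      apply hE.inter
      exact isClosed_eq (by fun_prop) continuous_const
    have h2 : N ⊆ closedBall c m := by
      intro p hp
      rw [mem_closedBall, dist_eq_norm]
      apply le_of_sq_le_sq _ hm0.le
      rw [hp.2]
      exact hρm
    exact (isCompact_closedBall c m).of_isClosed_subset h1 h2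
  obtain ⟨d₁, d₂, d₃, φ₁, φ₂, φ₃, hd₁, hd₂, hd₃, c1, c2, c3, c4, e₁, e₂, e₃⟩ :=
    root_angles hNc (fun p hp => h.norm p hp.1) (fun v => by
      obtain ⟨p, hp, h1, h2⟩ := hdir v
      exact ⟨p, ⟨hp, h1⟩, h2⟩)
  have hgm : Real.pi * T.U < e.gmax + 1 := by
    have h1 := he.gm1
    have h2 : (0 : ℝ) ≤ (e.jx * e.r : ℕ) := Nat.cast_nonneg _
    push_cast at h2
    linarith
  obtain ⟨H₁, H₂, H₃, hs⟩ := sym_of_points hT h hper hcl hmono he.lines hgm hρm ⟨hd₁, e₁.1⟩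
    ⟨hd₂, e₂.1⟩ ⟨hd₃, e₃.1⟩ e₁.2 e₂.2 e₃.2 c1 c2 c3 c4
  exact sym_all he hT.U_pos hs

end Pool.Agent.Helper54.LN
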