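import Pool.Agent.Helper54.LN.Tri
import Pool.Agent.Helper54.LN.Root1

/-!
# Project LN (MP_599705_an): the total mass
-/

set_option autoImplicit false

namespace Pool.Agent.Helper54.LN

open Complex Metric Set MeasureTheory
open Pool.Agent.Helper91.LC

/-- the numerical conditions of the end game -/
structure EndOK (T : Tab) (m : ℝ) (tgt : ℕ) : Prop where
  ex : ∃ α β m4 tw TS gl gu gmax t6 Y x0 nc TF : ℕ, Line T α β ∧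
    (∀ g, 2 * T.N ≤ g → g ≤ gmax → Claim T m g) ∧ (∀ g < gmax, T.G g ≤ T.G (g + 1)) ∧
    m ≤ m4 / 10 ^ 4 ∧
    allB (fun i => pB T α β tgt m4 tw TS (gl + i)) (gu + 1 - gl) = true ∧
    2 * T.N ≤ gl ∧ Real.pi * T.U < gu + 1 ∧ (tw + 1 : ℝ) ≤ 2 * Real.pi * T.U ∧
    2 * T.N ≤ tw - gu ∧ 2 * Real.pi * T.U < gmax + gl + 1 ∧ gu ≤ gmax ∧ gu ≤ tw ∧
    (gl : ℝ) / T.U ≤ Y / 100 ∧
    allB (fun i => tcB T α β tgt t6 Y (x0 + 5 * i) (get 32 TF i)) nc = true ∧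
    Y ≤ 313 ∧ Real.tan ((Y : ℝ) / 100 / 2) ≤ t6 / 10 ^ 6 ∧ x0 + 2 * Y ≤ 628 ∧
    210 ≤ x0 + 5 * nc

theorem total {V : ℝ → ℝ} {E : Set ℂ} {m : ℝ} {T : Tab} (hT : T.Good m) (h : Cfg V E m)
    (hE : IsClosed E) (hper : Function.Periodic V (2 * Real.pi))
    (hJ0 : ∀ n, T.J 0 n ≤ T.J 0 (n + 1)) (hM2 : 10 ^ 4 ≤ T.M2) (hm0 : 0 < m) (hm1 : m < 5 / 4)
    {tgt : ℕ} (hend : EndOK T m tgt)
    (hroot : ∀ {N : Set ℂ}, IsCompact N → (∀ p ∈ N, 1 ≤ ‖p‖) →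
      (∀ v : ℂ, ∃ p ∈ N, 0 ≤ (p * (starRingEnd ℂ) v).re) →
      ∃ d₁ d₂ d₃ φ₁ φ₂ φ₃ : ℝ, 1 ≤ d₁ ∧ 1 ≤ d₂ ∧ 1 ≤ d₃ ∧
      φ₁ ≤ φ₂ ∧ φ₂ ≤ φ₁ + Real.pi ∧ φ₁ + Real.pi ≤ φ₃ ∧ φ₃ ≤ φ₂ + Real.pi ∧
      (d₁ : ℂ) * exp (φ₁ * I) ∈ N ∧ (d₂ : ℂ) * exp (φ₂ * I) ∈ N ∧
      (d₃ : ℂ) * exp (φ₃ * I) ∈ N) :
    (tgt : ℝ) < 10 ^ 8 * ∫ θ in (0 : ℝ)..(2 * Real.pi), V θ := by
  obtain ⟨α, β, m4, tw, TS, gl, gu, gmax, t6, Y, x0, nc, TF, hline, hcl, hmono, hm4, hpB, hgl,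
    hgu, htw, htl, hgmax, hgg, hgt, hglY, htc, hY, ht6, hx0, hnc⟩ := hend.ex
  obtain ⟨c, ρ, hρ, hρm, hdir⟩ := root_min hE h.norm hm1 h.cov
  set N : Set ℂ := {p | p ∈ E ∧ ‖p - c‖ ^ 2 = ρ + ‖c‖ ^ 2} with hN
  have hNc : IsCompact N := by
    have h1 : IsClosed N := by
      apply hE.inter
      exact isClosed_eq (by fun_prop) continuous_const
    have h2 : N ⊆ closedBall c m := by
      intro p hp
      rw [mem_closedBall, dist_eq_norm]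
      apply le_of_sq_le_sq _ hm0.le
      rw [hp.2]
      exact hρm
    exact (isCompact_closedBall c m).of_isClosed_subset h1 h2
  obtain ⟨d₁, d₂, d₃, φ₁, φ₂, φ₃, hd₁, hd₂, hd₃, c1, c2, c3, c4, e₁, e₂, e₃⟩ :=
    hroot hNc (fun p hp => h.norm p hp.1) (fun v => by
      obtain ⟨p, hp, h1, h2⟩ := hdir v
      exact ⟨p, ⟨hp, h1⟩, h2⟩)
  have hp₁ : Pt E d₁ φ₁ := ⟨hd₁, e₁.1⟩
  have hp₂ : Pt E d₂ φ₂ := ⟨hd₂, e₂.1⟩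
  have hp₃ : Pt E d₃ φ₃ := ⟨hd₃, e₃.1⟩
  have hle : ∀ {d φ : ℝ}, (d : ℂ) * exp (φ * I) ∈ N → ‖(d : ℂ) * exp (φ * I) - c‖ ≤ m := by
    intro d φ hp
    apply le_of_sq_le_sq _ hm0.le
    rw [hp.2]
    exact hρm
  have e₄ : (d₁ : ℂ) * exp (((φ₁ + 2 * Real.pi : ℝ) : ℂ) * I) ∈ N := by
    have h1 : exp (((φ₁ + 2 * Real.pi : ℝ) : ℂ) * I) = exp (φ₁ * I) := by
      push_cast
      rw [add_mul, Complex.exp_add, Complex.exp_two_pi_mul_I, mul_one]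
    rw [h1]
    exact e₁
  have hpair : ∀ {da db φa φb : ℝ}, 1 ≤ da → 1 ≤ db → (da : ℂ) * exp (φa * I) ∈ N →
      (db : ℂ) * exp (φb * I) ∈ N → φa + Y / 100 ≤ φb → φb ≤ φa + Real.pi →
      (tgt : ℝ) < 10 ^ 8 * ∫ θ in (0 : ℝ)..(2 * Real.pi), V θ := by
    intro da db φa φb hda hdb ha hb h1 h2
    have h3 := pair_bound (by linarith) (by linarith) (hle ha) (hle hb)
    have hYn : (0 : ℝ) ≤ Y / 100 := by positivity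
    have h4 : 0 ≤ Real.sin ((φb - φa) / 2) :=
      Real.sin_nonneg_of_nonneg_of_le_pi (by linarith) (by linarith [Real.pi_pos])
    rw [abs_of_nonneg h4] at h3
    exact pair_total hT h hper hline hcl hmono hm0 hm4 hpB hgl hgu htw htl hgmax hgg hgt
      ⟨hda, ha.1⟩ ⟨hdb, hb.1⟩ (by linarith) h2 h3
  rcases lt_or_ge (φ₂ - φ₁) (Y / 100) with g1 | g1
  · rcases lt_or_ge (φ₃ - φ₂) (Y / 100) with g2 | g2
    · rcases lt_or_ge (φ₁ + 2 * Real.pi - φ₃) (Y / 100) with g3 | g3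
      · exact tri_total hT h hper hJ0 hM2 hline htc hY ht6 hx0 hnc hρ hρm hp₁ hp₂ hp₃ e₁.2 e₂.2
          e₃.2 g1.le g2.le g3.le
      · exact hpair hd₃ hd₁ e₃ e₄ (by linarith) (by linarith)
    · exact hpair hd₂ hd₃ e₂ e₃ (by linarith) c4
  · exact hpair hd₁ hd₂ e₁ e₂ (by linarith) c2

end Pool.Agent.Helper54.LN
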