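import Mathlib

/-! Project LN (MP_599705_an), piece LN-Trig: three short lemmas on sines. -/

set_option autoImplicit false

namespace Pool.Agent.Helper54.LN

open Complex Metric Set

private lemma trig_re (φ : ℝ) : (exp (φ * I)).re = Real.cos φ := by
  rw [Complex.exp_ofReal_mul_I_re]

private lemma trig_im (φ : ℝ) : (exp (φ * I)).im = Real.sin φ := by
  rw [Complex.exp_ofReal_mul_I_im]

/-- two points in a common disc of radius `m`, seen from `0` -/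
theorem pair_bound {m d₁ d₂ φ₁ φ₂ : ℝ} {c : ℂ} (hd₁ : 0 ≤ d₁) (hd₂ : 0 ≤ d₂)
    (h₁ : ‖(d₁ : ℂ) * exp (φ₁ * I) - c‖ ≤ m) (h₂ : ‖(d₂ : ℂ) * exp (φ₂ * I) - c‖ ≤ m) :
    (d₁ + d₂) * |Real.sin ((φ₂ - φ₁) / 2)| ≤ 2 * m := by
  have h3 : ‖(d₁ : ℂ) * exp (φ₁ * I) - (d₂ : ℂ) * exp (φ₂ * I)‖ ≤ 2 * m := by
    have e : (d₁ : ℂ) * exp (φ₁ * I) - (d₂ : ℂ) * exp (φ₂ * I) =
        ((d₁ : ℂ) * exp (φ₁ * I) - c) - ((d₂ : ℂ) * exp (φ₂ * I) - c) := by ring
    rw [e]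
    refine (norm_sub_le _ _).trans ?_
    linarith
  have hm : 0 ≤ m := (norm_nonneg _).trans h₁
  have h4 : ‖(d₁ : ℂ) * exp (φ₁ * I) - (d₂ : ℂ) * exp (φ₂ * I)‖ ^ 2 =
      (d₁ + d₂) ^ 2 * Real.sin ((φ₂ - φ₁) / 2) ^ 2 +
        (d₁ - d₂) ^ 2 * Real.cos ((φ₂ - φ₁) / 2) ^ 2 := by
    rw [← Complex.normSq_eq_norm_sq, Complex.normSq_apply]
    simp only [Complex.sub_re, Complex.sub_im, Complex.mul_re, Complex.mul_im,
      Complex.ofReal_re, Complex.ofReal_im, trig_re, trig_im, zero_mul, sub_zero, add_zero]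
    have a1 : Real.sin ((φ₂ - φ₁) / 2) ^ 2 = (1 - Real.cos (φ₂ - φ₁)) / 2 := by
      have := Real.cos_two_mul ((φ₂ - φ₁) / 2)
      have h5 := Real.sin_sq_add_cos_sq ((φ₂ - φ₁) / 2)
      have e : 2 * ((φ₂ - φ₁) / 2) = φ₂ - φ₁ := by ring
      rw [e] at this
      linarith
    have a2 : Real.cos ((φ₂ - φ₁) / 2) ^ 2 = (1 + Real.cos (φ₂ - φ₁)) / 2 := by
      have h5 := Real.sin_sq_add_cos_sq ((φ₂ - φ₁) / 2)
      linarith
    rw [a1, a2, Real.cos_sub]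
    have b1 := Real.sin_sq_add_cos_sq φ₁
    have b2 := Real.sin_sq_add_cos_sq φ₂
    linear_combination d₁ ^ 2 * b1 + d₂ ^ 2 * b2
  have h5 : ((d₁ + d₂) * |Real.sin ((φ₂ - φ₁) / 2)|) ^ 2 ≤ (2 * m) ^ 2 := by
    rw [mul_pow, sq_abs]
    have h6 : ‖(d₁ : ℂ) * exp (φ₁ * I) - (d₂ : ℂ) * exp (φ₂ * I)‖ ^ 2 ≤ (2 * m) ^ 2 :=
      pow_le_pow_left₀ (norm_nonneg _) h3 2
    have h7 : 0 ≤ (d₁ - d₂) ^ 2 * Real.cos ((φ₂ - φ₁) / 2) ^ 2 := by positivity
    linarith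
  exact le_of_sq_le_sq' h5 (by positivity) where
  le_of_sq_le_sq' {a b : ℝ} (h : a ^ 2 ≤ b ^ 2) (hb : 0 ≤ b) : a ≤ b :=
    (abs_le_of_sq_le_sq' h hb).2

private lemma trig_one {ρ d φ : ℝ} {c : ℂ} (hd : 0 < d)
    (h : ‖(d : ℂ) * exp (φ * I) - c‖ ^ 2 = ρ + ‖c‖ ^ 2) :
    d - ρ / d = 2 * (Real.cos φ * c.re + Real.sin φ * c.im) := by
  rw [← Complex.normSq_eq_norm_sq, ← Complex.normSq_eq_norm_sq, Complex.normSq_apply,
    Complex.normSq_apply] at h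
  simp only [Complex.sub_re, Complex.sub_im, Complex.mul_re, Complex.mul_im,
      Complex.ofReal_re, Complex.ofReal_im, trig_re, trig_im, zero_mul, sub_zero, add_zero] at h
  have b1 := Real.sin_sq_add_cos_sq φ
  have h2 : d ^ 2 - ρ = d * (2 * (Real.cos φ * c.re + Real.sin φ * c.im)) := by
    linear_combination h - d ^ 2 * b1
  have h3 : d - ρ / d = (d ^ 2 - ρ) / d := by
    field_simp
  rw [h3, h2]
  field_simp

/-- the barycentric identity: `d ^ 2 - 2 * d * (exp (φ * I) * conj c).re = ρ` for three points -/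
theorem triple_identity {ρ d₁ d₂ d₃ φ₁ φ₂ φ₃ : ℝ} {c : ℂ} (hd₁ : 0 < d₁) (hd₂ : 0 < d₂)
    (hd₃ : 0 < d₃)
    (h₁ : ‖(d₁ : ℂ) * exp (φ₁ * I) - c‖ ^ 2 = ρ + ‖c‖ ^ 2)
    (h₂ : ‖(d₂ : ℂ) * exp (φ₂ * I) - c‖ ^ 2 = ρ + ‖c‖ ^ 2)
    (h₃ : ‖(d₃ : ℂ) * exp (φ₃ * I) - c‖ ^ 2 = ρ + ‖c‖ ^ 2) :
    Real.sin (φ₃ - φ₂) * (d₁ - ρ / d₁) + Real.sin (φ₁ - φ₃) * (d₂ - ρ / d₂) +
      Real.sin (φ₂ - φ₁) * (d₃ - ρ / d₃) = 0 := by
  rw [trig_one hd₁ h₁, trig_one hd₂ h₂, trig_one hd₃ h₃, Real.sin_sub, Real.sin_sub,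
    Real.sin_sub]
  ring

/-- `g` is the smallest, `y` the largest and `h` the middle one of three angles with sum `2π`;
`k₁, k₂, k₃` are attached to `g, h, y`. Proof: `Real.sin y` is the smallest of the three
sines (it is positive), so `sin y * (k₁ + k₂ + k₃) ≤ κ * (sin g + sin h - 2 * sin y)`, and
`(sin g + sin h) / sin y = sin g * tan (y / 2) - cos g ≤ sin g * tan (y₀ / 2) - cos g`. -/
theorem triple_bound {κ y₀ g h y k₁ k₂ k₃ : ℝ} (hκ : 0 ≤ κ) (hgh : g ≤ h) (hhy : h ≤ y)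
    (hy : y ≤ y₀) (hy₀ : y₀ < Real.pi) (hg : 0 < g) (hsum : g + h + y = 2 * Real.pi)
    (h₁ : -κ ≤ k₁) (h₂ : -κ ≤ k₂) (h₃ : -κ ≤ k₃)
    (hk : Real.sin g * k₁ + Real.sin h * k₂ + Real.sin y * k₃ ≤ 0) :
    k₁ + k₂ + k₃ ≤ κ * (Real.sin g * Real.tan (y₀ / 2) - Real.cos g - 2) := by
  have hpi := Real.pi_pos
  have hy0 : 0 < y := by linarith
  have hyp : y < Real.pi := by linarith
  have hsy : 0 < Real.sin y := Real.sin_pos_of_pos_of_lt_pi hy0 hyp
  have hsg : 0 < Real.sin g := Real.sin_pos_of_pos_of_lt_pi hg (by linarith)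
  -- a general comparison
  have key : ∀ x : ℝ, x ≤ y → Real.pi - y ≤ x → Real.sin y ≤ Real.sin x := by
    intro x hx1 hx2
    have e : Real.sin x - Real.sin y =
        2 * Real.sin ((x - y) / 2) * Real.cos ((x + y) / 2) := Real.sin_sub_sin x y
    have e1 : Real.sin ((x - y) / 2) ≤ 0 :=
      Real.sin_nonpos_of_nonpos_of_neg_pi_le (by linarith) (by linarith)
    have e2 : Real.cos ((x + y) / 2) ≤ 0 :=
      Real.cos_nonpos_of_pi_div_two_le_of_le (by linarith) (by linarith)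
    nlinarith [mul_nonneg_of_nonpos_of_nonpos e1 e2]
  have k1 : Real.sin y ≤ Real.sin g := key g (by linarith) (by linarith)
  have k2 : Real.sin y ≤ Real.sin h := key h (by linarith) (by linarith)
  have m1 : 0 ≤ (Real.sin g - Real.sin y) * (k₁ + κ) :=
    mul_nonneg (by linarith) (by linarith)
  have m2 : 0 ≤ (Real.sin h - Real.sin y) * (k₂ + κ) :=
    mul_nonneg (by linarith) (by linarith)
  have m3 : Real.sin y * (k₁ + k₂ + k₃) ≤ κ * (Real.sin g + Real.sin h - 2 * Real.sin y) := by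
    nlinarith
  -- the tangent of the half angle
  have hch : 0 < Real.cos (y / 2) :=
    Real.cos_pos_of_mem_Ioo ⟨by linarith, by linarith⟩
  have hs2 : Real.sin y = 2 * Real.sin (y / 2) * Real.cos (y / 2) := by
    have := Real.sin_two_mul (y / 2)
    rwa [show 2 * (y / 2) = y by ring] at this
  have hc2 : Real.cos y = 1 - 2 * Real.sin (y / 2) ^ 2 := by
    have h5 := Real.cos_two_mul (y / 2)
    have h6 := Real.sin_sq_add_cos_sq (y / 2)
    rw [show 2 * (y / 2) = y by ring] at h5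
    linarith
  have ht : Real.sin y * Real.tan (y / 2) = 1 - Real.cos y := by
    rw [Real.tan_eq_sin_div_cos, hs2, hc2]
    field_simp
    ring
  have hsh : Real.sin h = - (Real.sin g * Real.cos y) - Real.cos g * Real.sin y := by
    have e : h = 2 * Real.pi - (g + y) := by linarith
    rw [e, Real.sin_two_pi_sub, Real.sin_add]
    ring
  have m4 : Real.sin g + Real.sin h - 2 * Real.sin y =
      Real.sin y * (Real.sin g * Real.tan (y / 2) - Real.cos g - 2) := by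
    rw [hsh]
    linear_combination (-Real.sin g) * ht
  have m5 : k₁ + k₂ + k₃ ≤ κ * (Real.sin g * Real.tan (y / 2) - Real.cos g - 2) := by
    rw [m4] at m3
    have : Real.sin y * (k₁ + k₂ + k₃) ≤
        Real.sin y * (κ * (Real.sin g * Real.tan (y / 2) - Real.cos g - 2)) := by
      linarith
    exact le_of_mul_le_mul_left this hsy
  have ht2 : Real.tan (y / 2) ≤ Real.tan (y₀ / 2) := by
    rcases eq_or_lt_of_le hy with e | hlt
    · rw [e]
    · exact (Real.tan_lt_tan_of_lt_of_lt_pi_div_two (by linarith) (by linarith)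
        (by linarith)).le
  refine m5.trans (mul_le_mul_of_nonneg_left ?_ hκ)
  have := mul_le_mul_of_nonneg_left ht2 hsg.le
  linarith

end Pool.Agent.Helper54.LN
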