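import Pool.Agent.Helper54.LN.PT
import Pool.Agent.Helper54.LN.Trig

/-!
# Project LN (MP_599705_an): three points around `0`
-/

set_option autoImplicit false

namespace Pool.Agent.Helper54.LN

open Complex Metric Set MeasureTheory
open Pool.Agent.Helper91.LC

/-- the loss of a bump cut at the middle of a gap `γ` -/
noncomputable def Tab.R (T : Tab) (γ : ℝ) : ℝ := T.J 0 T.N - T.J 0 ⌊γ / 2 * T.U⌋₊

theorem gap_half {V : ℝ → ℝ} {E : Set ℂ} {m : ℝ} {T : Tab} (hT : T.Good m) (h : Cfg V E m)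
    {ka kb : ℕ} {da db φa φb : ℝ} (ha : Pt E da φa) (hb : Pt E db φb) (hka : T.In ka da)
    (hkb : T.In kb db) (hab : φa ≤ φb) :
    (T.J ka T.N : ℝ) + T.J kb T.N - 2 * T.R (φb - φa) ≤ 10 ^ 8 * ∫ θ in φa..φb, V θ := by
  have hU : (0 : ℝ) < T.U := by exact_mod_cast hT.U_pos
  unfold Tab.R
  set s : ℕ := ⌊(φb - φa) / 2 * T.U⌋₊ with hs
  have h0 : 0 ≤ (φb - φa) / 2 * T.U := by
    apply mul_nonneg _ hU.le
    linarith
  have hs1 : (s : ℝ) ≤ (φb - φa) / 2 * T.U := Nat.floor_le h0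
  have hs2 : (s : ℝ) / T.U ≤ (φb - φa) / 2 := by rwa [div_le_iff₀ hU]
  have h1 := hT.bump _ _ h ka s da φa ha hka
  have h2 := bump_left hT h s hb hkb
  have h3 : (T.J ka T.N : ℝ) + T.J 0 s ≤ T.J 0 T.N + T.J ka s := by
    exact_mod_cast hT.mono ka s
  have h4 : (T.J kb T.N : ℝ) + T.J 0 s ≤ T.J 0 T.N + T.J kb s := by
    exact_mod_cast hT.mono kb s
  have h5 := intervalIntegral.integral_add_adjacent_intervals
    (h.intervalIntegrable φa (φa + s / T.U))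
    (h.intervalIntegrable (φa + s / T.U) (φb - s / T.U))
  have h6 := intervalIntegral.integral_add_adjacent_intervals
    (h.intervalIntegrable φa (φb - s / T.U))
    (h.intervalIntegrable (φb - s / T.U) φb)
  have h7 : 0 ≤ ∫ θ in (φa + s / T.U)..(φb - s / T.U), V θ := by
    apply h.int_nonneg
    linarith
  linarith

theorem R_le {T : Tab} (hJ0 : ∀ n, T.J 0 n ≤ T.J 0 (n + 1)) {γ : ℝ} {s : ℕ} (hU : 0 < T.U)
    (hs : 2 * (s : ℝ) ≤ γ * T.U) : T.R γ ≤ T.J 0 T.N - T.J 0 s := by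
  have hU' : (0 : ℝ) < T.U := by exact_mod_cast hU
  have hmono : Monotone (T.J 0) := monotone_nat_of_le_succ hJ0
  have h1 : s ≤ ⌊γ / 2 * T.U⌋₊ := by
    apply Nat.le_floor
    linarith
  have h2 : (T.J 0 s : ℝ) ≤ T.J 0 ⌊γ / 2 * T.U⌋₊ := by exact_mod_cast hmono h1
  unfold Tab.R
  linarith

/-! ### numerical checks -/

/-- `F / 10 ^ 8` is an upper bound of `t6 / 10 ^ 6 * sin x - cos x`, `x = a / 100 ≤ pi / 2` -/
def fB (a t6 F : ℕ) : Bool :=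
  Nat.ble (t6 * 10 ^ 8 * (3628800 * a * 100 ^ 9 + 30240 * a ^ 5 * 100 ^ 5 + 10 * a ^ 9 * 100) +
      10 ^ 14 * (1814400 * a ^ 2 * 100 ^ 8 + 5040 * a ^ 6 * 100 ^ 4 + a ^ 10))
    (F * 10 ^ 6 * 3628800 * 100 ^ 10 +
      10 ^ 14 * (3628800 * 100 ^ 10 + 151200 * a ^ 4 * 100 ^ 6 + 90 * a ^ 8 * 100 ^ 2) +
      t6 * 10 ^ 8 * (604800 * a ^ 3 * 100 ^ 7 + 720 * a ^ 7 * 100 ^ 3))

theorem fB_of {a t6 F : ℕ} (h : fB a t6 F = true) (ha : a ≤ 157) {g : ℝ} (hg0 : 0 ≤ g)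
    (hg : g ≤ a / 100) :
    (t6 : ℝ) / 10 ^ 6 * Real.sin g - Real.cos g ≤ F / 10 ^ 8 := by
  have h1 := Nat.le_of_ble_eq_true h
  have h2 := Helper83.LC.sincos_bd ((a : ℝ) / 100) (by positivity)
  have hpi := Real.pi_gt_d6
  have ha' : (a : ℝ) ≤ 157 := by exact_mod_cast ha
  have h3 : Real.sin g ≤ Real.sin ((a : ℝ) / 100) :=
    Real.sin_le_sin_of_le_of_le_pi_div_two (by linarith) (by linarith) hg
  have h4 : Real.cos ((a : ℝ) / 100) ≤ Real.cos g :=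
    Real.cos_le_cos_of_nonneg_of_le_pi hg0 (by linarith) hg
  have h5 : (t6 : ℝ) * 10 ^ 8 * (3628800 * a * 100 ^ 9 + 30240 * a ^ 5 * 100 ^ 5 +
      10 * a ^ 9 * 100) +
      10 ^ 14 * (1814400 * a ^ 2 * 100 ^ 8 + 5040 * a ^ 6 * 100 ^ 4 + a ^ 10) ≤
      F * 10 ^ 6 * 3628800 * 100 ^ 10 +
      10 ^ 14 * (3628800 * 100 ^ 10 + 151200 * a ^ 4 * 100 ^ 6 + 90 * a ^ 8 * 100 ^ 2) +
      t6 * 10 ^ 8 * (604800 * a ^ 3 * 100 ^ 7 + 720 * a ^ 7 * 100 ^ 3) := by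
    exact_mod_cast h1
  have h6 : (t6 : ℝ) / 10 ^ 6 * ((a : ℝ) / 100 - ((a : ℝ) / 100) ^ 3 / 6 +
      ((a : ℝ) / 100) ^ 5 / 120 - ((a : ℝ) / 100) ^ 7 / 5040 + ((a : ℝ) / 100) ^ 9 / 362880) -
      (1 - ((a : ℝ) / 100) ^ 2 / 2 + ((a : ℝ) / 100) ^ 4 / 24 - ((a : ℝ) / 100) ^ 6 / 720 +
        ((a : ℝ) / 100) ^ 8 / 40320 - ((a : ℝ) / 100) ^ 10 / 3628800) ≤ F / 10 ^ 8 := by
    linarith
  have h7 : (t6 : ℝ) / 10 ^ 6 * Real.sin g ≤ (t6 : ℝ) / 10 ^ 6 * ((a : ℝ) / 100 -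
      ((a : ℝ) / 100) ^ 3 / 6 + ((a : ℝ) / 100) ^ 5 / 120 - ((a : ℝ) / 100) ^ 7 / 5040 +
      ((a : ℝ) / 100) ^ 9 / 362880) := by
    apply mul_le_mul_of_nonneg_left _ (by positivity)
    linarith [h2.2.1]
  linarith [h2.2.2.1]

theorem fG_of {t6 F : ℕ} (h : (t6 ^ 2 + 10 ^ 12) * 10 ^ 4 ≤ F ^ 2) (g : ℝ) :
    (t6 : ℝ) / 10 ^ 6 * Real.sin g - Real.cos g ≤ F / 10 ^ 8 := by
  have h1 : ((t6 : ℝ) ^ 2 + 10 ^ 12) * 10 ^ 4 ≤ F ^ 2 := by exact_mod_cast h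
  apply le_of_sq_le_sq _ (by positivity)
  have h2 := Real.sin_sq_add_cos_sq g
  have h3 : ((t6 : ℝ) / 10 ^ 6 * Real.sin g - Real.cos g) ^ 2 ≤ (t6 / 10 ^ 6) ^ 2 + 1 := by
    have h4 : ((t6 : ℝ) / 10 ^ 6 * Real.sin g - Real.cos g) ^ 2 +
        (t6 / 10 ^ 6 * Real.cos g + Real.sin g) ^ 2 = (t6 / 10 ^ 6) ^ 2 + 1 := by
      linear_combination ((t6 / 10 ^ 6 : ℝ) ^ 2 + 1) * h2
    nlinarith [sq_nonneg ((t6 : ℝ) / 10 ^ 6 * Real.cos g + Real.sin g)]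
  refine le_trans h3 ?_
  rw [div_pow, div_pow, ← sub_nonneg]
  have h5 : (F : ℝ) ^ 2 / (10 ^ 8) ^ 2 - ((t6 : ℝ) ^ 2 / (10 ^ 6) ^ 2 + 1) =
      (F ^ 2 - ((t6 : ℝ) ^ 2 + 10 ^ 12) * 10 ^ 4) / 10 ^ 16 := by ring
  rw [h5]
  apply div_nonneg
  · linarith
  · positivity

/-- the test of the cell `[x / 100, (x + 5) / 100]` of the smallest gap, `Y / 100` is the bound of
the largest gap -/
def tcB (T : Tab) (α β tgt t6 Y x F : ℕ) : Bool :=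
  (Nat.ble (2 * 10 ^ 8) F &&
    ((Nat.ble (x + 5) 157 && fB (x + 5) t6 F) || Nat.ble ((t6 ^ 2 + 10 ^ 12) * 10 ^ 4) (F ^ 2))) &&
  Nat.blt (tgt * 10 ^ 12 + β * (T.M2 - 10 ^ 4) * F + 2 * 10 ^ 12 * (3 * T.J 0 T.N))
    (3 * α * 10 ^ 12 + 2 * β * (T.M2 - 10 ^ 4) * 10 ^ 8 + 2 * 10 ^ 12 * (T.J 0 (T.U * x / 200) +
      T.J 0 (T.U * (max x (628 - Y - x - 5)) / 200) + T.J 0 (T.U * 209 / 200)))

/-- the sorted triple -/
theorem tri_sorted {T : Tab} (hU : 0 < T.U) (hJ0 : ∀ n, T.J 0 n ≤ T.J 0 (n + 1))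
    {α β tgt t6 Y x0 nc TF : ℕ} (hM2 : 10 ^ 4 ≤ T.M2)
    (hchk : allB (fun i => tcB T α β tgt t6 Y (x0 + 5 * i) (get 32 TF i)) nc = true)
    (hY : Y ≤ 313) (ht6 : Real.tan ((Y : ℝ) / 100 / 2) ≤ t6 / 10 ^ 6) (hx0 : x0 + 2 * Y ≤ 628)
    (hnc : 210 ≤ x0 + 5 * nc)
    {κ g h y k₁ k₂ k₃ : ℝ} (hκ0 : 0 ≤ κ) (hκ : κ ≤ T.M2 / 10 ^ 4 - 1) (hgh : g ≤ h) (hhy : h ≤ y)
    (hy : y ≤ Y / 100) (hsum : g + h + y = 2 * Real.pi)
    (h₁ : -κ ≤ k₁) (h₂ : -κ ≤ k₂) (h₃ : -κ ≤ k₃)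
    (hk : Real.sin g * k₁ + Real.sin h * k₂ + Real.sin y * k₃ ≤ 0) :
    (tgt : ℝ) + β * (k₁ + k₂ + k₃) + 2 * (T.R g + T.R h + T.R y) < 3 * α := by
  have hU' : (0 : ℝ) < T.U := by exact_mod_cast hU
  have hpi1 := Real.pi_gt_d6
  have hpi2 := Real.pi_lt_d6
  have hY' : (Y : ℝ) ≤ 313 := by exact_mod_cast hY
  have hx0' : (x0 : ℝ) + 2 * Y ≤ 628 := by exact_mod_cast hx0
  have hgx : (x0 : ℝ) / 100 ≤ g := by linarith
  have hx00 : (0 : ℝ) ≤ x0 := Nat.cast_nonneg _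
  have hg0 : 0 < g := by linarith
  set i : ℕ := ⌊(100 * g - x0) / 5⌋₊ with hi
  have hi1 : (i : ℝ) ≤ (100 * g - x0) / 5 := Nat.floor_le (by linarith)
  have hi2 : (100 * g - x0) / 5 < i + 1 := Nat.lt_floor_add_one _
  have hinc : i < nc := by
    have h1 : (210 : ℝ) ≤ x0 + 5 * nc := by exact_mod_cast hnc
    have h2 : (i : ℝ) < nc := by linarith
    exact_mod_cast h2
  have hc := allB_iff.1 hchk i hinc
  set x : ℕ := x0 + 5 * i with hx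
  have hxr : (x : ℝ) = x0 + 5 * i := by rw [hx]; push_cast; ring
  have hxg : (x : ℝ) ≤ 100 * g := by linarith
  have hxg2 : 100 * g ≤ x + 5 := by linarith
  set F : ℕ := get 32 TF i with hF
  unfold tcB at hc
  rw [Bool.and_eq_true, Bool.and_eq_true, Bool.or_eq_true, Bool.and_eq_true] at hc
  obtain ⟨⟨hF2, hFc⟩, hnum⟩ := hc
  have hF2' := Nat.le_of_ble_eq_true hF2
  have hF2r : (2 : ℝ) * 10 ^ 8 ≤ F := by exact_mod_cast hF2'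
  -- the bound of `F`
  have hFg : (t6 : ℝ) / 10 ^ 6 * Real.sin g - Real.cos g ≤ F / 10 ^ 8 := by
    rcases hFc with ⟨h1, h2⟩ | h1
    · exact fB_of h2 (Nat.le_of_ble_eq_true h1) hg0.le (by push_cast; linarith)
    · exact fG_of (Nat.le_of_ble_eq_true h1) g
  have hsing : 0 ≤ Real.sin g := Real.sin_nonneg_of_nonneg_of_le_pi hg0.le (by linarith)
  have htb := triple_bound (y₀ := (Y : ℝ) / 100) hκ0 hgh hhy hy (by linarith) hg0 hsum h₁ h₂ h₃ hk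
  have h5 : Real.sin g * Real.tan ((Y : ℝ) / 100 / 2) ≤ Real.sin g * (t6 / 10 ^ 6) :=
    mul_le_mul_of_nonneg_left ht6 hsing
  have h6 : k₁ + k₂ + k₃ ≤ κ * ((F : ℝ) / 10 ^ 8 - 2) := by
    refine le_trans htb (mul_le_mul_of_nonneg_left ?_ hκ0)
    linarith
  -- if the right side is negative
  have hnum' : tgt * 10 ^ 12 + β * (T.M2 - 10 ^ 4) * F + 2 * 10 ^ 12 * (3 * T.J 0 T.N) <
      3 * α * 10 ^ 12 + 2 * β * (T.M2 - 10 ^ 4) * 10 ^ 8 + 2 * 10 ^ 12 * (T.J 0 (T.U * x / 200) +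
      T.J 0 (T.U * (max x (628 - Y - x - 5)) / 200) + T.J 0 (T.U * 209 / 200)) := by
    simpa [Nat.blt_eq] using hnum
  have hnumr : (tgt : ℝ) * 10 ^ 12 + β * (T.M2 - 10 ^ 4) * F + 2 * 10 ^ 12 * (3 * T.J 0 T.N) <
      3 * α * 10 ^ 12 + 2 * β * (T.M2 - 10 ^ 4) * 10 ^ 8 + 2 * 10 ^ 12 * (T.J 0 (T.U * x / 200) +
      T.J 0 (T.U * (max x (628 - Y - x - 5)) / 200) + T.J 0 (T.U * 209 / 200)) := by
    have h7 : ((T.M2 - 10 ^ 4 : ℕ) : ℝ) = (T.M2 : ℝ) - 10 ^ 4 := by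
      rw [Nat.cast_sub hM2]
      norm_num
    rw [← h7]
    exact_mod_cast hnum'
  -- the three losses
  have hdiv : ∀ a : ℕ, 2 * ((T.U * a / 200 : ℕ) : ℝ) ≤ (a : ℝ) / 100 * T.U := by
    intro a
    have h7 : ((T.U * a / 200 : ℕ) : ℝ) ≤ ((T.U * a : ℕ) : ℝ) / ((200 : ℕ) : ℝ) := Nat.cast_div_le
    push_cast at h7
    linarith
  have hRg : T.R g ≤ T.J 0 T.N - T.J 0 (T.U * x / 200) := by
    apply R_le hJ0 hU
    refine le_trans (hdiv x) ?_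
    apply mul_le_mul_of_nonneg_right _ hU'.le
    linarith
  have hRh : T.R h ≤ T.J 0 T.N - T.J 0 (T.U * (max x (628 - Y - x - 5)) / 200) := by
    apply R_le hJ0 hU
    refine le_trans (hdiv _) ?_
    apply mul_le_mul_of_nonneg_right _ hU'.le
    have h7 : ((max x (628 - Y - x - 5) : ℕ) : ℝ) ≤ 100 * h := by
      rcases le_total x (628 - Y - x - 5) with h8 | h8
      · rw [max_eq_right h8]
        rcases Nat.eq_zero_or_pos (628 - Y - x - 5) with h9 | h9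
        · rw [h9]
          push_cast
          linarith
        · have h10 : ((628 - Y - x - 5 : ℕ) : ℝ) = 628 - Y - x - 5 := by
            rw [Nat.cast_sub (by omega), Nat.cast_sub (by omega), Nat.cast_sub (by omega)]
            push_cast
            ring
          rw [h10]
          linarith
      · rw [max_eq_left h8]
        linarith
    linarith
  have hRy : T.R y ≤ T.J 0 T.N - T.J 0 (T.U * 209 / 200) := by
    apply R_le hJ0 hU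
    refine le_trans (hdiv _) ?_
    apply mul_le_mul_of_nonneg_right _ hU'.le
    push_cast
    linarith
  have hβ : (0 : ℝ) ≤ β := Nat.cast_nonneg _
  have h8 : (0 : ℝ) ≤ (F : ℝ) / 10 ^ 8 - 2 := by
    rw [sub_nonneg, le_div_iff₀ (by norm_num)]
    exact hF2r
  have hκF : β * (k₁ + k₂ + k₃) ≤ β * ((T.M2 / 10 ^ 4 - 1) * ((F : ℝ) / 10 ^ 8 - 2)) := by
    apply mul_le_mul_of_nonneg_left _ hβ
    exact le_trans h6 (mul_le_mul_of_nonneg_right hκ h8)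
  have h9 : β * (((T.M2 : ℝ) / 10 ^ 4 - 1) * ((F : ℝ) / 10 ^ 8 - 2)) =
      (β * (T.M2 - 10 ^ 4) * F - 2 * β * (T.M2 - 10 ^ 4) * 10 ^ 8) / 10 ^ 12 := by ring
  rw [h9] at hκF
  linarith

/-- three points on a circle around which `0` is surrounded, all gaps at most `Y / 100` -/
theorem tri_total {V : ℝ → ℝ} {E : Set ℂ} {m : ℝ} {T : Tab} (hT : T.Good m) (h : Cfg V E m)
    (hper : Function.Periodic V (2 * Real.pi)) (hJ0 : ∀ n, T.J 0 n ≤ T.J 0 (n + 1))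
    {α β tgt t6 Y x0 nc TF : ℕ} (hM2 : 10 ^ 4 ≤ T.M2) (hline : Line T α β)
    (hchk : allB (fun i => tcB T α β tgt t6 Y (x0 + 5 * i) (get 32 TF i)) nc = true)
    (hY : Y ≤ 313) (ht6 : Real.tan ((Y : ℝ) / 100 / 2) ≤ t6 / 10 ^ 6) (hx0 : x0 + 2 * Y ≤ 628)
    (hnc : 210 ≤ x0 + 5 * nc)
    {ρ d₁ d₂ d₃ φ₁ φ₂ φ₃ : ℝ} {c : ℂ} (hρ : 1 ≤ ρ) (hρm : ρ + ‖c‖ ^ 2 ≤ m ^ 2)
    (hp₁ : Pt E d₁ φ₁) (hp₂ : Pt E d₂ φ₂) (hp₃ : Pt E d₃ φ₃)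
    (h₁ : ‖(d₁ : ℂ) * exp (φ₁ * I) - c‖ ^ 2 = ρ + ‖c‖ ^ 2)
    (h₂ : ‖(d₂ : ℂ) * exp (φ₂ * I) - c‖ ^ 2 = ρ + ‖c‖ ^ 2)
    (h₃ : ‖(d₃ : ℂ) * exp (φ₃ * I) - c‖ ^ 2 = ρ + ‖c‖ ^ 2)
    (hg₁ : φ₂ - φ₁ ≤ Y / 100) (hg₂ : φ₃ - φ₂ ≤ Y / 100)
    (hg₃ : φ₁ + 2 * Real.pi - φ₃ ≤ Y / 100) :
    (tgt : ℝ) < 10 ^ 8 * ∫ θ in (0 : ℝ)..(2 * Real.pi), V θ := by
  have hpi1 := Real.pi_gt_d6
  have hpi2 := Real.pi_lt_d6
  have hY' : (Y : ℝ) ≤ 313 := by exact_mod_cast hY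
  have hx0' : (x0 : ℝ) + 2 * Y ≤ 628 := by exact_mod_cast hx0
  have hx00 : (0 : ℝ) ≤ x0 := Nat.cast_nonneg _
  have hd₁ := hp₁.1
  have hd₂ := hp₂.1
  have hd₃ := hp₃.1
  have hid := triple_identity (by linarith) (by linarith) (by linarith) h₁ h₂ h₃
  have hs3 : Real.sin (φ₁ - φ₃) = Real.sin (φ₁ + 2 * Real.pi - φ₃) := by
    rw [show φ₁ + 2 * Real.pi - φ₃ = φ₁ - φ₃ + 2 * Real.pi by ring, Real.sin_add_two_pi]
  rw [hs3] at hid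
  set g₁ := φ₂ - φ₁ with hg1d
  set g₂ := φ₃ - φ₂ with hg2d
  set g₃ := φ₁ + 2 * Real.pi - φ₃ with hg3d
  have hsum : g₁ + g₂ + g₃ = 2 * Real.pi := by rw [hg1d, hg2d, hg3d]; ring
  have hρM : ρ ≤ T.M2 / 10 ^ 4 := by
    have h4 := hT.m_sq
    have h5 := sq_nonneg ‖c‖
    linarith
  set κ : ℝ := ρ - 1 with hκ
  have hkd : ∀ d : ℝ, 1 ≤ d → -κ ≤ d - ρ / d := by
    intro d hd
    have h4 : ρ / d ≤ ρ := div_le_self (by linarith) hd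
    rw [hκ]
    linarith
  have hkM : ∀ d : ℝ, 1 ≤ d → d - (T.M2 / 10 ^ 4) / d ≤ d - ρ / d := by
    intro d hd
    have h4 : ρ / d ≤ (T.M2 / 10 ^ 4) / d := div_le_div_of_nonneg_right hρM (by linarith)
    linarith
  have hκ0 : 0 ≤ κ := by rw [hκ]; linarith
  have hκM : κ ≤ T.M2 / 10 ^ 4 - 1 := by rw [hκ]; linarith
  set k₁ := d₁ - ρ / d₁ with hk1d
  set k₂ := d₂ - ρ / d₂ with hk2d
  set k₃ := d₃ - ρ / d₃ with hk3d
  have a₁ := hkd d₁ hd₁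
  have a₂ := hkd d₂ hd₂
  have a₃ := hkd d₃ hd₃
  have hS : ∀ {g h y k₁ k₂ k₃ : ℝ}, g ≤ h → h ≤ y → y ≤ Y / 100 → g + h + y = 2 * Real.pi →
      -κ ≤ k₁ → -κ ≤ k₂ → -κ ≤ k₃ →
      Real.sin g * k₁ + Real.sin h * k₂ + Real.sin y * k₃ ≤ 0 →
      (tgt : ℝ) + β * (k₁ + k₂ + k₃) + 2 * (T.R g + T.R h + T.R y) < 3 * α :=
    fun h1 h2 h3 h4 h5 h6 h7 h8 => tri_sorted hT.U_pos hJ0 hM2 hchk hY ht6 hx0 hnc hκ0 hκM
      h1 h2 h3 h4 h5 h6 h7 h8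
  have hmain : (tgt : ℝ) + β * (k₁ + k₂ + k₃) + 2 * (T.R g₁ + T.R g₂ + T.R g₃) < 3 * α := by
    rcases le_total g₁ g₂ with c1 | c1
    · rcases le_total g₂ g₃ with c2 | c2
      · have := hS c1 c2 hg₃ (by linarith) a₃ a₁ a₂ (by linarith)
        linarith
      · rcases le_total g₁ g₃ with c3 | c3
        · have := hS c3 c2 hg₂ (by linarith) a₃ a₂ a₁ (by linarith)
          linarith
        · have := hS c3 c1 hg₂ (by linarith) a₂ a₃ a₁ (by linarith)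
          linarith
    · rcases le_total g₁ g₃ with c2 | c2
      · have := hS c1 c2 hg₃ (by linarith) a₁ a₃ a₂ (by linarith)
        linarith
      · rcases le_total g₂ g₃ with c3 | c3
        · have := hS c3 c2 hg₁ (by linarith) a₁ a₂ a₃ (by linarith)
          linarith
        · have := hS c3 c1 hg₁ (by linarith) a₂ a₁ a₃ (by linarith)
          linarith
  obtain ⟨j₁, hj₁, hl₁⟩ := hline d₁ hd₁
  obtain ⟨j₂, hj₂, hl₂⟩ := hline d₂ hd₂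
  obtain ⟨j₃, hj₃, hl₃⟩ := hline d₃ hd₃
  have hg1p : 0 ≤ g₁ := by linarith
  have hg2p : 0 ≤ g₂ := by linarith
  have hg3p : 0 ≤ g₃ := by linarith
  have b₁ := gap_half hT h hp₁ hp₂ hj₁ hj₂ (by linarith)
  have b₂ := gap_half hT h hp₂ hp₃ hj₂ hj₃ (by linarith)
  have b₃ := gap_half hT h hp₃ hp₁.add_two_pi hj₃ hj₁ (by linarith)
  rw [← hg1d] at b₁
  rw [← hg2d] at b₂
  rw [← hg3d] at b₃
  have e1 := intervalIntegral.integral_add_adjacent_intervals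
    (h.intervalIntegrable φ₁ φ₂) (h.intervalIntegrable φ₂ φ₃)
  have e2 := intervalIntegral.integral_add_adjacent_intervals
    (h.intervalIntegrable φ₁ φ₃) (h.intervalIntegrable φ₃ (φ₁ + 2 * Real.pi))
  have hperI := hper.intervalIntegral_add_eq φ₁ 0
  rw [zero_add] at hperI
  rw [← hperI, ← e2, ← e1]
  have hβ : (0 : ℝ) ≤ β := Nat.cast_nonneg _
  have f₁ := mul_le_mul_of_nonneg_left (hkM d₁ hd₁) hβ
  have f₂ := mul_le_mul_of_nonneg_left (hkM d₂ hd₂) hβ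
  have f₃ := mul_le_mul_of_nonneg_left (hkM d₃ hd₃) hβ
  linarith

end Pool.Agent.Helper54.LN
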